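import Pool.Agent.N181.Mod.Main1

/-!
# The defects modulo `m`
-/

set_option autoImplicit false

open CategoryTheory AlgebraicGeometry Polynomial

universe u v

namespace Pool.Agent.N181.Mod

open Pool.Agent.H914 Pool.Agent.H914.VarClass Pool.Agent.H914.VarClass.Obj
  Pool.Agent.H914.WeilCohomology Pool.Agent.H281R3.HT Pool.Agent.W534 Pool.Agent.TH132.P

variable {k : Type u} [Field k] {𝒱 : VarClass k} {ops : CycleOps 𝒱}
  {W : WeilCohomology.{u, v} ops} {X Y Z Z' : 𝒱.Obj} {p : ℕ} {m : ℕ}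

section DFam

variable {κ : Type} [Fintype κ] [DecidableEq κ] {e b : κ → W.H X} {d : κ → ℕ}

/-- The generalised Tate classes in the part of the family. -/
theorem DFam.finrank_gen (h : DFam W X e b d) (Φ : FrobSystem W p) (c : ℕ) :
    Module.finrank W.K (genT Φ X c ⊓ LinearMap.range (dproj W e b) :
      Submodule W.K (W.H X)) = (Finset.univ.filter fun k => d k = c).card := by
  have h1 : genT Φ X c ⊓ LinearMap.range (dproj W e b) =
      Submodule.span W.K (Set.range fun k : {k // d k = c} => e k) := by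
    apply le_antisymm
    · rintro x ⟨hx, w, hw⟩
      have hid : dproj W e b x = x := by rw [← hw, ← Module.End.mul_apply, h.idem]
      rw [← hid, dproj_apply]
      refine Submodule.sum_mem _ fun k _ => ?_
      by_cases hk : d k = c
      · exact Submodule.smul_mem _ _ (Submodule.subset_span ⟨⟨k, hk⟩, rfl⟩)
      · have hdk := h.hd k
        rw [W.tr_eq_zero (W.mul_mem ((sysT Φ).gr X c hx) (H914.span_gr (h.hb k))) (by omega),
          zero_smul]
        exact Submodule.zero_mem _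
    · rw [Submodule.span_le]
      rintro _ ⟨⟨k, hk⟩, rfl⟩
      refine ⟨?_, ⟨e k, h.proj_e k⟩⟩
      have := h.he k
      rw [hk] at this
      exact span_le_genT Φ X c this
  have h2 : LinearIndependent W.K (fun k : {k // d k = c} => e k) :=
    h.e_indep.comp _ Subtype.val_injective
  rw [h1, finrank_span_eq_card h2, Fintype.card_subtype]

/-- **The defects are divisible by `m`.** -/
theorem master_self (Φ : FrobSystem W p) {σ : W.K →+* ℂ} [IsAlgClosed W.K] (hp : 1 < p)
    (hRH : ∀ Z : 𝒱.Obj, RiemannHyp Φ σ Z) {φ R G : Module.End W.K (W.H X)} (hφ : ROp W X 0 φ)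
    (hR : R ∈ KOp W X X 0) (hsplit : IsSplit m φ R) (hG : IsGood W X m G)
    (hdf : DFam W X e b d) (hsum : dproj W e b + G + R = 1) {c : ℕ} (hc : c ≤ X.dim) :
    m ∣ defect Φ X c := by
  have kT := finrank_split3 hdf.idem hG.idem hsplit.1 hsum (Q := genT Φ X c)
      (fun v hv => (sysT Φ).kop hdf.kop hv) (fun v hv => (sysT Φ).kop hG.kop hv)
      (fun v hv => (sysT Φ).kop hR hv)
  have gT := hG.self _ ((sysT Φ).stab X c)
  have rT := dvd_genT Φ hp (hRH _) c hφ hR hsplit
  obtain ⟨r, s, hr, hs, hrs⟩ := master_rank hφ hR hsplit hG hdf hsum hdf.kop hc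
  have hd := numRank_add_defect (Φ := Φ) X hc
  rw [hdf.finrank_gen Φ c] at kT
  change m ∣ Module.finrank W.K (genT Φ X c ⊓ LinearMap.range G : Submodule W.K (W.H X)) at gT
  have h1 : defect Φ X c + s = (r + Module.finrank W.K (genT Φ X c ⊓ LinearMap.range G :
      Submodule W.K (W.H X))) + Module.finrank W.K (genT Φ X c ⊓ LinearMap.range R :
      Submodule W.K (W.H X)) := by omega
  have h2 : m ∣ defect Φ X c + s := by
    rw [h1]
    exact dvd_add (dvd_add hr gT) rT
  exact (Nat.dvd_add_left hs).1 h2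

end DFam

/-- The congruences for the products with all varieties, and the divisibility of the defects. -/
def KS (Φ : FrobSystem W p) (m : ℕ) (X : 𝒱.Obj) : Prop :=
  KM Φ m X ∧ ∀ c ≤ X.dim, m ∣ defect Φ X c

theorem ks_of_data (Φ : FrobSystem W p) {σ : W.K →+* ℂ} [IsAlgClosed W.K] (hp : 1 < p)
    (hRH : ∀ Z : 𝒱.Obj, RiemannHyp Φ σ Z) {κ : Type} [Fintype κ] [DecidableEq κ]
    {e b : κ → W.H X} {d : κ → ℕ} {φ R G : Module.End W.K (W.H X)} (hφ : ROp W X 0 φ)
    (hR : R ∈ KOp W X X 0) (hsplit : IsSplit m φ R) (hG : IsGood W X m G)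
    (hdf : DFam W X e b d) (hsum : dproj W e b + G + R = 1) : KS Φ m X :=
  ⟨km_of_data Φ hp hRH hφ hR hsplit hG hdf hsum, fun _ hc =>
    master_self Φ hp hRH hφ hR hsplit hG hdf hsum hc⟩

theorem ks_of_corr (Φ : FrobSystem W p) {σ : W.K →+* ℂ} [IsAlgClosed W.K] (hp : 1 < p)
    (hRH : ∀ Z : 𝒱.Obj, RiemannHyp Φ σ Z) (h : HasModCorr W m X) : KS Φ m X := by
  obtain ⟨φ, R, κ, _, _, e, b, d, hφ, hR, hs, hD, hsum⟩ := exists_data h
  exact ks_of_data Φ hp hRH hφ hR hs IsGood.zero hD hsum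

theorem KS.prod {Φ : FrobSystem W p} {X X' : 𝒱.Obj} (h : KS Φ m X) (h' : KS Φ m X') :
    KS Φ m (X.prod X') := by
  refine ⟨h.1.prod h'.1, fun c hc => ?_⟩
  have h1 := (h.1 X' c hc).2
  have h2 : m ∣ conv X.dim X'.dim (numRank ops X) (defect Φ X') c := by
    rw [conv]
    refine Finset.dvd_sum fun x hx => ?_
    rw [Finset.mem_product, Finset.mem_range, Finset.mem_range] at hx
    split_ifs
    · exact Dvd.dvd.mul_left (h'.2 x.2 (by omega)) _
    · exact dvd_zero m
  exact (Nat.modEq_zero_iff_dvd).1 (h1.symm.trans ((Nat.modEq_zero_iff_dvd).2 h2))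

theorem ks_of_prodOf {Φ : FrobSystem W p} {P : 𝒱.Obj → Prop} (h : ∀ X, P X → KS Φ m X)
    {X : 𝒱.Obj} (hX : ProdOf P X) : KS Φ m X := by
  induction hX with
  | base hX => exact h _ hX
  | prod _ _ ih ih' => exact ih.prod ih'

end Pool.Agent.N181.Mod
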