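import Pool.Agent.N181.Mod.Auto
import Pool.Agent.N181.Mod.Self

/-!
# The formulas of Tate and of Kunneth modulo `m`
-/

set_option autoImplicit false

open CategoryTheory AlgebraicGeometry Polynomial TensorProduct

universe u v

namespace Pool.Agent.N181.Mod

open Pool.Agent.H914 Pool.Agent.H914.VarClass Pool.Agent.H914.VarClass.Obj
  Pool.Agent.H914.WeilCohomology Pool.Agent.H281R3.HT Pool.Agent.W534 Pool.Agent.TH132.P

variable {k : Type u} [Field k] {𝒱 : VarClass k} {ops : CycleOps 𝒱}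
  {W : WeilCohomology.{u, v} ops} {p : ℕ}

lemma tateMod_of_ks {m : ℕ} (Φ : FrobSystem W p) {σ : W.K →+* ℂ} [IsAlgClosed W.K] (hp : 1 < p)
    (hRH : ∀ Z : 𝒱.Obj, RiemannHyp Φ σ Z) {X : 𝒱.Obj} (h : KS Φ m X) : TateMod Φ σ m X :=
  fun c hc => ⟨defect Φ X c, h.2 c hc,
    poleDefect_of hp (hRH _) hc (numRank_add_defect X hc).symm⟩

lemma ProdOf.mono {P Q : 𝒱.Obj → Prop} (h : ∀ Z, P Z → Q Z) {X : 𝒱.Obj} (hX : ProdOf P X) :
    ProdOf Q X := by
  induction hX with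
  | base h' => exact ProdOf.base (h _ h')
  | prod _ _ h₁ h₂ => exact ProdOf.prod h₁ h₂

/-- **The formulas of Tate and of Kunneth modulo `m`.** -/
theorem main1T (W : WeilCohomology.{u, v} ops) [IsAlgClosed W.K] (σ : W.K →+* ℂ) (p : ℕ)
    (hp : p.Prime) (Φ : FrobSystem W p) (hRH : ∀ Z : 𝒱.Obj, RiemannHyp Φ σ Z) (m : ℕ)
    (X : 𝒱.Obj) (hX : ProdOf (fun Z => HasModCorr W m Z ∨ IsCyclicCover W m Z) X) :
    TateMod Φ σ m X ∧ KunnethMod Φ σ m X := by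
  have h : KS Φ m X := ks_of_prodOf (fun _ h => ks_of_corr Φ hp.one_lt hRH
    (h.elim id hasModCorr_of_auto)) hX
  exact ⟨tateMod_of_ks Φ hp.one_lt hRH h, kunnethMod_of_km Φ hp.one_lt hRH h.1⟩

end Pool.Agent.N181.Mod
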