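import Pool.Agent.N181.Mod.KDefs

/-!
# Varieties with all the eigenspaces of degree prime to `m` algebraic: definitions
-/

set_option autoImplicit false

open CategoryTheory AlgebraicGeometry

universe u v

namespace Pool.Agent.N181.Mod

open Pool.Agent.H914 Pool.Agent.H914.VarClass Pool.Agent.H914.VarClass.Obj
  Pool.Agent.H914.WeilCohomology Pool.Agent.W534 Pool.Agent.H281R3.HT Pool.Agent.TH132.P

variable {k : Type u} [Field k] {𝒱 : VarClass k} {ops : CycleOps 𝒱}
  {W : WeilCohomology.{u, v} ops} {p : ℕ}

/-- The generalised eigenspaces of the operator `φ` on the cohomology of `X`, for all the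
eigenvalues whose degree over the rational numbers is not divisible by `m`, are contained in the span
of the algebraic classes. -/
def AlgebraicOffMod (W : WeilCohomology.{u, v} ops) (m : ℕ) (X : 𝒱.Obj)
    (φ : Module.End W.K (W.H X)) : Prop :=
  ∀ α : W.K, ¬ m ∣ (minpoly ℚ α).natDegree → φ.maxGenEigenspace α ≤ algSpan W X

/-- There is an algebraic correspondence `z` of degree zero on `X`, with rational coefficients, such
that for `z` and for its transpose all the generalised eigenspaces in the cohomology of `X`, for
the eigenvalues of degree over the rational numbers not divisible by `m`, are contained in the span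
of the algebraic classes. -/
def HasModCorr (W : WeilCohomology.{u, v} ops) (m : ℕ) (X : 𝒱.Obj) : Prop :=
  ∃ z, (X.prod X).IsCyc X.dim z ∧ AlgebraicOffMod W m X (W.corr (W.cl _ z)) ∧
    AlgebraicOffMod W m X (W.corr (W.map (lift (snd X X) (fst X X)) (W.cl _ z)))

/-- The variety `X` has an automorphism `g` of prime order `ℓ`, where `m` divides `ℓ - 1`, such that
all the classes invariant under `g^*` and all the classes invariant under `g_*` are in the span of the
algebraic classes (for example, a cyclic covering of degree `ℓ` of a projective space). -/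
def IsCyclicCover (W : WeilCohomology.{u, v} ops) (m : ℕ) (X : 𝒱.Obj) : Prop :=
  ∃ ℓ : ℕ, ℓ.Prime ∧ m ∣ ℓ - 1 ∧ ∃ g : X ⟶ X, W534.iter g ℓ = 𝟙 X ∧
    (∀ x, W.map g x = x → x ∈ algSpan W X) ∧ ∀ x, W.push g x = x → x ∈ algSpan W X

end Pool.Agent.N181.Mod
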