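import Pool.Agent.N181.Mod.Fams
import Pool.Agent.N181.Mod.Defs

/-!
# The formula of Kunneth modulo `m`
-/

set_option autoImplicit false

open CategoryTheory AlgebraicGeometry Polynomial CategoryTheory.Limits

universe u v

namespace Pool.Agent.N181.Mod

open Pool.Agent.H914 Pool.Agent.H914.VarClass Pool.Agent.H914.VarClass.Obj
  Pool.Agent.H914.WeilCohomology Pool.Agent.H281R3.HT Pool.Agent.W534 Pool.Agent.TH132.P

variable {k : Type u} [Field k] {𝒱 : VarClass k} {ops : CycleOps 𝒱}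
  {W : WeilCohomology.{u, v} ops} {X Y Z Z' : 𝒱.Obj} {p : ℕ} {m : ℕ}

lemma algSpan_le : algSpan W X ≤ algSp W X := by
  rw [algSpan, Submodule.span_le]
  intro x hx
  obtain ⟨j, hj⟩ := Set.mem_iUnion.1 hx
  exact span_le_algSp j (alg_mem_span hj)

lemma algSp_le : algSp W X ≤ algSpan W X := by
  refine iSup_le fun j => ?_
  rw [spanCycles, Submodule.span_le]
  rintro _ ⟨p, hp, z, hz, rfl⟩
  exact Submodule.subset_span (Set.mem_iUnion.2 ⟨p, z, hz, rfl⟩)

lemma kop_aeval {φ : Module.End W.K (W.H X)} (hφ : φ ∈ KOp W X X 0) (q : W.K[X]) :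
    aeval φ q ∈ KOp W X X 0 := by
  have h1 : ∀ n : ℕ, φ ^ n ∈ KOp W X X 0 := by
    intro n
    induction n with
    | zero => rw [pow_zero]; exact KOp.id X
    | succ n ih => rw [pow_succ]; exact KOp.cast (KOp.comp ih hφ) (add_zero 0)
  induction q using Polynomial.induction_on' with
  | add p q hp hq => rw [map_add]; exact Submodule.add_mem _ hp hq
  | monomial n c =>
    rw [aeval_monomial, Algebra.algebraMap_eq_smul_one, smul_mul_assoc, one_mul]
    exact Submodule.smul_mem _ _ (h1 n)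

lemma kop_isHom {φ : Module.End W.K (W.H X)} (hφ : φ ∈ KOp W X X 0) : IsHom (W.gr X) 0 φ := by
  intro i a ha
  have h := KOp.isHom hφ i a ha
  rwa [mul_zero] at h

lemma adj_aeval {φ φ' : Module.End W.K (W.H X)}
    (h : ∀ a b, W.tr X (φ a * b) = W.tr X (a * φ' b)) (q : W.K[X]) :
    ∀ a b, W.tr X (aeval φ q a * b) = W.tr X (a * aeval φ' q b) := by
  have h1 : ∀ n : ℕ, ∀ a b, W.tr X ((φ ^ n) a * b) = W.tr X (a * (φ' ^ n) b) := by
    intro n
    induction n with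
    | zero => intro a b; rw [pow_zero, pow_zero]; rfl
    | succ n ih =>
      intro a b
      rw [pow_succ, pow_succ', Module.End.mul_apply, Module.End.mul_apply, ih, h]
  induction q using Polynomial.induction_on' with
  | add p q hp hq =>
    intro a b
    rw [map_add, map_add, LinearMap.add_apply, LinearMap.add_apply, add_mul, mul_add, map_add,
      map_add, hp, hq]
  | monomial n c =>
    intro a b
    rw [aeval_monomial, aeval_monomial, Algebra.algebraMap_eq_smul_one, smul_mul_assoc,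
      one_mul, smul_mul_assoc, one_mul, LinearMap.smul_apply, LinearMap.smul_apply, smul_mul_assoc, mul_smul_comm, map_smul,
      map_smul, h1]

/-- **The data given by a correspondence.** -/
theorem exists_data [IsAlgClosed W.K] (h : HasModCorr W m X) :
    ∃ (φ R : Module.End W.K (W.H X)) (κ : Type) (_ : Fintype κ) (_ : DecidableEq κ)
      (e b : κ → W.H X) (d : κ → ℕ), ROp W X 0 φ ∧ R ∈ KOp W X X 0 ∧ IsSplit m φ R ∧
      DFam W X e b d ∧ dproj W e b + 0 + R = 1 := by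
  obtain ⟨z, hz, h1, h2⟩ := h
  set φ := W.corr (W.cl _ z) with hφ
  set φ' := W.corr (W.map (lift (snd X X) (fst X X)) (W.cl _ z)) with hφ'
  have hrop : ROp W X 0 φ := rop_of_cyc hz
  have hk : φ ∈ KOp W X X 0 := kop_of_rop hrop
  have hk' : φ' ∈ KOp W X X 0 := by
    rw [hφ', ← W.cl_pull]
    exact KOp.gen (by rw [add_zero]) (ops.pull_mem _ hz)
  have hadj : ∀ a b, W.tr X (φ a * b) = W.tr X (a * φ' b) :=
    fun a b => tr_corr_swap (W.cl_mem hz) a b
  obtain ⟨w, ⟨s1, s2, s3⟩, ⟨s1', s2', s3'⟩⟩ := exists_split_poly m φ φ'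
  have hR := kop_aeval hk w
  have hR' := kop_aeval hk' w
  obtain ⟨κ, i1, i2, e, b, d, hD, hP⟩ := exists_dfam (P := 1 - aeval φ w) (P' := 1 - aeval φ' w)
    (by rw [mul_sub, sub_mul, sub_mul, one_mul, mul_one, s1.1]; simp)
    (isHom_one.sub (kop_isHom hR)) (isHom_one.sub (kop_isHom hR'))
    (fun a b => by
      rw [LinearMap.sub_apply, LinearMap.sub_apply, Module.End.one_apply, Module.End.one_apply,
        sub_mul, mul_sub, map_sub, map_sub, adj_aeval hadj])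
    (fun v => by
      have h3 := s3 v
      refine (show _ ≤ algSp W X from ?_) h3
      exact iSup_le fun α => iSup_le fun hα => (h1 α hα).trans algSpan_le)
    (fun v => by
      have h3 := s3' v
      refine (show _ ≤ algSp W X from ?_) h3
      exact iSup_le fun α => iSup_le fun hα => (h2 α hα).trans algSpan_le)
  exact ⟨φ, aeval φ w, κ, i1, i2, e, b, d, hrop, hR, s1, hD, by rw [hP, add_zero]; abel⟩

/-- The congruences for the products with all varieties. -/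
def KM (Φ : FrobSystem W p) (m : ℕ) (X : 𝒱.Obj) : Prop :=
  ∀ Y : 𝒱.Obj, ∀ c ≤ (X.prod Y).dim,
    conv X.dim Y.dim (numRank ops X) (numRank ops Y) c ≡ numRank ops (X.prod Y) c [MOD m] ∧
    conv X.dim Y.dim (numRank ops X) (defect Φ Y) c ≡ defect Φ (X.prod Y) c [MOD m]

theorem km_of_data (Φ : FrobSystem W p) {σ : W.K →+* ℂ} [IsAlgClosed W.K] (hp : 1 < p)
    (hRH : ∀ Z : 𝒱.Obj, RiemannHyp Φ σ Z) {κ : Type} [Fintype κ] [DecidableEq κ]
    {e b : κ → W.H X} {d : κ → ℕ} {φ R G : Module.End W.K (W.H X)} (hφ : ROp W X 0 φ)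
    (hR : R ∈ KOp W X X 0) (hsplit : IsSplit m φ R) (hG : IsGood W X m G)
    (hdf : DFam W X e b d) (hsum : dproj W e b + G + R = 1) : KM Φ m X := fun Y _ hc =>
  ⟨master_num hφ hR hsplit hG hdf hsum Y hc, (master Φ hp hRH hφ hR hsplit hG hdf hsum Y hc).2⟩

theorem km_of_corr (Φ : FrobSystem W p) {σ : W.K →+* ℂ} [IsAlgClosed W.K] (hp : 1 < p)
    (hRH : ∀ Z : 𝒱.Obj, RiemannHyp Φ σ Z) (h : HasModCorr W m X) : KM Φ m X := by
  obtain ⟨φ, R, κ, _, _, e, b, d, hφ, hR, hs, hD, hsum⟩ := exists_data h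
  exact km_of_data Φ hp hRH hφ hR hs IsGood.zero hD hsum

section Iso

lemma finrank_le_of_map (𝒮 : Sys W) {Z Z' : 𝒱.Obj} (f : Z ⟶ Z') (g : Z' ⟶ Z)
    (hgf : g ≫ f = 𝟙 Z') (c : ℕ) :
    Module.finrank W.K (𝒮.S Z' c) ≤ Module.finrank W.K (𝒮.S Z c) := by
  have hinj : Function.Injective (W.map f) := by
    intro x y hxy
    have h1 := congrArg (W.map g) hxy
    rwa [← W.map_comp, ← W.map_comp, hgf, W.map_id, W.map_id] at h1
  have hmap : ∀ x ∈ 𝒮.S Z' c, (W.map f).toLinearMap x ∈ 𝒮.S Z c := fun x hx => 𝒮.map f hx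
  refine LinearMap.finrank_le_finrank_of_injective
    (f := (W.map f).toLinearMap.restrict hmap) ?_
  intro x y hxy
  exact Subtype.ext (hinj (congrArg Subtype.val hxy))

lemma finrank_iso (𝒮 : Sys W) {Z Z' : 𝒱.Obj} (f : Z ⟶ Z') (g : Z' ⟶ Z)
    (hfg : f ≫ g = 𝟙 Z) (hgf : g ≫ f = 𝟙 Z') (c : ℕ) :
    Module.finrank W.K (𝒮.S Z c) = Module.finrank W.K (𝒮.S Z' c) :=
  le_antisymm (finrank_le_of_map 𝒮 g f hfg c) (finrank_le_of_map 𝒮 f g hgf c)

lemma numRank_iso (W : WeilCohomology.{u, v} ops) {Z Z' : 𝒱.Obj} (f : Z ⟶ Z') (g : Z' ⟶ Z)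
    (hfg : f ≫ g = 𝟙 Z) (hgf : g ≫ f = 𝟙 Z') (hdim : Z.dim = Z'.dim) {c : ℕ} (hc : c ≤ Z.dim) :
    numRank ops Z c = numRank ops Z' c := by
  have h1 := finrank_iso (sysA W) f g hfg hgf c
  have h2 := finrank_iso (sysN W) f g hfg hgf c
  have h3 := finrank_nul (W := W) (Z := Z) c
  have h4 := finrank_nul (W := W) (Z := Z') c
  rw [← numRank_eq (W := W) hc] at h3
  rw [← numRank_eq (W := W) (hdim ▸ hc)] at h4
  change Module.finrank W.K (spanCycles W Z (c : ℕ)) =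
    Module.finrank W.K (spanCycles W Z' (c : ℕ)) at h1
  change Module.finrank W.K (nul W Z c) = Module.finrank W.K (nul W Z' c) at h2
  omega

lemma defect_iso (Φ : FrobSystem W p) {Z Z' : 𝒱.Obj} (f : Z ⟶ Z') (g : Z' ⟶ Z)
    (hfg : f ≫ g = 𝟙 Z) (hgf : g ≫ f = 𝟙 Z') (hdim : Z.dim = Z'.dim) {c : ℕ} (hc : c ≤ Z.dim) :
    defect Φ Z c = defect Φ Z' c := by
  have h1 := finrank_iso (sysT Φ) f g hfg hgf c
  rw [defect, defect, numRank_iso W f g hfg hgf hdim hc]
  change Module.finrank W.K (genT Φ Z c) = Module.finrank W.K (genT Φ Z' c) at h1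
  rw [h1]

/-- Reassociation. -/
noncomputable def asc (X Y Z : 𝒱.Obj) : (X.prod Y).prod Z ⟶ X.prod (Y.prod Z) :=
  lift (fst (X.prod Y) Z ≫ fst X Y) (lift (fst (X.prod Y) Z ≫ snd X Y) (snd (X.prod Y) Z))

/-- Reassociation. -/
noncomputable def asc' (X Y Z : 𝒱.Obj) : X.prod (Y.prod Z) ⟶ (X.prod Y).prod Z :=
  lift (lift (fst X (Y.prod Z)) (snd X (Y.prod Z) ≫ fst Y Z)) (snd X (Y.prod Z) ≫ snd Y Z)

/-- Morphisms to a product are determined by their components. -/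
lemma prod_hom_ext {X Y Z : 𝒱.Obj} {f g : Z ⟶ X.prod Y} (h1 : f ≫ fst X Y = g ≫ fst X Y)
    (h2 : f ≫ snd X Y = g ≫ snd X Y) : f = g := by
  apply SmVar.hom_ext
  exact pullback.hom_ext (congrArg SmVar.Hom.hom h1) (congrArg SmVar.Hom.hom h2)

lemma asc_asc' (X Y Z : 𝒱.Obj) : asc X Y Z ≫ asc' X Y Z = 𝟙 _ := by
  apply prod_hom_ext
  · apply prod_hom_ext
    · simp [asc, asc']
    · simp [asc, asc']
  · simp [asc, asc']

lemma asc'_asc (X Y Z : 𝒱.Obj) : asc' X Y Z ≫ asc X Y Z = 𝟙 _ := by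
  apply prod_hom_ext
  · simp [asc, asc']
  · apply prod_hom_ext
    · simp [asc, asc']
    · simp [asc, asc']

end Iso

section Poly

/-- The polynomial with the coefficients `a i`, for `i ≤ n`, modulo `m`. -/
noncomputable def tp (m n : ℕ) (a : ℕ → ℕ) : (ZMod m)[X] :=
  ∑ i ∈ Finset.range (n + 1), monomial i ((a i : ℕ) : ZMod m)

lemma coeff_tp (m n : ℕ) (a : ℕ → ℕ) (c : ℕ) :
    (tp m n a).coeff c = ((ez n a c : ℕ) : ZMod m) := by
  rw [tp, finsetSum_coeff]
  simp only [coeff_monomial]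
  rw [ez]
  split_ifs with h
  · rw [Finset.sum_eq_single c]
    · rw [if_pos rfl]
    · intro b _ hb
      rw [if_neg hb]
    · intro h'
      exact absurd (Finset.mem_range.2 (by omega)) h'
  · rw [Nat.cast_zero]
    refine Finset.sum_eq_zero fun b hb => ?_
    rw [if_neg]
    rintro rfl
    exact h (by have := Finset.mem_range.1 hb; omega)

lemma tp_mul (m n n' : ℕ) (a b : ℕ → ℕ) : tp m n a * tp m n' b = tp m (n + n')
    (conv n n' a b) := by
  ext c
  rw [coeff_mul, coeff_tp]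
  have h1 : ∑ x ∈ Finset.HasAntidiagonal.antidiagonal c, (tp m n a).coeff x.1 * (tp m n' b).coeff x.2 =
      ((∑ x ∈ Finset.HasAntidiagonal.antidiagonal c, ez n a x.1 * ez n' b x.2 : ℕ) : ZMod m) := by
    push_cast
    exact Finset.sum_congr rfl fun x _ => by rw [coeff_tp, coeff_tp]
  rw [h1, Finset.Nat.sum_antidiagonal_eq_sum_range_succ (fun i j => ez n a i * ez n' b j),
    sum_eq_conv (m := n) (n := n') (fun i hi => by rw [ez, if_neg (by omega)])
      (fun j hj => by rw [ez, if_neg (by omega)])]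
  have h2 : conv n n' (ez n a) (ez n' b) c = conv n n' a b c :=
    conv_congr (fun i hi => by rw [ez, if_pos hi]) (fun j hj => by rw [ez, if_pos hj])
  rw [h2, ez]
  split_ifs with h
  · rfl
  · rw [conv, Finset.sum_eq_zero]
    rintro ⟨i, j⟩ hx
    rw [Finset.mem_product, Finset.mem_range, Finset.mem_range] at hx
    rw [if_neg]
    intro h'
    dsimp only at h' hx
    omega

lemma tp_eq_iff {m n : ℕ} {a b : ℕ → ℕ} : tp m n a = tp m n b ↔
    ∀ c ≤ n, a c ≡ b c [MOD m] := by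
  constructor
  · intro h c hc
    have h1 := congrArg (fun f => f.coeff c) h
    rw [coeff_tp, coeff_tp, ez, ez, if_pos hc, if_pos hc] at h1
    exact (ZMod.natCast_eq_natCast_iff _ _ _).1 h1
  · intro h
    ext c
    rw [coeff_tp, coeff_tp, ez, ez]
    split_ifs with hc
    · exact (ZMod.natCast_eq_natCast_iff _ _ _).2 (h c hc)
    · rfl

end Poly

/-- The ranks, as a polynomial. -/
noncomputable def rkPoly (ops : CycleOps 𝒱) (m : ℕ) (Z : 𝒱.Obj) : (ZMod m)[X] :=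
  tp m Z.dim (numRank ops Z)

/-- The defects, as a polynomial. -/
noncomputable def dfPoly (Φ : FrobSystem W p) (m : ℕ) (Z : 𝒱.Obj) : (ZMod m)[X] :=
  tp m Z.dim (defect Φ Z)

lemma km_iff {Φ : FrobSystem W p} : KM Φ m X ↔ ∀ Y : 𝒱.Obj,
    rkPoly ops m (X.prod Y) = rkPoly ops m X * rkPoly ops m Y ∧
    dfPoly Φ m (X.prod Y) = rkPoly ops m X * dfPoly Φ m Y := by
  refine forall_congr' fun Y => ?_
  rw [rkPoly, rkPoly, rkPoly, dfPoly, dfPoly, tp_mul, tp_mul, dim_prod, tp_eq_iff, tp_eq_iff]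
  constructor
  · intro h
    exact ⟨fun c hc => (h c hc).1.symm, fun c hc => (h c hc).2.symm⟩
  · intro h c hc
    exact ⟨(h.1 c hc).symm, (h.2 c hc).symm⟩

/-- **Products.** -/
theorem KM.prod {Φ : FrobSystem W p} {X X' : 𝒱.Obj} (h : KM Φ m X) (h' : KM Φ m X') :
    KM Φ m (X.prod X') := by
  rw [km_iff] at h h' ⊢
  intro Y
  have hd : ((X.prod X').prod Y).dim = (X.prod (X'.prod Y)).dim := Nat.add_assoc _ _ _
  have e1 : rkPoly ops m ((X.prod X').prod Y) = rkPoly ops m (X.prod (X'.prod Y)) := by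
    rw [rkPoly, rkPoly, hd]
    exact tp_eq_iff.2 fun c hc => by
      rw [numRank_iso W (asc X X' Y) (asc' X X' Y) (asc_asc' X X' Y) (asc'_asc X X' Y) hd
        (hd ▸ hc)]
  have e2 : dfPoly Φ m ((X.prod X').prod Y) = dfPoly Φ m (X.prod (X'.prod Y)) := by
    rw [dfPoly, dfPoly, hd]
    exact tp_eq_iff.2 fun c hc => by
      rw [defect_iso Φ (asc X X' Y) (asc' X X' Y) (asc_asc' X X' Y) (asc'_asc X X' Y) hd
        (hd ▸ hc)]
  rw [e1, e2, (h _).1, (h _).2, (h' _).1, (h' _).2, (h X').1, mul_assoc, mul_assoc]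
  exact ⟨rfl, rfl⟩

theorem km_of_prodOf {Φ : FrobSystem W p} {P : 𝒱.Obj → Prop} (h : ∀ X, P X → KM Φ m X)
    {X : 𝒱.Obj} (hX : ProdOf P X) : KM Φ m X := by
  induction hX with
  | base hX => exact h _ hX
  | prod _ _ ih ih' => exact ih.prod ih'

theorem kunnethMod_of_km (Φ : FrobSystem W p) {σ : W.K →+* ℂ} [IsAlgClosed W.K] (hp : 1 < p)
    (hRH : ∀ Z : 𝒱.Obj, RiemannHyp Φ σ Z) {X : 𝒱.Obj} (h : KM Φ m X) :
    KunnethMod Φ σ m X := fun Y => ⟨defect Φ Y, defect Φ (X.prod Y),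
  fun _ hj => poleDefect_of hp (hRH _) hj (numRank_add_defect Y hj).symm, fun c hc =>
    ⟨poleDefect_of hp (hRH _) hc (numRank_add_defect _ hc).symm, (h Y c hc).1.symm,
      conv_le_defect Φ X Y hc, (h Y c hc).2.symm⟩⟩

/-- **The formula of Kunneth modulo `m`.** -/
theorem main1 (W : WeilCohomology.{u, v} ops) [IsAlgClosed W.K] (σ : W.K →+* ℂ) (p : ℕ)
    (hp : p.Prime) (Φ : FrobSystem W p) (hRH : ∀ Z : 𝒱.Obj, RiemannHyp Φ σ Z) (m : ℕ)
    (X : 𝒱.Obj) (hX : ProdOf (HasModCorr W m) X) : KunnethMod Φ σ m X :=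
  kunnethMod_of_km Φ hp.one_lt hRH (km_of_prodOf (fun _ h => km_of_corr Φ hp.one_lt hRH h) hX)

end Pool.Agent.N181.Mod
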