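import Pool.Agent.N181.Mod.Main1

/-!
# Automorphisms of prime order
-/

set_option autoImplicit false

open CategoryTheory AlgebraicGeometry Polynomial CategoryTheory.Limits

universe u v

namespace Pool.Agent.N181.Mod

open Pool.Agent.H914 Pool.Agent.H914.VarClass Pool.Agent.H914.VarClass.Obj
  Pool.Agent.H914.WeilCohomology Pool.Agent.H281R3.HT Pool.Agent.W534 Pool.Agent.TH132.P

variable {k : Type u} [Field k] {𝒱 : VarClass k} {ops : CycleOps 𝒱}
  {W : WeilCohomology.{u, v} ops} {X Y Z Z' : 𝒱.Obj} {p : ℕ} {m : ℕ}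

lemma algebraicOff_of_auto {ψ : Module.End W.K (W.H Z)} {ℓ : ℕ} (hℓ : ℓ.Prime)
    (hm : m ∣ ℓ - 1) (h : ψ ^ ℓ = 1) (hinv : ∀ x, ψ x = x → x ∈ algSpan W Z) :
    AlgebraicOffMod W m Z ψ := by
  intro α hα
  by_cases hbot : ψ.maxGenEigenspace α = ⊥
  · rw [hbot]; exact bot_le
  have hsq : Squarefree (X ^ ℓ - 1 : W.K[X]) :=
    ((X_pow_sub_one_separable_iff).2 (Nat.cast_ne_zero.2 hℓ.ne_zero)).squarefree
  have hss : ψ.IsSemisimple := Module.End.isSemisimple_of_squarefree_aeval_eq_zero hsq (by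
    rw [map_sub, map_pow, aeval_X, map_one, h, sub_self])
  rw [hss.isFinitelySemisimple.maxGenEigenspace_eq_eigenspace] at hbot ⊢
  obtain ⟨v, hv, hv0⟩ := (Submodule.ne_bot_iff _).1 hbot
  rw [Module.End.mem_eigenspace_iff] at hv
  have h1 : α ^ ℓ = 1 := by
    have e1 := aeval_apply_eig hv (X ^ ℓ)
    rw [map_pow, aeval_X, h, Module.End.one_apply, eval_pow, eval_X] at e1
    have e2 : (α ^ ℓ - 1) • v = 0 := by rw [sub_smul, one_smul, ← e1, sub_self]
    exact sub_eq_zero.1 ((smul_eq_zero.1 e2).resolve_right hv0)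
  by_cases h2 : α = 1
  · subst h2
    intro x hx
    rw [Module.End.mem_eigenspace_iff, one_smul] at hx
    exact hinv x hx
  · exfalso
    apply hα
    have : Fact ℓ.Prime := ⟨hℓ⟩
    have h3 : IsPrimitiveRoot α ℓ := by
      rw [← orderOf_eq_prime h1 h2]
      exact IsPrimitiveRoot.orderOf α
    rw [← cyclotomic_eq_minpoly_rat h3 hℓ.pos, natDegree_cyclotomic, Nat.totient_prime hℓ]
    exact hm

lemma push_iter (g : X ⟶ X) (n : ℕ) : W.push (W534.iter g n) = (W.push g) ^ n := by
  induction n with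
  | zero =>
    apply LinearMap.ext
    intro x
    rw [W534.iter, W.push_id, pow_zero]
    rfl
  | succ n ih =>
    apply LinearMap.ext
    intro x
    rw [W534.iter, W.push_comp, ih, pow_succ', Module.End.mul_apply]

lemma map_iter_pow (g : X ⟶ X) (n : ℕ) :
    (W.map (W534.iter g n)).toLinearMap = (W.map g).toLinearMap ^ n := by
  induction n with
  | zero =>
    apply LinearMap.ext
    intro x
    change W.map (W534.iter g 0) x = _
    rw [W534.iter, W.map_id, pow_zero]
    rfl
  | succ n ih =>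
    apply LinearMap.ext
    intro x
    change W.map (W534.iter g (n + 1)) x = _
    rw [W534.iter, W.map_comp, pow_succ, Module.End.mul_apply, ← ih]
    rfl

theorem hasModCorr_of_auto (h : IsCyclicCover W m X) : HasModCorr W m X := by
  obtain ⟨ℓ, hℓ, hm, g, hg, h1, h2⟩ := h
  obtain ⟨z, hz, hzg⟩ := cyc_of_rop (rop_map (W := W) g)
  refine ⟨z, hz, ?_, ?_⟩
  · rw [hzg]
    refine algebraicOff_of_auto hℓ hm ?_ h1
    rw [← map_iter_pow, hg]
    apply LinearMap.ext
    intro x
    exact W.map_id X x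
  · have h3 : W.corr (W.map (lift (snd X X) (fst X X)) (W.cl _ z)) = W.push g := by
      apply LinearMap.ext
      intro b
      rw [← sub_eq_zero]
      apply nondeg_right
      intro a
      have e1 : W.tr X (W.corr (W.cl _ z) a * b) =
          W.tr X (a * W.corr (W.map (lift (snd X X) (fst X X)) (W.cl _ z)) b) :=
        tr_corr_swap (W.cl_mem hz) a b
      rw [hzg] at e1
      have e2 := tr_map_adj (W := W) g a b
      rw [mul_sub, map_sub, ← e1, ← e2]
      exact sub_self _
    rw [h3]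
    refine algebraicOff_of_auto hℓ hm ?_ h2
    rw [← push_iter, hg]
    apply LinearMap.ext
    intro x
    exact W.push_id x

/-- **The formula of Kunneth modulo `m`.** -/
theorem main1' (W : WeilCohomology.{u, v} ops) [IsAlgClosed W.K] (σ : W.K →+* ℂ) (p : ℕ)
    (hp : p.Prime) (Φ : FrobSystem W p) (hRH : ∀ Z : 𝒱.Obj, RiemannHyp Φ σ Z) (m : ℕ)
    (X : 𝒱.Obj) (hX : ProdOf (fun Z => HasModCorr W m Z ∨ IsCyclicCover W m Z) X) :
    KunnethMod Φ σ m X :=
  kunnethMod_of_km Φ hp.one_lt hRH (km_of_prodOf (fun _ h => km_of_corr Φ hp.one_lt hRH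
    (h.elim id hasModCorr_of_auto)) hX)

end Pool.Agent.N181.Mod
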