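import Pool.Agent.N181.Mod.Sys

/-!
# Rational traces on the generalised Tate classes
-/

set_option autoImplicit false

open CategoryTheory AlgebraicGeometry Polynomial

universe u v

namespace Pool.Agent.N181.Mod

open Pool.Agent.H914 Pool.Agent.H914.VarClass Pool.Agent.H914.VarClass.Obj
  Pool.Agent.H914.WeilCohomology Pool.Agent.H281R3.HT Pool.Agent.W534 Pool.Agent.TH132.P

variable {k : Type u} [Field k] {𝒱 : VarClass k} {ops : CycleOps 𝒱}
  {W : WeilCohomology.{u, v} ops} {X Y Z Z' : 𝒱.Obj} {p : ℕ}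

section Weights

variable (Φ : FrobSystem W p) {σ : W.K →+* ℂ}

lemma frob_isHom (Z : 𝒱.Obj) (s : ℕ) : IsHom (W.gr Z) 0 (frob Φ Z s) :=
  rop_opAlg.hom (rop_map (W := W) (W534.iter (Φ.Fr Z) s))

/-- The eigenvalues in degree `i`. -/
lemma norm_eig (hRH : RiemannHyp Φ σ Z) {s : ℕ} (hs : 0 < s) {μ : W.K} {i : ℕ} {w : W.H Z}
    (hw : w ∈ W.gr Z i) (hw0 : w ≠ 0) (h : frob Φ Z s w = μ • w) :
    ‖σ μ‖ ^ 2 = (card Φ Z s : ℝ) ^ i := by
  apply hRH s hs i (σ μ)
  rw [frobPoly_eq, IsRoot.def, Polynomial.eval_map, Polynomial.eval₂_hom]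
  rw [show Polynomial.eval μ (frobOn Φ Z s i).charpoly = 0 from ?_, map_zero]
  rw [← IsRoot.def, ← Module.End.hasEigenvalue_iff_isRoot_charpoly]
  refine Module.End.hasEigenvalue_of_hasEigenvector (x := ⟨w, hw⟩) ⟨?_, ?_⟩
  · rw [Module.End.mem_eigenspace_iff]
    apply Subtype.ext
    exact h
  · intro h0
    exact hw0 (congrArg Subtype.val h0)

lemma card_gt_one (hp : 1 < p) {s : ℕ} (hs : 0 < s) : 1 < card Φ Z s :=
  Nat.one_lt_pow (Nat.mul_pos (Φ.e_pos Z) hs).ne' hp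

/-- Each generalised eigenspace is contained in one degree. -/
lemma gen_le_gr (hp : 1 < p) (hRH : RiemannHyp Φ σ Z) {s : ℕ} (hs : 0 < s) (μ : W.K) :
    ∃ i, (frob Φ Z s).maxGenEigenspace μ ≤ W.gr Z i ∧
      ((frob Φ Z s).maxGenEigenspace μ ≠ ⊥ → ‖σ μ‖ ^ 2 = (card Φ Z s : ℝ) ^ i) := by
  by_cases hbot : (frob Φ Z s).maxGenEigenspace μ = ⊥
  · exact ⟨0, by rw [hbot]; exact bot_le, fun h => absurd hbot h⟩
  have key : ∀ i, ∀ v ∈ (frob Φ Z s).maxGenEigenspace μ, proj (W.isInternal Z) i v ≠ 0 →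
      ‖σ μ‖ ^ 2 = (card Φ Z s : ℝ) ^ i := by
    intro i v hv hne
    have hc : frob Φ Z s * proj (W.isInternal Z) i = proj (W.isInternal Z) i * frob Φ Z s :=
      ((frob_isHom Φ Z s).proj_comm (W.isInternal Z) i).symm
    obtain ⟨w, hw, hw0, hr⟩ := exists_eigen hc hv hne
    rw [range_proj] at hr
    exact norm_eig Φ hRH hs hr hw0 hw
  have hsum : ∀ v : W.H Z, v = ∑ i ∈ Finset.range (2 * Z.dim + 1),
      proj (W.isInternal Z) i v := by
    intro v
    have h1 := sum_proj (W.isInternal Z) (N := 2 * Z.dim + 1)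
      (fun i hi => W.gr_eq_bot Z i (by omega))
    have h2 := congrArg (fun F => F v) h1
    simp only [LinearMap.sum_apply, Module.End.one_apply] at h2
    exact h2.symm
  obtain ⟨v, hv, hv0⟩ := (Submodule.ne_bot_iff _).1 hbot
  have hex : ∃ i, proj (W.isInternal Z) i v ≠ 0 := by
    by_contra hcon
    push Not at hcon
    apply hv0
    rw [hsum v]
    exact Finset.sum_eq_zero fun i _ => hcon i
  obtain ⟨i, hi⟩ := hex
  have hμ := key i v hv hi
  refine ⟨i, fun w hw => ?_, fun _ => hμ⟩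
  have h3 : ∀ j, j ≠ i → proj (W.isInternal Z) j w = 0 := by
    intro j hj
    by_contra hne
    have h4 := key j w hw hne
    rw [hμ] at h4
    apply hj
    have hq : (1 : ℝ) < (card Φ Z s : ℝ) := by exact_mod_cast card_gt_one Φ hp hs
    exact (pow_right_injective₀ (by linarith) hq.ne' h4).symm
  rw [hsum w]
  refine Submodule.sum_mem _ fun j _ => ?_
  by_cases hj : j = i
  · subst hj
    exact proj_mem _ _ _
  · rw [h3 j hj]
    exact Submodule.zero_mem _

lemma gen_tate_le (hp : 1 < p) (hRH : RiemannHyp Φ σ Z) {s : ℕ} (hs : 0 < s) (c : ℕ) :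
    (frob Φ Z s).maxGenEigenspace ((card Φ Z s : W.K) ^ c) ≤ W.gr Z (2 * c) := by
  obtain ⟨i, hi, hμ⟩ := gen_le_gr Φ hp hRH hs ((card Φ Z s : W.K) ^ c)
  by_cases hbot : (frob Φ Z s).maxGenEigenspace ((card Φ Z s : W.K) ^ c) = ⊥
  · rw [hbot]; exact bot_le
  · have h1 := hμ hbot
    rw [map_pow, map_natCast, norm_pow, Complex.norm_natCast, ← pow_mul] at h1
    have hq : (1 : ℝ) < (card Φ Z s : ℝ) := by exact_mod_cast card_gt_one Φ hp hs
    have h2 := pow_right_injective₀ (by linarith) hq.ne' h1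
    rw [show 2 * c = i by rw [← h2]; ring]
    exact hi

lemma genTate_eq (hp : 1 < p) (hRH : RiemannHyp Φ σ Z) {s : ℕ} (hs : 0 < s) (c : ℕ) :
    genTate Φ Z s c = (frob Φ Z s).maxGenEigenspace ((card Φ Z s : W.K) ^ c) := by
  rw [genTate]
  exact inf_eq_left.2 (gen_tate_le Φ hp hRH hs c)

lemma rop_pow {ψ : Module.End W.K (W.H Z)} (h : ROp W Z 0 ψ) (n : ℕ) : ROp W Z 0 (ψ ^ n) := by
  have h1 := rop_ev h (X ^ n)
  rwa [map_pow, ev_X] at h1

lemma kop_of_rop {ψ : Module.End W.K (W.H Z)} (h : ROp W Z 0 ψ) : ψ ∈ KOp W Z Z 0 :=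
  (rop_iff.1 h).kop

/-- **The projector onto the generalised Tate classes** is given by an algebraic correspondence
with rational coefficients. -/
theorem exists_rop_genT [IsAlgClosed W.K] (hp : 1 < p) (hRH : RiemannHyp Φ σ Z) (c : ℕ) :
    ∃ e : Module.End W.K (W.H Z), ROp W Z 0 e ∧ (∀ v ∈ genT Φ Z c, e v = v) ∧
      ∀ v, e v ∈ genT Φ Z c := by
  obtain ⟨t, ht, hgen⟩ := genT_spec Φ Z c
  have h1 := hgen t ht dvd_rfl
  rw [genTate_eq Φ hp hRH ht] at h1
  have hrop : ROp W Z 0 (frob Φ Z t) := rop_map (W := W) (W534.iter (Φ.Fr Z) t)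
  obtain ⟨G, hG0, hG⟩ := exists_rational_poly (frob Φ Z t) (par (W.isInternal Z))
    (by
      intro μ
      obtain ⟨i, hi, -⟩ := gen_le_gr Φ hp hRH ht μ
      rcases Nat.even_or_odd i with he | ho
      · left
        intro v hv
        rw [par, scal_apply _ _ (hi hv), he.neg_one_pow, one_smul]
      · right
        intro v hv
        rw [par, scal_apply _ _ (hi hv), ho.neg_one_pow, neg_one_smul])
    (fun n => rop_str _ (rop_pow hrop n))
  obtain ⟨w, hw1, hw2⟩ := exists_rational_proj (frob Φ Z t) hG0 hG ((card Φ Z t : ℚ) ^ c)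
  have hcast : (((card Φ Z t : ℚ) ^ c : ℚ) : W.K) = (card Φ Z t : W.K) ^ c := by push_cast; rfl
  rw [hcast, h1] at hw1 hw2
  exact ⟨_, rop_ev hrop w, hw1, hw2⟩

/-- **Rational traces on the generalised Tate classes.** -/
theorem trace_genT [IsAlgClosed W.K] (hp : 1 < p) (hRH : RiemannHyp Φ σ Z) (c : ℕ)
    {ψ : Module.End W.K (W.H Z)} (hψ : ROp W Z 0 ψ) (h : ∀ v ∈ genT Φ Z c, ψ v ∈ genT Φ Z c)
    (n : ℕ) : ∃ q : ℚ, LinearMap.trace W.K (genT Φ Z c) ((ψ.restrict h) ^ n) = (q : W.K) := by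
  obtain ⟨e, he, he1, he2⟩ := exists_rop_genT Φ hp hRH c
  have hpow : ∀ v ∈ genT Φ Z c, (ψ ^ n) v ∈ genT Φ Z c :=
    Module.End.pow_apply_mem_of_forall_mem n h
  obtain ⟨q, hq⟩ := rop_str _ (rop_mul0 (rop_pow hψ n) he)
  refine ⟨q, ?_⟩
  rw [← hq, Module.End.pow_restrict n h hpow]
  have hall : ∀ v, (par (W.isInternal Z) * (ψ ^ n * e)) v ∈ genT Φ Z c := by
    intro v
    rw [Module.End.mul_apply, Module.End.mul_apply]
    have h1 := hpow _ (he2 v)
    have h2 := (sysT Φ).gr Z c h1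
    rw [par, scal_apply _ _ h2, pow_mul]
    simpa using h1
  rw [← LinearMap.trace_restrict_eq_of_forall_mem (genT Φ Z c) _ hall]
  congr 1
  ext v
  change (ψ ^ n) (v : W.H Z) = (par (W.isInternal Z) * (ψ ^ n * e)) (v : W.H Z)
  rw [Module.End.mul_apply, Module.End.mul_apply, he1 _ v.2,
    par, scal_apply _ _ ((sysT Φ).gr Z c (hpow _ v.2)), pow_mul]
  simp

end Weights

end Pool.Agent.N181.Mod
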