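import Pool.Agent.N181.Mod.Lower

/-!
# Dual families from projectors onto algebraic classes
-/

set_option autoImplicit false

open CategoryTheory AlgebraicGeometry Polynomial

universe u v

namespace Pool.Agent.N181.Mod

open Pool.Agent.H914

section Lin

variable {K : Type*} [Field K] [CharZero K] [IsAlgClosed K] {V : Type*} [AddCommGroup V]
  [Module K V] [FiniteDimensional K V]

omit [CharZero K] [IsAlgClosed K] in
lemma kill_gen (a : Module.End K V) (μ : K) {v : V} (hv : v ∈ a.maxGenEigenspace μ) :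
    ((a - μ • 1) ^ Module.finrank K V) v = 0 := by
  rw [Module.End.maxGenEigenspace_eq_genEigenspace_finrank] at hv
  rw [Module.End.mem_genEigenspace_nat] at hv
  exact hv

omit [CharZero K] [IsAlgClosed K] [FiniteDimensional K V] in
lemma aeval_pow_lin (a : Module.End K V) (μ : K) (n : ℕ) :
    aeval a ((X - C μ) ^ n) = (a - μ • 1) ^ n := by
  rw [map_pow, map_sub, aeval_X, aeval_C, Algebra.algebraMap_eq_smul_one]

lemma idem_of_ring {R : Type*} [Ring R] {u w : R} (h : u = 1 - w) (h' : w * u = 0) :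
    u * u = u := by
  have h1 : u * u = (1 - w) * u := by rw [← h]
  rw [h1, sub_mul, one_mul, h', sub_zero]

lemma one_sub_ring {R : Type*} [Ring R] {u w : R} (h : u = 1 - w) : 1 - u = w := by
  rw [h, sub_sub_cancel]

lemma commute_aeval {R : Type*} [Ring R] {K : Type*} [Field K] [Algebra K R] (a : R) (f : K[X]) :
    Commute a (aeval a f) := by
  have h := (Commute.all X f).map (aeval a)
  rwa [aeval_X] at h

/-- **The splitting polynomial.** -/
theorem exists_split_poly (m : ℕ) (φ φ' : Module.End K V) :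
    ∃ w : K[X], (IsSplit m φ (aeval φ w) ∧
        (∀ α, ¬ m ∣ qdeg α → ∀ v ∈ φ.maxGenEigenspace α, aeval φ w v = 0) ∧
        ∀ v, v - aeval φ w v ∈ ⨆ (α : K) (_ : ¬ m ∣ qdeg α), φ.maxGenEigenspace α) ∧
      (IsSplit m φ' (aeval φ' w) ∧
        (∀ α, ¬ m ∣ qdeg α → ∀ v ∈ φ'.maxGenEigenspace α, aeval φ' w v = 0) ∧
        ∀ v, v - aeval φ' w v ∈ ⨆ (α : K) (_ : ¬ m ∣ qdeg α), φ'.maxGenEigenspace α) := by
  classical
  set S : Finset K := (finite_gen φ).toFinset ∪ (finite_gen φ').toFinset with hS
  set N := Module.finrank K V with hN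
  set q₁ : K[X] := ∏ α ∈ S.filter (fun α => m ∣ qdeg α), (X - C α) ^ N with hq₁
  set q₂ : K[X] := ∏ α ∈ S.filter (fun α => ¬ m ∣ qdeg α), (X - C α) ^ N with hq₂
  have hcop : IsCoprime q₁ q₂ := by
    refine IsCoprime.prod_left fun α hα => IsCoprime.prod_right fun β hβ => IsCoprime.pow ?_
    refine isCoprime_X_sub_C_of_isUnit_sub ?_
    rw [isUnit_iff_ne_zero, sub_ne_zero]
    rintro rfl
    exact (Finset.mem_filter.1 hβ).2 (Finset.mem_filter.1 hα).2
  obtain ⟨A, B, hAB⟩ := hcop
  have main : ∀ ψ : Module.End K V, (∀ α, ψ.maxGenEigenspace α ≠ ⊥ → α ∈ S) →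
      IsSplit m ψ (aeval ψ (B * q₂)) ∧
        (∀ α, ¬ m ∣ qdeg α → ∀ v ∈ ψ.maxGenEigenspace α, aeval ψ (B * q₂) v = 0) ∧
        ∀ v, v - aeval ψ (B * q₂) v ∈ ⨆ (α : K) (_ : ¬ m ∣ qdeg α), ψ.maxGenEigenspace α := by
    intro ψ hψ
    have k1 : ∀ α, m ∣ qdeg α → ∀ v ∈ ψ.maxGenEigenspace α, aeval ψ q₁ v = 0 := by
      intro α hα v hv
      by_cases hbot : ψ.maxGenEigenspace α = ⊥
      · rw [hbot] at hv
        rw [(Submodule.mem_bot _).1 hv, map_zero]
      · have hmem : α ∈ S.filter (fun α => m ∣ qdeg α) :=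
          Finset.mem_filter.2 ⟨hψ α hbot, hα⟩
        rw [hq₁, ← Finset.mul_prod_erase _ _ hmem, mul_comm, map_mul, Module.End.mul_apply,
          aeval_pow_lin, kill_gen ψ α hv, map_zero]
    have k2 : ∀ α, ¬ m ∣ qdeg α → ∀ v ∈ ψ.maxGenEigenspace α, aeval ψ q₂ v = 0 := by
      intro α hα v hv
      by_cases hbot : ψ.maxGenEigenspace α = ⊥
      · rw [hbot] at hv
        rw [(Submodule.mem_bot _).1 hv, map_zero]
      · have hmem : α ∈ S.filter (fun α => ¬ m ∣ qdeg α) :=
          Finset.mem_filter.2 ⟨hψ α hbot, hα⟩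
        rw [hq₂, ← Finset.mul_prod_erase _ _ hmem, mul_comm, map_mul, Module.End.mul_apply,
          aeval_pow_lin, kill_gen ψ α hv, map_zero]
    have htop : ∀ (p : V → Prop), (∀ α, ∀ v ∈ ψ.maxGenEigenspace α, p v) → p 0 →
        (∀ v w, p v → p w → p (v + w)) → ∀ v, p v := by
      intro p h1 h2 h3 v
      have hv : v ∈ ⨆ μ : K, ψ.maxGenEigenspace μ := by
        rw [Module.End.iSup_maxGenEigenspace_eq_top ψ]; trivial
      induction hv using Submodule.iSup_induction' with
      | mem μ v hv => exact h1 μ v hv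
      | zero => exact h2
      | add v w _ _ hv hw => exact h3 v w hv hw
    have k12 : aeval ψ q₁ * aeval ψ q₂ = 0 := by
      apply LinearMap.ext
      refine htop _ ?_ (by rw [map_zero, map_zero]) (fun v w hv hw => by
        rw [map_add, map_add, hv, hw])
      intro α v hv
      by_cases hα : m ∣ qdeg α
      · rw [← map_mul, mul_comm, map_mul, Module.End.mul_apply, k1 α hα v hv, map_zero,
          LinearMap.zero_apply]
      · rw [Module.End.mul_apply, k2 α hα v hv, map_zero, LinearMap.zero_apply]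
    have hone : aeval ψ (B * q₂) = 1 - aeval ψ (A * q₁) := by
      rw [eq_sub_iff_add_eq, ← map_add, add_comm, hAB, map_one]
    have hprod : aeval ψ (A * q₁) * aeval ψ (B * q₂) = 0 := by
      rw [← map_mul, show A * q₁ * (B * q₂) = (A * B) * (q₁ * q₂) by ring, map_mul,
        map_mul (aeval ψ) q₁, k12, mul_zero]
    have hv1 : ∀ v, v - aeval ψ (B * q₂) v = aeval ψ (A * q₁) v := by
      intro v
      rw [hone, LinearMap.sub_apply, Module.End.one_apply]
      abel
    have hcomm : ∀ f : K[X], Commute ψ (aeval ψ f) := commute_aeval ψ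
    have hgen : ∀ α, ∀ v ∈ ψ.maxGenEigenspace α, ∀ f : K[X],
        aeval ψ f v ∈ ψ.maxGenEigenspace α := fun α v hv f =>
      Module.End.mapsTo_maxGenEigenspace_of_comm (hcomm f) α hv
    refine ⟨⟨?_, ?_, ⟨q₁, ?_, ?_⟩, ⟨q₂, ?_, ?_⟩⟩, ?_, ?_⟩
    · exact idem_of_ring hone hprod
    · exact (hcomm _).eq
    · intro α hα
      rw [hq₁, eval_prod, Finset.prod_eq_zero_iff] at hα
      obtain ⟨β, hβ, h0⟩ := hα
      rw [eval_pow, eval_sub, eval_X, eval_C] at h0
      rw [sub_eq_zero.1 (eq_zero_of_pow_eq_zero h0)]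
      exact (Finset.mem_filter.1 hβ).2
    · rw [← map_mul, show q₁ * (B * q₂) = B * (q₁ * q₂) by ring, map_mul, map_mul (aeval ψ) q₁,
        k12, mul_zero]
    · intro α hα
      rw [hq₂, eval_prod, Finset.prod_eq_zero_iff] at hα
      obtain ⟨β, hβ, h0⟩ := hα
      rw [eval_pow, eval_sub, eval_X, eval_C] at h0
      rw [sub_eq_zero.1 (eq_zero_of_pow_eq_zero h0)]
      exact (Finset.mem_filter.1 hβ).2
    · refine (congrArg (fun f => aeval ψ q₂ * f) (one_sub_ring hone)).trans ?_
      rw [← map_mul, show q₂ * (A * q₁) = A * (q₁ * q₂) by ring, map_mul,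
        map_mul (aeval ψ) q₁, k12, mul_zero]
    · intro α hα v hv
      rw [map_mul, Module.End.mul_apply, k2 α hα v hv, map_zero]
    · intro v
      rw [hv1]
      revert v
      refine htop _ ?_ (by rw [map_zero]; exact Submodule.zero_mem _) (fun v w hv hw => by
        rw [map_add]; exact Submodule.add_mem _ hv hw)
      intro α v hv
      by_cases hα : m ∣ qdeg α
      · rw [map_mul, Module.End.mul_apply, k1 α hα v hv, map_zero]
        exact Submodule.zero_mem _
      · exact Submodule.mem_iSup_of_mem α (Submodule.mem_iSup_of_mem hα (hgen α v hv _))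
  refine ⟨B * q₂, main φ fun α hα => ?_, main φ' fun α hα => ?_⟩
  · exact Finset.mem_union_left _ ((finite_gen φ).mem_toFinset.2 hα)
  · exact Finset.mem_union_right _ ((finite_gen φ').mem_toFinset.2 hα)

end Lin

variable {k : Type u} [Field k] {𝒱 : VarClass k} {ops : CycleOps 𝒱}
  {W : WeilCohomology.{u, v} ops} {X Y Z Z' : 𝒱.Obj} {p : ℕ} {m : ℕ}

/-- The span of the classes of the algebraic cycles, in all degrees. -/
def algSp (W : WeilCohomology.{u, v} ops) (X : 𝒱.Obj) : Submodule W.K (W.H X) :=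
  ⨆ c : ℕ, spanCycles W X (c : ℕ)

lemma span_le_algSp (c : ℕ) : spanCycles W X (c : ℕ) ≤ algSp W X :=
  le_iSup (fun c : ℕ => spanCycles W X (c : ℕ)) c

lemma proj_algSp {x : W.H X} (hx : x ∈ algSp W X) (c : ℕ) :
    proj (W.isInternal X) (2 * c) x ∈ spanCycles W X (c : ℕ) := by
  induction hx using Submodule.iSup_induction' with
  | mem l x hx =>
    by_cases hl : l = c
    · subst hl
      exact proj_span _ _ hx
    · rw [proj_ne _ (H914.span_gr hx) (by omega)]
      exact Submodule.zero_mem _
  | zero => rw [map_zero]; exact Submodule.zero_mem _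
  | add x y _ _ hx hy => rw [map_add]; exact Submodule.add_mem _ hx hy

lemma proj_algSp_odd {x : W.H X} (hx : x ∈ algSp W X) (c : ℕ) :
    proj (W.isInternal X) (2 * c + 1) x = 0 := by
  induction hx using Submodule.iSup_induction' with
  | mem l x hx => exact proj_ne _ (H914.span_gr hx) (by omega)
  | zero => rw [map_zero]
  | add x y _ _ hx hy => rw [map_add, hx, hy, add_zero]

/-- **Projectors onto algebraic classes are given by finite families.** -/
theorem exists_dfam {P P' : Module.End W.K (W.H X)} (hP : P * P = P)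
    (hdeg : IsHom (W.gr X) 0 P) (hdeg' : IsHom (W.gr X) 0 P')
    (hadj : ∀ a b, W.tr X (P a * b) = W.tr X (a * P' b))
    (hr : ∀ v, P v ∈ algSp W X) (hr' : ∀ v, P' v ∈ algSp W X) :
    ∃ (κ : Type) (_ : Fintype κ) (_ : DecidableEq κ) (e b : κ → W.H X) (d : κ → ℕ),
      DFam W X e b d ∧ dproj W e b = P := by
  classical
  have hP' : ∀ v, P' (P' v) = P' v := by
    intro v
    rw [← sub_eq_zero]
    apply nondeg_right
    intro a
    rw [mul_sub, map_sub, ← hadj, ← hadj, ← hadj, ← Module.End.mul_apply, hP, sub_self]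
  have hgr : ∀ {i : ℕ} {v : W.H X}, v ∈ W.gr X i → P v ∈ W.gr X i := fun hv => by
    have := hdeg _ _ (by rwa [grZ_natCast])
    rwa [add_zero, grZ_natCast] at this
  have hgr' : ∀ {i : ℕ} {v : W.H X}, v ∈ W.gr X i → P' v ∈ W.gr X i := fun hv => by
    have := hdeg' _ _ (by rwa [grZ_natCast])
    rwa [add_zero, grZ_natCast] at this
  have hev : ∀ {i : ℕ} {v : W.H X}, v ∈ W.gr X (2 * i) → P v ∈ spanCycles W X (i : ℕ) :=
    fun {i v} hv => by
      rw [← proj_same (W.isInternal X) (hgr hv)]
      exact proj_algSp (hr v) i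
  have hev' : ∀ {i : ℕ} {v : W.H X}, v ∈ W.gr X (2 * i) → P' v ∈ spanCycles W X (i : ℕ) :=
    fun {i v} hv => by
      rw [← proj_same (W.isInternal X) (hgr' hv)]
      exact proj_algSp (hr' v) i
  have hodd : ∀ {i : ℕ} {v : W.H X}, v ∈ W.gr X (2 * i + 1) → P v = 0 :=
    fun {i v} hv => by
      rw [← proj_same (W.isInternal X) (hgr hv)]
      exact proj_algSp_odd (hr v) i
  -- the pieces
  set Q : ℕ → Submodule W.K (W.H X) := fun i => spanCycles W X (i : ℕ) ⊓ LinearMap.range P with hQ
  set Q' : ℕ → Submodule W.K (W.H X) := fun i => spanCycles W X (i : ℕ) ⊓ LinearMap.range P'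
    with hQ'
  have hfam : ∀ i : Fin (X.dim + 1), ∃ (e : Fin (Module.finrank W.K (Q i)) → Q i)
      (b : Fin (Module.finrank W.K (Q i)) → Q' (X.dim - i)),
      (∀ k l, W.tr X ((e k : W.H X) * (b l : W.H X)) = if k = l then 1 else 0) ∧
      ∀ x ∈ Q i, x ∈ Submodule.span W.K (Set.range fun k => (e k : W.H X)) := by
    intro i
    have hi := Nat.lt_succ_iff.1 i.2
    set B := Module.finBasis W.K (Q i) with hB
    have hlin : LinearIndependent W.K fun k => (((W.tr X ∘ₗ LinearMap.mulLeft W.K
        (B k : W.H X)) ∘ₗ (Q' (X.dim - i)).subtype : Module.Dual W.K (Q' (X.dim - i)))) := by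
      rw [Fintype.linearIndependent_iff]
      intro c hc
      have h1 : (∑ k, c k • B k : Q i) = 0 := by
        apply Subtype.ext
        rw [Submodule.coe_zero]
        set x : W.H X := ((∑ k, c k • B k : Q i) : W.H X) with hx
        have hxmem : x ∈ Q i := (∑ k, c k • B k : Q i).2
        have h2 : ∀ y ∈ Q' (X.dim - i), W.tr X (x * y) = 0 := by
          intro y hy
          have h3 := congrArg (fun f => f ⟨y, hy⟩) hc
          rw [hx]
          simp only [LinearMap.sum_apply, LinearMap.smul_apply, LinearMap.comp_apply,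
            Submodule.subtype_apply, LinearMap.mulLeft_apply, LinearMap.zero_apply] at h3
          rw [← h3]
          simp only [AddSubmonoidClass.coe_finsetSum, Submodule.coe_smul, Finset.sum_mul,
            smul_mul_assoc, map_sum, map_smul]
        obtain ⟨w, hw⟩ := hxmem.2
        have hPx : P x = x := by rw [← hw, ← Module.End.mul_apply, hP]
        apply W.nondeg
        intro y
        refine gr_induction (W.isInternal X) (p := fun y => W.tr X (x * y) = 0) ?_ ?_ y
        · intro j y hy
          by_cases hj : 2 * (i : ℕ) + j = 2 * X.dim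
          · rw [← hPx, hadj]
            apply h2
            refine ⟨?_, ⟨y, rfl⟩⟩
            apply hev'
            rwa [show 2 * (X.dim - (i : ℕ)) = j by omega]
          · exact W.tr_eq_zero (W.mul_mem (H914.span_gr hxmem.1) hy) hj
        · intro y y' hy hy'
          rw [mul_add, map_add, hy, hy', add_zero]
      exact Fintype.linearIndependent_iff.1 B.linearIndependent c h1
    obtain ⟨b, hb⟩ := exists_dual_vectors hlin
    refine ⟨fun k => B k, b, hb, fun x hx => ?_⟩
    have h3 := congrArg Subtype.val (B.sum_repr ⟨x, hx⟩)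
    simp only [AddSubmonoidClass.coe_finsetSum, Submodule.coe_smul] at h3
    have h4 : ∑ k, B.repr ⟨x, hx⟩ k • (B k : W.H X) ∈
        Submodule.span W.K (Set.range fun k => (B k : W.H X)) :=
      Submodule.sum_mem _ fun k _ => Submodule.smul_mem _ _ (Submodule.subset_span ⟨k, rfl⟩)
    rw [h3] at h4
    exact h4
  choose e b hb hspan using hfam
  have hD : DFam W X (κ := Σ i : Fin (X.dim + 1), Fin (Module.finrank W.K (Q i)))
      (fun k => (e k.1 k.2 : W.H X)) (fun k => (b k.1 k.2 : W.H X)) (fun k => k.1.1) := by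
    refine ⟨fun k => Nat.lt_succ_iff.1 k.1.2, fun k => (e k.1 k.2).2.1,
      fun k => (b k.1 k.2).2.1, ?_⟩
    rintro ⟨i, k⟩ ⟨j, l⟩
    by_cases hij : i = j
    · subst hij
      rw [hb i k l]
      by_cases hkl : k = l
      · subst hkl
        simp
      · rw [if_neg hkl, if_neg]
        intro h
        apply hkl
        simpa using h
    · rw [if_neg (fun h => hij (congrArg Sigma.fst h))]
      refine W.tr_eq_zero (W.mul_mem (H914.span_gr (e i k).2.1)
        (H914.span_gr (b j l).2.1)) ?_
      have h1 := Nat.lt_succ_iff.1 i.2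
      have h2 := Nat.lt_succ_iff.1 j.2
      intro h
      apply hij
      apply Fin.ext
      omega
  refine ⟨_, inferInstance, inferInstance, _, _, _, hD, ?_⟩
  apply LinearMap.ext
  intro x
  refine gr_induction (W.isInternal X) (p := fun x => dproj W
    (fun k : (Σ i : Fin (X.dim + 1), Fin (Module.finrank W.K (Q i))) => (e k.1 k.2 : W.H X))
    (fun k => (b k.1 k.2 : W.H X)) x = P x) ?_ ?_ x
  · intro j x hx
    rcases Nat.even_or_odd' j with ⟨i, rfl | rfl⟩
    · by_cases hi : i ≤ X.dim
      · -- `P x` is in the span of the family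
        have h1 : ∀ y ∈ Q i, dproj W
            (fun k : (Σ i : Fin (X.dim + 1), Fin (Module.finrank W.K (Q i))) =>
              (e k.1 k.2 : W.H X)) (fun k => (b k.1 k.2 : W.H X)) y = y := by
          intro y hy
          have h2 := hspan ⟨i, Nat.lt_succ_iff.2 hi⟩ y hy
          clear hy
          induction h2 using Submodule.span_induction with
          | mem y hy' =>
            obtain ⟨l, rfl⟩ := hy'
            exact hD.proj_e ⟨⟨i, Nat.lt_succ_iff.2 hi⟩, l⟩
          | zero => rw [map_zero]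
          | add y y' _ _ h h' => rw [map_add, h, h']
          | smul c y _ h => rw [map_smul, h]
        rw [← h1 (P x) ⟨hev hx, ⟨x, rfl⟩⟩, dproj_apply, dproj_apply]
        refine Finset.sum_congr rfl fun l _ => ?_
        obtain ⟨w, hw⟩ := (b l.1 l.2).2.2
        rw [hadj, ← hw, hP']
      · rw [W.gr_eq_bot X _ (by omega)] at hx
        rw [(Submodule.mem_bot _).1 hx, map_zero, map_zero]
    · rw [hodd hx, dproj_apply]
      refine Finset.sum_eq_zero fun l _ => ?_
      rw [W.tr_eq_zero (W.mul_mem hx (H914.span_gr (b l.1 l.2).2.1)) (by omega), zero_smul]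
  · intro x x' hx hx'
    rw [map_add, map_add, hx, hx']

end Pool.Agent.N181.Mod
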