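import Pool.Agent.N181.Mod.GeoB
import Pool.Agent.H914R2.ExtOp

/-!
# Blocks
-/

set_option autoImplicit false

open CategoryTheory AlgebraicGeometry Polynomial

universe u v

namespace Pool.Agent.N181.Mod

open Pool.Agent.H914

section Lin

variable {K : Type*} [Field K] [CharZero K] {V : Type*} [AddCommGroup V] [Module K V]
  [FiniteDimensional K V]

omit [CharZero K] in
lemma trace_restrict_idem {P : Module.End K V} (hP : P * P = P) {Q : Submodule K V}
    (h : ∀ v ∈ Q, P v ∈ Q) : LinearMap.trace K Q (P.restrict h) =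
      (Module.finrank K (Q ⊓ LinearMap.range P : Submodule K V) : K) := by
  rw [← finrank_range_restrict hP h, ← trace_idem]
  ext v
  exact congrArg (fun f => f (v : V)) hP

/-- The dimension of a subspace stable under three projectors with sum `1`. -/
lemma finrank_split3 {P G R : Module.End K V} (hP : P * P = P) (hG : G * G = G) (hR : R * R = R)
    (hsum : P + G + R = 1) {Q : Submodule K V} (h1 : ∀ v ∈ Q, P v ∈ Q) (h2 : ∀ v ∈ Q, G v ∈ Q)
    (h3 : ∀ v ∈ Q, R v ∈ Q) :
    Module.finrank K Q = Module.finrank K (Q ⊓ LinearMap.range P : Submodule K V) +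
      Module.finrank K (Q ⊓ LinearMap.range G : Submodule K V) +
      Module.finrank K (Q ⊓ LinearMap.range R : Submodule K V) := by
  have e1 : P.restrict h1 + G.restrict h2 + R.restrict h3 = 1 := by
    ext v
    exact congrArg (fun f => f (v : V)) hsum
  have e2 := congrArg (LinearMap.trace K Q) e1
  rw [map_add, map_add, trace_restrict_idem hP, trace_restrict_idem hG, trace_restrict_idem hR,
    LinearMap.trace_one] at e2
  exact_mod_cast e2.symm

/-- A system of matrix units. -/
def IsUnits {n : ℕ} (E : Fin n → Fin n → Module.End K V) : Prop :=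
  ∀ i j j' l, E i j * E j' l = if j = j' then E i l else 0

omit [CharZero K] [FiniteDimensional K V] in
lemma IsUnits.idem {n : ℕ} {E : Fin n → Fin n → Module.End K V} (h : IsUnits E) :
    (∑ i, E i i) * ∑ i, E i i = ∑ i, E i i := by
  rw [Finset.sum_mul]
  refine Finset.sum_congr rfl fun i _ => ?_
  rw [Finset.mul_sum, Finset.sum_eq_single i]
  · rw [h, if_pos rfl]
  · intro j _ hj
    rw [h, if_neg hj.symm]
  · intro h'; exact absurd (Finset.mem_univ _) h'

/-- The dimension of a subspace stable under matrix units is divisible by their size. -/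
lemma IsUnits.dvd {n : ℕ} {E : Fin n → Fin n → Module.End K V} (h : IsUnits E)
    {Q : Submodule K V} (hQ : ∀ i j, ∀ v ∈ Q, E i j v ∈ Q) :
    n ∣ Module.finrank K (Q ⊓ LinearMap.range (∑ i, E i i) : Submodule K V) := by
  have hsum : ∀ v ∈ Q, (∑ i, E i i) v ∈ Q := by
    intro v hv
    rw [LinearMap.sum_apply]
    exact Submodule.sum_mem _ fun i _ => hQ i i v hv
  rcases Nat.eq_zero_or_pos n with rfl | hn
  · have h0 : (∑ i, E i i) = 0 := by simp
    rw [h0, LinearMap.range_zero, inf_bot_eq, finrank_bot]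
  · set o : Fin n := ⟨0, hn⟩ with ho
    have h1 := trace_restrict_idem h.idem hsum
    have h2 : (∑ i, E i i).restrict hsum = ∑ i, (E i i).restrict (hQ i i) := by
      ext v
      rw [LinearMap.sum_apply, Submodule.coe_sum]
      change (∑ i, E i i) (v : V) = _
      rw [LinearMap.sum_apply]
      rfl
    have h3 : ∀ i, LinearMap.trace K Q ((E i i).restrict (hQ i i)) =
        LinearMap.trace K Q ((E o o).restrict (hQ o o)) := by
      intro i
      have e1 : (E i i).restrict (hQ i i) = (E i o).restrict (hQ i o) *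
          (E o i).restrict (hQ o i) := by
        ext v
        have := congrArg (fun f => f (v : V)) (h i o o i)
        rw [if_pos rfl] at this
        exact this.symm
      have e2 : (E o o).restrict (hQ o o) = (E o i).restrict (hQ o i) *
          (E i o).restrict (hQ i o) := by
        ext v
        have := congrArg (fun f => f (v : V)) (h o i i o)
        rw [if_pos rfl] at this
        exact this.symm
      rw [e1, e2, LinearMap.trace_mul_comm]
    have h4 : E o o * E o o = E o o := by rw [h, if_pos rfl]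
    rw [h2, map_sum, Finset.sum_congr rfl fun i _ => h3 i, Finset.sum_const, Finset.card_univ,
      Fintype.card_fin, trace_restrict_idem h4, nsmul_eq_mul] at h1
    refine ⟨Module.finrank K (Q ⊓ LinearMap.range (E o o) : Submodule K V), ?_⟩
    exact_mod_cast h1.symm

end Lin

open Pool.Agent.H914.VarClass Pool.Agent.H914.VarClass.Obj
  Pool.Agent.H914.WeilCohomology Pool.Agent.H281R3.HT Pool.Agent.W534 Pool.Agent.TH132.P

variable {k : Type u} [Field k] {𝒱 : VarClass k} {ops : CycleOps 𝒱}
  {W : WeilCohomology.{u, v} ops} {X Y Z Z' : 𝒱.Obj} {p : ℕ} {m : ℕ}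

lemma rop_one (X : 𝒱.Obj) : ROp W X 0 (1 : Module.End W.K (W.H X)) := rop_opAlg.one

/-- External products with the identity. -/
lemma rop_ext {φ : Module.End W.K (W.H X)} (hφ : ROp W X 0 φ) :
    ROp W (X.prod Y) 0 (extOp W φ (1 : Module.End W.K (W.H Y))) := by
  obtain ⟨z, hz, rfl⟩ := cyc_of_rop hφ
  obtain ⟨w, hw, hw1⟩ := cyc_of_rop (rop_one (W := W) Y)
  have hcyc := ops.mul_mem (ops.pull_mem (q1 X Y) hz) (ops.pull_mem (q2 X Y) hw)
  have e1 : extOp W (W.corr (W.cl _ z)) (1 : Module.End W.K (W.H Y)) =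
      W.corr (W.cl _ (ops.mul (ops.pull (q1 X Y) z) (ops.pull (q2 X Y) w))) := by
    rw [← hw1]
    apply ext_kunneth_lin
    intro a b
    rw [extOp_tmul, W.cl_mul, W.cl_pull, W.cl_pull, corr_ext _ (W.cl_mem hw)]
  rw [e1]
  exact rop_of_cyc (by rwa [dim_prod])

lemma kop_ext {φ : Module.End W.K (W.H X)} (hφ : φ ∈ KOp W X X 0) :
    extOp W φ (1 : Module.End W.K (W.H Y)) ∈ KOp W (X.prod Y) (X.prod Y) 0 :=
  KOp.cast (KOp.ext hφ (KOp.id Y)) (add_zero 0)

lemma extOp_aeval (φ : Module.End W.K (W.H X)) (q : W.K[X]) :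
    aeval (extOp W φ (1 : Module.End W.K (W.H Y))) q = extOp W (aeval φ q) 1 := by
  have h1 : ∀ n : ℕ, (extOp W φ (1 : Module.End W.K (W.H Y))) ^ n = extOp W (φ ^ n) 1 := by
    intro n
    induction n with
    | zero => rw [pow_zero, pow_zero, extOp_one]
    | succ n ih => rw [pow_succ, ih, extOp_mul, pow_succ, mul_one]
  induction q using Polynomial.induction_on' with
  | add p q hp hq => rw [map_add, hp, hq, map_add, extOp_add_left]
  | monomial n c =>
    rw [aeval_monomial, aeval_monomial, h1, Algebra.algebraMap_eq_smul_one,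
      Algebra.algebraMap_eq_smul_one, smul_mul_assoc, one_mul, smul_mul_assoc, one_mul,
      extOp_smul_left]

lemma IsSplit.ext {φ R : Module.End W.K (W.H X)} (h : IsSplit m φ R) :
    IsSplit m (extOp W φ (1 : Module.End W.K (W.H Y))) (extOp W R 1) := by
  obtain ⟨h1, h2, ⟨q, hq, hq'⟩, ⟨q₂, hq₂, hq₂'⟩⟩ := h
  have hsub : (1 : Module.End W.K (W.H (X.prod Y))) - extOp W R 1 = extOp W (1 - R) 1 := by
    have e : extOp W (1 - R) (1 : Module.End W.K (W.H Y)) + extOp W R 1 = 1 := by
      rw [← extOp_add_left, sub_add_cancel, extOp_one]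
    rw [← e, add_sub_cancel_right]
  refine ⟨?_, ?_, ⟨q, hq, ?_⟩, ⟨q₂, hq₂, ?_⟩⟩
  · rw [extOp_mul, h1, mul_one]
  · rw [extOp_mul, extOp_mul, h2]
  · rw [extOp_aeval, extOp_mul, hq', extOp_zero_left]
  · rw [extOp_aeval, hsub, extOp_mul, hq₂', extOp_zero_left]

/-- A finite family of algebraic classes with a dual family. -/
structure DFam (W : WeilCohomology.{u, v} ops) (X : 𝒱.Obj) {κ : Type} [Fintype κ]
    [DecidableEq κ] (e b : κ → W.H X) (d : κ → ℕ) : Prop where
  hd : ∀ k, d k ≤ X.dim
  he : ∀ k, e k ∈ spanCycles W X (d k : ℕ)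
  hb : ∀ k, b k ∈ spanCycles W X (X.dim - d k : ℕ)
  dual : ∀ k l, W.tr X (e k * b l) = if k = l then 1 else 0

section DFam

variable {κ : Type} [Fintype κ] [DecidableEq κ] {e b : κ → W.H X} {d : κ → ℕ}

/-- The projector of the family. -/
noncomputable def dproj (W : WeilCohomology.{u, v} ops) {X : 𝒱.Obj} {κ : Type} [Fintype κ]
    (e b : κ → W.H X) : Module.End W.K (W.H X) :=
  ∑ k, (W.tr X ∘ₗ LinearMap.mulRight W.K (b k)).smulRight (e k)

omit [DecidableEq κ] in
lemma dproj_apply (x : W.H X) : dproj W e b x = ∑ k, W.tr X (x * b k) • e k := by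
  rw [dproj, LinearMap.sum_apply]
  rfl

lemma cf_ext' {i : ℕ} {b : W.H X} (hb : b ∈ spanCycles W X (i : ℕ)) (x : W.H X) (y : W.H Y) :
    cf W b (ext W x y) = W.tr X (x * b) • y := cf_ext (H914.span_gr hb) x y

variable (h : DFam W X e b d)

include h

lemma DFam.cf_sum (v : κ → W.H Y) (l : κ) : cf W (b l) (∑ k, ext W (e k) (v k)) = v l := by
  rw [map_sum, Finset.sum_eq_single l]
  · rw [cf_ext' (h.hb l), h.dual, if_pos rfl, one_smul]
  · intro k _ hkl
    rw [cf_ext' (h.hb l), h.dual, if_neg hkl, zero_smul]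
  · intro h0
    exact absurd (Finset.mem_univ _) h0

lemma DFam.proj_e (l : κ) : dproj W e b (e l) = e l := by
  rw [dproj_apply, Finset.sum_eq_single l]
  · rw [h.dual, if_pos rfl, one_smul]
  · intro k _ hkl
    rw [h.dual, if_neg (Ne.symm hkl), zero_smul]
  · intro h0
    exact absurd (Finset.mem_univ _) h0

lemma DFam.idem : dproj W e b * dproj W e b = dproj W e b := by
  apply LinearMap.ext
  intro x
  rw [Module.End.mul_apply]
  conv_lhs => rw [dproj_apply x]
  rw [map_sum, dproj_apply x]
  refine Finset.sum_congr rfl fun k _ => ?_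
  rw [map_smul, h.proj_e]

/-- The projector on the product. -/
lemma DFam.extOp_eq : extOp W (dproj W e b) (1 : Module.End W.K (W.H Y)) =
    ∑ k, (LinearMap.mulLeft W.K (W.map (fst X Y) (e k)) ∘ₗ (W.map (snd X Y)).toLinearMap) ∘ₗ
      cf W (b k) := by
  apply ext_kunneth_lin
  intro x y
  rw [extOp_tmul, LinearMap.sum_apply, dproj_apply, map_sum, Finset.sum_mul]
  refine Finset.sum_congr rfl fun k _ => ?_
  have h1 := cf_ext' (h.hb k) x y
  change _ = W.map (fst X Y) (e k) * W.map (snd X Y) (cf W (b k) (ext W x y))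
  rw [h1, map_smul, map_smul, smul_mul_assoc, mul_smul_comm]
  rfl

lemma DFam.extOp_apply (z : W.H (X.prod Y)) :
    extOp W (dproj W e b) (1 : Module.End W.K (W.H Y)) z = ∑ k, ext W (e k) (cf W (b k) z) := by
  rw [h.extOp_eq, LinearMap.sum_apply]
  rfl

/-- The dimension of the part of the product given by the family. -/
theorem DFam.finrank_prod (𝒮 : Sys W) (c : ℕ) :
    Module.finrank W.K (𝒮.S (X.prod Y) c ⊓ LinearMap.range
      (extOp W (dproj W e b) (1 : Module.End W.K (W.H Y))) : Submodule W.K (W.H (X.prod Y))) =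
      ∑ k, Module.finrank W.K (comp (𝒮.S Y) c (d k)) := by
  have hinj : Function.Injective (psi e d (𝒮.S Y) c : _ →ₗ[W.K] W.H (X.prod Y)) := by
    intro v w hvw
    funext l
    apply Subtype.ext
    rw [← h.cf_sum (fun k => (v k : W.H Y)) l, ← h.cf_sum (fun k => (w k : W.H Y)) l]
    exact congrArg _ hvw
  have hrange : 𝒮.S (X.prod Y) c ⊓ LinearMap.range
      (extOp W (dproj W e b) (1 : Module.End W.K (W.H Y))) =
      LinearMap.range (psi e d (𝒮.S Y) c : _ →ₗ[W.K] W.H (X.prod Y)) := by
    ext z
    constructor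
    · rintro ⟨hz, w, hw⟩
      have hid : extOp W (dproj W e b) (1 : Module.End W.K (W.H Y)) z = z := by
        rw [← hw, ← Module.End.mul_apply, extOp_mul, h.idem, mul_one]
      rw [h.extOp_apply] at hid
      change z ∈ combs e d (𝒮.S Y) c
      refine mem_combs.2 ⟨fun k => cf W (b k) z, fun k => ?_, hid.symm⟩
      have hdk := h.hd k
      by_cases hk : d k ≤ c
      · rw [TH132.P.comp, if_pos hk]
        change W.push (snd X Y) (z * W.map (fst X Y) (b k)) ∈ _
        refine 𝒮.push (snd X Y) (𝒮.mul_right ((sysA W).map (fst X Y) (h.hb k)) hz) ?_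
        rw [dim_prod]
        omega
      · rw [TH132.P.comp, if_neg hk, Submodule.mem_bot]
        exact (cf_mem (H914.span_gr (h.hb k)) (𝒮.gr _ _ hz)).2 (by omega)
    · intro hz
      obtain ⟨v, hv, rfl⟩ := mem_combs.1 (show z ∈ combs e d (𝒮.S Y) c from hz)
      constructor
      · refine Submodule.sum_mem _ fun k _ => ?_
        have h1 := hv k
        by_cases hk : d k ≤ c
        · rw [TH132.P.comp, if_pos hk] at h1
          have h2 := 𝒮.mul ((sysA W).map (fst X Y) (h.he k)) (𝒮.map (snd X Y) h1)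
          rwa [show d k + (c - d k) = c by omega] at h2
        · rw [TH132.P.comp, if_neg hk] at h1
          rw [(Submodule.mem_bot _).1 h1, ext_zero_right]
          exact Submodule.zero_mem _
      · refine ⟨∑ k, ext W (e k) (v k), ?_⟩
        rw [h.extOp_apply]
        exact Finset.sum_congr rfl fun k _ => by rw [h.cf_sum]
  rw [hrange, LinearMap.finrank_range_of_inj hinj, Module.finrank_pi_fintype]

lemma DFam.e_indep : LinearIndependent W.K e := by
  rw [Fintype.linearIndependent_iff]
  intro c hc l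
  have h1 := congrArg (fun x => W.tr X (x * b l)) hc
  simp only [Finset.sum_mul, smul_mul_assoc, map_sum, map_smul, h.dual, zero_mul, map_zero,
    smul_eq_mul] at h1
  simpa using h1

/-- The algebraic classes in the part of the family. -/
theorem DFam.finrank_alg (c : ℕ) :
    Module.finrank W.K (spanCycles W X (c : ℕ) ⊓ LinearMap.range (dproj W e b) :
      Submodule W.K (W.H X)) = (Finset.univ.filter fun k => d k = c).card := by
  have h1 : spanCycles W X (c : ℕ) ⊓ LinearMap.range (dproj W e b) =
      Submodule.span W.K (Set.range fun k : {k // d k = c} => e k) := by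
    apply le_antisymm
    · rintro x ⟨hx, w, hw⟩
      have hid : dproj W e b x = x := by rw [← hw, ← Module.End.mul_apply, h.idem]
      rw [← hid, dproj_apply]
      refine Submodule.sum_mem _ fun k _ => ?_
      by_cases hk : d k = c
      · exact Submodule.smul_mem _ _ (Submodule.subset_span ⟨⟨k, hk⟩, rfl⟩)
      · have hdk := h.hd k
        rw [W.tr_eq_zero (W.mul_mem (H914.span_gr hx) (H914.span_gr (h.hb k))) (by omega),
          zero_smul]
        exact Submodule.zero_mem _
    · rw [Submodule.span_le]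
      rintro _ ⟨⟨k, hk⟩, rfl⟩
      refine ⟨?_, ⟨e k, h.proj_e k⟩⟩
      have := h.he k
      rwa [hk] at this
  have h2 : LinearIndependent W.K (fun k : {k // d k = c} => e k) :=
    h.e_indep.comp _ Subtype.val_injective
  rw [h1, finrank_span_eq_card h2, Fintype.card_subtype]

theorem DFam.nul_inf (c : ℕ) : nul W X c ⊓ LinearMap.range (dproj W e b) = ⊥ := by
  rw [eq_bot_iff]
  rintro x ⟨hx, w, hw⟩
  have hid : dproj W e b x = x := by rw [← hw, ← Module.End.mul_apply, h.idem]
  rw [Submodule.mem_bot, ← hid, dproj_apply]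
  refine Finset.sum_eq_zero fun k _ => ?_
  obtain ⟨hx1, hx2⟩ := mem_nul.1 hx
  have hdk := h.hd k
  by_cases hk : d k = c
  · rw [hx2 _ (by rw [← hk]; exact h.hb k), zero_smul]
  · rw [W.tr_eq_zero (W.mul_mem (H914.span_gr hx1) (H914.span_gr (h.hb k))) (by omega), zero_smul]

end DFam

end Pool.Agent.N181.Mod
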