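import Pool.Agent.N181.Mod.Split

/-!
# The part of degree divisible by `m`
-/

set_option autoImplicit false

open CategoryTheory AlgebraicGeometry Polynomial

universe u v

namespace Pool.Agent.N181.Mod

open Pool.Agent.H914 Pool.Agent.H914.VarClass Pool.Agent.H914.VarClass.Obj
  Pool.Agent.H914.WeilCohomology Pool.Agent.H281R3.HT Pool.Agent.W534 Pool.Agent.TH132.P

variable {k : Type u} [Field k] {𝒱 : VarClass k} {ops : CycleOps 𝒱}
  {W : WeilCohomology.{u, v} ops} {X Y Z Z' : 𝒱.Obj} {p : ℕ} {m : ℕ}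

lemma rop_cl {ψ : Module.End W.K (W.H Z)} (h : ROp W Z 0 ψ) {c : ℕ} {x : W.H Z}
    (hx : x ∈ algClasses W Z c) : ψ x ∈ algClasses W Z c := by
  obtain ⟨u, hu, rfl⟩ := cyc_of_rop h
  obtain ⟨z, hz, rfl⟩ := hx
  rw [corr_apply]
  exact alg_push (snd Z Z) (alg_mul ⟨u, hu, rfl⟩ (alg_map (fst Z Z) ⟨z, hz, rfl⟩)) (by
    rw [dim_prod]; omega)

/-- **The part of degree divisible by `m`** of the generalised Tate classes. -/
theorem dvd_genT (Φ : FrobSystem W p) {σ : W.K →+* ℂ} [IsAlgClosed W.K] (hp : 1 < p)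
    (hRH : RiemannHyp Φ σ Z) (c : ℕ) {ψ R : Module.End W.K (W.H Z)} (hψ : ROp W Z 0 ψ)
    (hR : R ∈ KOp W Z Z 0) (h : IsSplit m ψ R) :
    m ∣ Module.finrank W.K (genT Φ Z c ⊓ LinearMap.range R : Submodule W.K (W.H Z)) := by
  have hψT : ∀ v ∈ genT Φ Z c, ψ v ∈ genT Φ Z c := fun v hv =>
    (sysT Φ).kop (kop_of_rop hψ) hv
  have hRT : ∀ v ∈ genT Φ Z c, R v ∈ genT Φ Z c := fun v hv => (sysT Φ).kop hR hv
  rw [← finrank_range_restrict h.1 hRT]
  exact (h.restrict hψT hRT).dvd (trace_genT Φ hp hRH c hψ hψT)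

/-- **The part of degree divisible by `m`** of the algebraic classes modulo numerical
equivalence. -/
theorem dvd_alg [IsAlgClosed W.K] {c : ℕ} (hc : c ≤ Z.dim) {ψ R : Module.End W.K (W.H Z)}
    (hψ : ROp W Z 0 ψ) (hR : R ∈ KOp W Z Z 0) (h : IsSplit m ψ R) :
    ∃ r : ℕ, m ∣ r ∧
      Module.finrank W.K (spanCycles W Z (c : ℕ) ⊓ LinearMap.range R : Submodule W.K (W.H Z)) =
        Module.finrank W.K (nul W Z c ⊓ LinearMap.range R : Submodule W.K (W.H Z)) + r := by
  set A : Submodule W.K (W.H Z) := spanCycles W Z (c : ℕ) with hA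
  have hψA : ∀ v ∈ A, ψ v ∈ A := fun v hv => (sysA W).kop (kop_of_rop hψ) hv
  have hRA : ∀ v ∈ A, R v ∈ A := fun v hv => (sysA W).kop hR hv
  set N : Submodule W.K A := (nul W Z c).comap A.subtype with hN
  have hψN : N ≤ N.comap (ψ.restrict hψA) := fun v hv => (sysN W).kop (kop_of_rop hψ) hv
  have hRN : N ≤ N.comap (R.restrict hRA) := fun v hv => (sysN W).kop hR hv
  have hsplit := (h.restrict hψA hRA).quot hψN hRN
  -- the rational structure
  set L : Set A := {x | (x : W.H Z) ∈ algClasses W Z c} with hL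
  have hspan : Submodule.span W.K L = ⊤ := by
    rw [eq_top_iff]
    rintro ⟨x, hx⟩ -
    have h0 : A.subtype '' L = algClasses W Z c := by
      ext y
      constructor
      · rintro ⟨y, hy, rfl⟩
        exact hy
      · intro hy
        exact ⟨⟨y, alg_mem_span hy⟩, hy, rfl⟩
    have h1 : (Submodule.span W.K L).map A.subtype = A :=
      (Submodule.map_span _ _).trans (by rw [h0]; exact (spanCycles_eq _).symm)
    have h2 : x ∈ (Submodule.span W.K L).map A.subtype := by rw [h1]; exact hx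
    obtain ⟨y, hy, rfl⟩ := h2
    exact hy
  have hN' : ∀ x : A, x ∈ N ↔ ∀ w : {w : Z.Cycles // Z.IsCyc (Z.dim - c) w},
      (W.tr Z ∘ₗ LinearMap.mulRight W.K (W.cl Z w.1) ∘ₗ A.subtype) x = 0 := by
    intro x
    constructor
    · intro hx w
      exact (mem_nul.1 hx).2 _ (alg_mem_span ⟨w.1, w.2, rfl⟩)
    · intro hx
      refine mem_nul.2 ⟨x.2, fun y hy => ?_⟩
      refine spanCycles_ind (p := fun y => W.tr Z ((x : W.H Z) * y) = 0) ?_ ?_ ?_ ?_ hy
      · rintro _ ⟨w, hw, rfl⟩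
        exact hx ⟨w, hw⟩
      · rw [mul_zero, map_zero]
      · intro a b ha hb
        rw [mul_add, map_add, ha, hb, add_zero]
      · intro r a ha
        rw [mul_smul_comm, map_smul, ha, smul_zero]
  have htr : ∀ n : ℕ, ∃ q : ℚ, LinearMap.trace W.K (A ⧸ N)
      ((N.mapQ N (ψ.restrict hψA) hψN) ^ n) = (q : W.K) := by
    intro n
    have hn1 : ∀ v ∈ A, (ψ ^ n) v ∈ A := Module.End.pow_apply_mem_of_forall_mem n hψA
    have hNn : N ≤ N.comap ((ψ ^ n).restrict hn1) := fun v hv =>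
      (sysN W).kop (kop_of_rop (rop_pow hψ n)) hv
    obtain ⟨q, hq⟩ := trace_quot_rational L hspan
      (fun w : {w : Z.Cycles // Z.IsCyc (Z.dim - c) w} =>
        W.tr Z ∘ₗ LinearMap.mulRight W.K (W.cl Z w.1) ∘ₗ A.subtype) (by
        rintro ⟨w, hw⟩ ⟨x, hx⟩ ⟨z, hz, rfl⟩
        exact ⟨_, tr_mul_cl' hz hw (by omega)⟩) N hN' ((ψ ^ n).restrict hn1) (by
        rintro ⟨x, hx⟩ hx'
        exact rop_cl (rop_pow hψ n) hx') hNn
    refine ⟨q, ?_⟩
    rw [← hq]
    congr 1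
    apply Submodule.linearMap_qext
    ext v
    have h1 : ∀ (n : ℕ) (hn1 : ∀ v ∈ A, (ψ ^ n) v ∈ A), ((N.mapQ N (ψ.restrict hψA) hψN) ^ n)
        (N.mkQ v) = N.mkQ ((ψ ^ n).restrict hn1 v) := by
      intro n
      induction n with
      | zero => intro _; rfl
      | succ n ih =>
        intro hn1
        rw [pow_succ', Module.End.mul_apply,
          ih (Module.End.pow_apply_mem_of_forall_mem n hψA)]
        change N.mkQ _ = N.mkQ _
        congr 1
        apply Subtype.ext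
        change ψ ((ψ ^ n) (v : W.H Z)) = (ψ ^ (n + 1)) (v : W.H Z)
        rw [pow_succ', Module.End.mul_apply]
    exact h1 n hn1
  refine ⟨_, hsplit.dvd htr, ?_⟩
  have h1 := finrank_range_mapQ (h.restrict hψA hRA).1 hRN
  rw [finrank_range_restrict h.1 hRA] at h1
  rw [← h1, add_comm]
  congr 1
  have h2 : (N ⊓ LinearMap.range (R.restrict hRA)).map A.subtype =
      nul W Z c ⊓ LinearMap.range R := by
    ext v
    constructor
    · rintro ⟨w, ⟨hw1, u, rfl⟩, rfl⟩
      exact ⟨hw1, ⟨(u : W.H Z), rfl⟩⟩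
    · rintro ⟨hv, w, rfl⟩
      have hv' : R w ∈ A := (mem_nul.1 hv).1
      refine ⟨⟨R w, hv'⟩, ⟨hv, ⟨⟨R w, hv'⟩, ?_⟩⟩, rfl⟩
      apply Subtype.ext
      change R (R w) = R w
      rw [← Module.End.mul_apply, h.1]
  rw [← h2]
  exact LinearEquiv.finrank_eq (Submodule.equivMapOfInjective _
    (Submodule.subtype_injective _) _)

end Pool.Agent.N181.Mod
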