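import Pool.Agent.TH132.P.Defs

/-!
# The formulas of Tate and of Kunneth modulo `m` for the ranks and the defects: definitions
-/

set_option autoImplicit false

open CategoryTheory AlgebraicGeometry

universe u v

namespace Pool.Agent.N181.Mod

open Pool.Agent.H914 Pool.Agent.H914.VarClass Pool.Agent.H914.VarClass.Obj
  Pool.Agent.H914.WeilCohomology Pool.Agent.W534 Pool.Agent.H281R3.HT Pool.Agent.TH132.P

variable {k : Type u} [Field k] {𝒱 : VarClass k} {ops : CycleOps 𝒱}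
  {W : WeilCohomology.{u, v} ops} {p : ℕ}

/-- For **all** varieties `Y`, with the defects `δ j` in codimension `j`, the product `X × Y` has
defects `δ' c`, where for all `c ≤ dim (X × Y)`, with the sums over all `i + j = c`:

* `ρ_c(X × Y) ≡ ∑ ρ_i(X) ρ_j(Y)` modulo `m`, for the ranks of the groups of cycles modulo numerical
  equivalence;
* `∑ ρ_i(X) δ_j(Y) ≤ δ_c(X × Y)`;
* `δ_c(X × Y) ≡ ∑ ρ_i(X) δ_j(Y)` modulo `m`. -/
def KunnethMod (Φ : FrobSystem W p) (σ : W.K →+* ℂ) (m : ℕ) (X : 𝒱.Obj) : Prop :=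
  ∀ Y : 𝒱.Obj, ∃ δ δ' : ℕ → ℕ, (∀ j ≤ Y.dim, PoleDefect Φ σ Y j (δ j)) ∧
    ∀ c ≤ (X.prod Y).dim, PoleDefect Φ σ (X.prod Y) c (δ' c) ∧
      numRank ops (X.prod Y) c ≡ conv X.dim Y.dim (numRank ops X) (numRank ops Y) c [MOD m] ∧
      conv X.dim Y.dim (numRank ops X) δ c ≤ δ' c ∧
      δ' c ≡ conv X.dim Y.dim (numRank ops X) δ c [MOD m]

/-- The formula of Tate holds for `X` modulo `m` in all codimensions `c ≤ dim X`: over all
sufficiently large finite fields, the order of the pole of the zeta function of `X` at `s = c` is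
`ρ_c(X) + δ`, where `ρ_c(X)` is the rank of the group of the cycles of codimension `c` modulo
numerical equivalence, and `δ ≥ 0` is divisible by `m`. -/
def TateMod (Φ : FrobSystem W p) (σ : W.K →+* ℂ) (m : ℕ) (X : 𝒱.Obj) : Prop :=
  ∀ c ≤ X.dim, ∃ δ, m ∣ δ ∧ PoleDefect Φ σ X c δ

/-- The products of the members of a class of varieties. -/
inductive ProdOf (P : 𝒱.Obj → Prop) : 𝒱.Obj → Prop
  | base {X : 𝒱.Obj} : P X → ProdOf P X
  | prod {X Y : 𝒱.Obj} : ProdOf P X → ProdOf P Y → ProdOf P (X.prod Y)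

end Pool.Agent.N181.Mod
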