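import Mathlib

/-!
# Characteristic polynomials with rational coefficients: multiplicities
-/

set_option autoImplicit false

open Polynomial

namespace Pool.Agent.N181.Mod

section Newton

variable {K : Type*} [Field K] [CharZero K]

/-- The elementary symmetric functions are rational if the power sums are. -/
lemma esymm_rational {n : ℕ} (r : Fin n → K) (h : ∀ k : ℕ, ∃ q : ℚ, ∑ i, r i ^ k = q) (k : ℕ) :
    ∃ q : ℚ, MvPolynomial.aeval r (MvPolynomial.esymm (Fin n) ℚ k) = (q : K) := by
  induction k using Nat.strong_induction_on with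
  | _ k ih =>
    rcases Nat.eq_zero_or_pos k with rfl | hk
    · exact ⟨1, by simp⟩
    · have h1 := congrArg (MvPolynomial.aeval r) (MvPolynomial.mul_esymm_eq_sum (Fin n) ℚ k)
      simp only [map_mul, map_natCast, map_pow, map_neg, map_one, map_sum] at h1
      have h2 : ∀ a ∈ (Finset.HasAntidiagonal.antidiagonal k).filter (fun a => a.1 < k), ∃ q : ℚ,
          (-1 : K) ^ a.1 * MvPolynomial.aeval r (MvPolynomial.esymm (Fin n) ℚ a.1) *
            MvPolynomial.aeval r (MvPolynomial.psum (Fin n) ℚ a.2) = (q : K) := by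
        intro a ha
        rw [Finset.mem_filter] at ha
        obtain ⟨q, hq⟩ := ih a.1 ha.2
        obtain ⟨q', hq'⟩ := h a.2
        refine ⟨(-1) ^ a.1 * q * q', ?_⟩
        rw [hq, MvPolynomial.psum, map_sum]
        simp only [map_pow, MvPolynomial.aeval_X]
        rw [hq']
        push_cast
        ring
      choose! q hq using h2
      rw [Finset.sum_congr rfl hq] at h1
      refine ⟨(k : ℚ)⁻¹ * ((-1) ^ (k + 1) * ∑ a ∈ (Finset.HasAntidiagonal.antidiagonal k).filter
        (fun a => a.1 < k), q a), ?_⟩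
      have hk' : (k : K) ≠ 0 := Nat.cast_ne_zero.2 hk.ne'
      rw [← mul_right_inj' hk', h1]
      push_cast
      rw [mul_inv_cancel_left₀ hk']

/-- A monic polynomial is rational if the power sums of the roots are. -/
lemma prod_rational (s : Multiset K) (h : ∀ k : ℕ, ∃ q : ℚ, (s.map (· ^ k)).sum = (q : K)) :
    ∃ χ : ℚ[X], χ.map (algebraMap ℚ K) = (s.map fun t => X - C t).prod := by
  obtain ⟨l, rfl⟩ := Quot.exists_rep s
  set r : Fin l.length → K := fun i => l.get i with hr
  have hs : (Finset.univ.val.map r) = (l : Multiset K) := by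
    rw [Fin.univ_val_map]
    simp [hr]
  have h' : ∀ k : ℕ, ∃ q : ℚ, ∑ i, r i ^ k = (q : K) := by
    intro k
    obtain ⟨q, hq⟩ := h k
    refine ⟨q, ?_⟩
    rw [← hq]
    change _ = (Multiset.map (· ^ k) (l : Multiset K)).sum
    rw [← hs, Multiset.map_map]
    rfl
  choose q hq using esymm_rational r h'
  refine ⟨∑ j ∈ Finset.range (l.length + 1), (-1) ^ j * (C (q j) * X ^ (l.length - j)), ?_⟩
  change _ = (Multiset.map (fun t => X - C t) (l : Multiset K)).prod
  rw [Multiset.prod_X_sub_X_eq_sum_esymm, Polynomial.map_sum]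
  have hc : Multiset.card (l : Multiset K) = l.length := by simp
  rw [hc]
  refine Finset.sum_congr rfl fun j _ => ?_
  have h2 : (l : Multiset K).esymm j = (q j : K) := by
    rw [← hs, ← MvPolynomial.aeval_esymm_eq_multiset_esymm (Fin l.length) ℚ, hq]
  rw [h2]
  simp

end Newton

section Trace

variable {K : Type*} [Field K] [CharZero K] [IsAlgClosed K] {V : Type*} [AddCommGroup V]
  [Module K V] [FiniteDimensional K V]

/-- The trace of the powers of an operator. -/
lemma trace_pow_eq (ψ : Module.End K V) (n : ℕ) :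
    LinearMap.trace K V (ψ ^ n) = (ψ.charpoly.roots.map (· ^ n)).sum := by
  classical
  have hint : DirectSum.IsInternal (fun μ : K => ψ.maxGenEigenspace μ) := by
    rw [DirectSum.isInternal_submodule_iff_iSupIndep_and_iSup_eq_top]
    exact ⟨ψ.independent_maxGenEigenspace, Module.End.iSup_maxGenEigenspace_eq_top ψ⟩
  have hfin : {μ : K | ψ.maxGenEigenspace μ ≠ ⊥}.Finite :=
    WellFoundedGT.finite_ne_bot_of_iSupIndep ψ.independent_maxGenEigenspace
  have hmaps : ∀ μ : K, Set.MapsTo (ψ ^ n) (ψ.maxGenEigenspace μ) (ψ.maxGenEigenspace μ) := by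
    intro μ
    have h1 := Module.End.mapsTo_maxGenEigenspace_of_comm ((Commute.refl ψ).pow_right n) μ
    exact h1
  rw [LinearMap.trace_eq_sum_trace_restrict' hint hfin hmaps]
  have htr : ∀ μ : K, LinearMap.trace K (ψ.maxGenEigenspace μ) ((ψ ^ n).restrict (hmaps μ)) =
      (Module.finrank K (ψ.maxGenEigenspace μ) : K) * μ ^ n := by
    intro μ
    have hm : Set.MapsTo ψ (ψ.maxGenEigenspace μ) (ψ.maxGenEigenspace μ) :=
      Module.End.mapsTo_maxGenEigenspace_of_comm (Commute.refl ψ) μ
    have hnil : IsNilpotent (ψ.restrict hm - algebraMap K _ μ) :=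
      Module.End.isNilpotent_restrict_maxGenEigenspace_sub_algebraMap ψ μ
    have hpow : (ψ ^ n).restrict (hmaps μ) = (ψ.restrict hm) ^ n :=
      (Module.End.pow_restrict n hm (hmaps μ)).symm
    rw [hpow]
    clear hpow
    induction n with
    | zero =>
      rw [pow_zero, pow_zero, mul_one, LinearMap.trace_one]
    | succ n ih =>
      have hmaps' : ∀ μ : K, Set.MapsTo (ψ ^ n) (ψ.maxGenEigenspace μ)
          (ψ.maxGenEigenspace μ) := fun μ =>
        Module.End.mapsTo_maxGenEigenspace_of_comm ((Commute.refl ψ).pow_right n) μ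
      rw [pow_succ, Module.End.mul_eq_comp,
        LinearMap.trace_comp_eq_mul_of_commute_of_isNilpotent μ
          ((Commute.refl (ψ.restrict hm)).pow_left n) hnil, ih hmaps']
      ring
  rw [Finset.sum_congr rfl (fun μ _ => htr μ)]
  have hcount : ∀ μ : K, Module.finrank K (ψ.maxGenEigenspace μ) = ψ.charpoly.roots.count μ := by
    intro μ
    rw [LinearMap.finrank_maxGenEigenspace_eq, count_roots]
  rw [Finset.sum_multiset_map_count]
  refine (Finset.sum_subset_zero_on_sdiff (s₁ := ψ.charpoly.roots.toFinset) (s₂ := hfin.toFinset)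
    ?_ ?_ ?_).symm
  · intro μ hμ
    rw [Multiset.mem_toFinset] at hμ
    rw [Set.Finite.mem_toFinset]
    intro h0
    have h1 := hcount μ
    have h0' : ψ.maxGenEigenspace μ = ⊥ := h0
    rw [h0', finrank_bot] at h1
    exact absurd (Multiset.count_pos.2 hμ) (by omega)
  · intro μ hμ
    rw [Finset.mem_sdiff, Multiset.mem_toFinset] at hμ
    rw [hcount, Multiset.count_eq_zero_of_notMem hμ.2, Nat.cast_zero, zero_mul]
  · intro μ _
    rw [hcount, nsmul_eq_mul]

/-- The characteristic polynomial is rational if the traces of the powers are. -/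
theorem charpoly_rational (ψ : Module.End K V)
    (h : ∀ n : ℕ, ∃ q : ℚ, LinearMap.trace K V (ψ ^ n) = (q : K)) :
    ∃ χ : ℚ[X], χ ≠ 0 ∧ χ.map (algebraMap ℚ K) = ψ.charpoly := by
  obtain ⟨χ, hχ⟩ := prod_rational ψ.charpoly.roots (fun n => by
    obtain ⟨q, hq⟩ := h n
    exact ⟨q, by rw [← hq, trace_pow_eq]⟩)
  have h1 : (ψ.charpoly.roots.map fun t => X - C t).prod = ψ.charpoly :=
    ((IsAlgClosed.splits _).eq_prod_roots_of_monic ψ.charpoly_monic).symm
  rw [h1] at hχ
  refine ⟨χ, ?_, hχ⟩
  rintro rfl
  rw [Polynomial.map_zero] at hχ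
  exact ψ.charpoly_monic.ne_zero hχ.symm

end Trace

section Deg

variable {K : Type*} [Field K] [CharZero K] [IsAlgClosed K]

/-- The degree of `α` over the rational numbers (`0` if `α` is transcendental). -/
noncomputable def qdeg (α : K) : ℕ := (minpoly ℚ α).natDegree

open Classical in
/-- The number of the roots of a rational polynomial whose degree over the rational numbers is
divisible by `m` is divisible by `m`. -/
lemma dvd_card_roots (m : ℕ) (χ : ℚ[X]) (hχ : χ ≠ 0) :
    m ∣ Multiset.card ((χ.map (algebraMap ℚ K)).roots.filter fun α => m ∣ qdeg α) := by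
  induction χ using UniqueFactorizationMonoid.induction_on_prime with
  | h₁ => exact absurd rfl hχ
  | h₂ u hu =>
    obtain ⟨c, hc, rfl⟩ := Polynomial.isUnit_iff.1 hu
    simp
  | h₃ a g ha hg ih =>
    have h0 : (g * a).map (algebraMap ℚ K) ≠ 0 := by
      rw [Polynomial.map_ne_zero_iff (algebraMap ℚ K).injective]
      exact mul_ne_zero hg.ne_zero ha
    rw [Polynomial.map_mul] at h0 ⊢
    rw [Polynomial.roots_mul h0, Multiset.filter_add, Multiset.card_add]
    refine dvd_add ?_ (ih ha)
    have hirr : Irreducible g := hg.irreducible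
    have hr : ∀ α ∈ (g.map (algebraMap ℚ K)).roots, qdeg α = g.natDegree := by
      intro α hα
      rw [mem_roots (by
        rw [Polynomial.map_ne_zero_iff (algebraMap ℚ K).injective]; exact hg.ne_zero), IsRoot.def,
        eval_map_algebraMap] at hα
      have h1 := minpoly.eq_of_irreducible hirr hα
      rw [qdeg, ← h1, natDegree_mul_C]
      exact inv_ne_zero (leadingCoeff_ne_zero.2 hg.ne_zero)
    have hcard : Multiset.card (g.map (algebraMap ℚ K)).roots = g.natDegree := by
      have h2 := IsAlgClosed.card_roots_eq_natDegree (p := g.map (algebraMap ℚ K))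
      rwa [natDegree_map] at h2
    by_cases hm : m ∣ g.natDegree
    · rw [Multiset.filter_eq_self.2 (fun α hα => by rw [hr α hα]; exact hm), hcard]
      exact hm
    · rw [Multiset.filter_eq_nil.2 (fun α hα => by rw [hr α hα]; exact hm)]
      simp

end Deg

end Pool.Agent.N181.Mod
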