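import Pool.Agent.N181.Mod.LinA
import Pool.Agent.H914R2.Core1

/-!
# Dimensions divisible by `m`
-/

set_option autoImplicit false

open Polynomial

namespace Pool.Agent.N181.Mod

section

variable {K : Type*} [Field K] {V : Type*} [AddCommGroup V] [Module K V]

/-- In a generalised eigenspace, a nonzero vector killed by a commuting operator gives an
eigenvector killed by it. -/
lemma exists_eigen {ψ B : Module.End K V} (hc : ψ * B = B * ψ) {α : K} {v : V}
    (hv : v ∈ ψ.maxGenEigenspace α) (hB : B v ≠ 0) :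
    ∃ w, ψ w = α • w ∧ w ≠ 0 ∧ w ∈ LinearMap.range B := by
  rw [Module.End.mem_maxGenEigenspace] at hv
  obtain ⟨n, hn⟩ := hv
  have hcc : ∀ n : ℕ, (ψ - α • 1) ^ n * B = B * (ψ - α • 1) ^ n := by
    intro n
    have h1 : Commute (ψ - α • (1 : Module.End K V)) B := by
      have h2 : Commute ψ B := hc
      exact h2.sub_left ((Commute.one_left B).smul_left α)
    exact h1.pow_left n
  have hn' : ((ψ - α • (1 : Module.End K V)) ^ n) (B v) = 0 := by
    rw [← Module.End.mul_apply, hcc, Module.End.mul_apply, hn, map_zero]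
  classical
  have hex : ∃ n : ℕ, ((ψ - α • (1 : Module.End K V)) ^ n) (B v) = 0 := ⟨n, hn'⟩
  have h0 : Nat.find hex ≠ 0 := by
    intro h0
    have := Nat.find_spec hex
    rw [h0, pow_zero, Module.End.one_apply] at this
    exact hB this
  obtain ⟨k, hk⟩ := Nat.exists_eq_succ_of_ne_zero h0
  refine ⟨((ψ - α • (1 : Module.End K V)) ^ k) (B v), ?_, ?_, ?_⟩
  · have h1 := Nat.find_spec hex
    rw [hk, pow_succ', Module.End.mul_apply, LinearMap.sub_apply, LinearMap.smul_apply,
      Module.End.one_apply, sub_eq_zero] at h1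
    exact h1
  · exact Nat.find_min hex (by rw [hk]; exact Nat.lt_succ_self k)
  · rw [← Module.End.mul_apply, hcc, Module.End.mul_apply]
    exact ⟨_, rfl⟩

end

section

variable {K : Type*} [Field K] [CharZero K] [IsAlgClosed K] {V : Type*} [AddCommGroup V]
  [Module K V] [FiniteDimensional K V]

/-- **The divisibility of the dimension.** The traces of the powers of `ψ` are rational, the
eigenvalues of `ψ` on the image of the projector `R` have degree divisible by `m` and those on the
kernel do not: then the dimension of the image is divisible by `m`. -/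
theorem dvd_finrank_range (m : ℕ) (ψ R : Module.End K V)
    (h : ∀ n : ℕ, ∃ q : ℚ, LinearMap.trace K V (ψ ^ n) = (q : K))
    (hR : R * R = R) (hc : ψ * R = R * ψ)
    (h1 : ∀ (α : K) (v : V), ψ v = α • v → v ≠ 0 → R v = v → m ∣ qdeg α)
    (h2 : ∀ (α : K) (v : V), ψ v = α • v → v ≠ 0 → R v = 0 → ¬ m ∣ qdeg α) :
    m ∣ Module.finrank K (LinearMap.range R) := by
  classical
  obtain ⟨χ, hχ0, hχ⟩ := charpoly_rational ψ h
  have hdvd := dvd_card_roots (K := K) m χ hχ0
  rw [hχ] at hdvd
  suffices hcard : Module.finrank K (LinearMap.range R) =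
      Multiset.card (ψ.charpoly.roots.filter fun α => m ∣ qdeg α) by rwa [hcard]
  have hint : DirectSum.IsInternal (fun μ : K => ψ.maxGenEigenspace μ) := by
    rw [DirectSum.isInternal_submodule_iff_iSupIndep_and_iSup_eq_top]
    exact ⟨ψ.independent_maxGenEigenspace, Module.End.iSup_maxGenEigenspace_eq_top ψ⟩
  have hfin : {μ : K | ψ.maxGenEigenspace μ ≠ ⊥}.Finite :=
    WellFoundedGT.finite_ne_bot_of_iSupIndep ψ.independent_maxGenEigenspace
  have hmaps : ∀ μ : K, Set.MapsTo R (ψ.maxGenEigenspace μ) (ψ.maxGenEigenspace μ) := fun μ =>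
    Module.End.mapsTo_maxGenEigenspace_of_comm hc μ
  have hR1 : ∀ μ : K, m ∣ qdeg μ → ∀ v ∈ ψ.maxGenEigenspace μ, R v = v := by
    intro μ hμ v hv
    by_contra hne
    have hc' : ψ * (1 - R) = (1 - R) * ψ := by rw [mul_sub, sub_mul, hc, mul_one, one_mul]
    obtain ⟨w, hw, hw0, u, rfl⟩ := exists_eigen hc' hv (by
      rw [LinearMap.sub_apply, Module.End.one_apply, sub_ne_zero]
      exact fun h => hne h.symm)
    refine h2 μ _ hw hw0 ?_ hμ
    rw [← Module.End.mul_apply, mul_sub, mul_one, hR, sub_self, LinearMap.zero_apply]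
  have hR2 : ∀ μ : K, ¬ m ∣ qdeg μ → ∀ v ∈ ψ.maxGenEigenspace μ, R v = 0 := by
    intro μ hμ v hv
    by_contra hne
    obtain ⟨w, hw, hw0, u, rfl⟩ := exists_eigen hc hv hne
    refine hμ (h1 μ _ hw hw0 ?_)
    rw [← Module.End.mul_apply, hR]
  have htr : LinearMap.trace K V R = (Module.finrank K (LinearMap.range R) : K) :=
    Pool.Agent.H914.trace_idem hR
  have hcount : ∀ μ : K, Module.finrank K (ψ.maxGenEigenspace μ) = ψ.charpoly.roots.count μ := by
    intro μ
    rw [LinearMap.finrank_maxGenEigenspace_eq, count_roots]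
  have key : (Module.finrank K (LinearMap.range R) : K) =
      (Multiset.card (ψ.charpoly.roots.filter fun α => m ∣ qdeg α) : K) := by
    rw [← htr, LinearMap.trace_eq_sum_trace_restrict' hint hfin hmaps]
    have hterm : ∀ μ ∈ hfin.toFinset, LinearMap.trace K (ψ.maxGenEigenspace μ)
        (R.restrict (hmaps μ)) =
        (((ψ.charpoly.roots.filter fun α => m ∣ qdeg α).count μ : ℕ) : K) := by
      intro μ _
      by_cases hμ : m ∣ qdeg μ
      · have e1 : R.restrict (hmaps μ) = 1 := by
          ext v
          exact hR1 μ hμ v v.2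
        rw [e1, LinearMap.trace_one, hcount, Multiset.count_filter, if_pos hμ]
      · have e1 : R.restrict (hmaps μ) = 0 := by
          ext v
          exact hR2 μ hμ v v.2
        rw [e1, map_zero, Multiset.count_filter, if_neg hμ, Nat.cast_zero]
    rw [Finset.sum_congr rfl hterm, ← Nat.cast_sum]
    congr 1
    rw [← Multiset.toFinset_sum_count_eq]
    symm
    refine Finset.sum_subset_zero_on_sdiff ?_ ?_ ?_
    · intro μ hμ
      rw [Multiset.mem_toFinset, Multiset.mem_filter] at hμ
      rw [Set.Finite.mem_toFinset]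
      intro h0
      have h1 := hcount μ
      have h0' : ψ.maxGenEigenspace μ = ⊥ := h0
      rw [h0', finrank_bot] at h1
      exact absurd (Multiset.count_pos.2 hμ.1) (by omega)
    · intro μ hμ
      rw [Finset.mem_sdiff, Multiset.mem_toFinset] at hμ
      exact Multiset.count_eq_zero_of_notMem hμ.2
    · intro μ _
      rfl
  exact_mod_cast key

end

end Pool.Agent.N181.Mod
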