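import Pool.Agent.N181.Mod.LinB
import Pool.Agent.W534.PoleA

/-!
# Rational polynomials from rational super traces
-/

set_option autoImplicit false

open Polynomial

namespace Pool.Agent.N181.Mod

open Pool.Agent.H914

section

variable {K : Type*} [Field K] [CharZero K] [IsAlgClosed K] {V : Type*} [AddCommGroup V]
  [Module K V] [FiniteDimensional K V]

omit [CharZero K] in
lemma isInternal_gen [DecidableEq K] (a : Module.End K V) :
    DirectSum.IsInternal (fun μ : K => a.maxGenEigenspace μ) := by
  rw [DirectSum.isInternal_submodule_iff_iSupIndep_and_iSup_eq_top]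
  exact ⟨a.independent_maxGenEigenspace, Module.End.iSup_maxGenEigenspace_eq_top a⟩

omit [CharZero K] [IsAlgClosed K] in
lemma finite_gen (a : Module.End K V) : {μ : K | a.maxGenEigenspace μ ≠ ⊥}.Finite :=
  WellFoundedGT.finite_ne_bot_of_iSupIndep a.independent_maxGenEigenspace

omit [CharZero K] [IsAlgClosed K] in
lemma trace_restrict_aeval (a : Module.End K V) (μ : K) (P : K[X])
    (h : Set.MapsTo (aeval a P) (a.maxGenEigenspace μ) (a.maxGenEigenspace μ)) :
    LinearMap.trace K (a.maxGenEigenspace μ) ((aeval a P).restrict h) =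
      (Module.finrank K (a.maxGenEigenspace μ) : K) * P.eval μ := by
  have hm : Set.MapsTo a (a.maxGenEigenspace μ) (a.maxGenEigenspace μ) :=
    Module.End.mapsTo_maxGenEigenspace_of_comm (Commute.refl a) μ
  have hnil : IsNilpotent (a.restrict hm - algebraMap K _ μ) :=
    Module.End.isNilpotent_restrict_maxGenEigenspace_sub_algebraMap a μ
  have e1 : (aeval a P).restrict h = aeval (a.restrict hm) P := by
    ext v
    change (aeval a P) (v : V) = _
    clear h
    induction P using Polynomial.induction_on' with
    | add p q hp hq => rw [map_add, map_add, LinearMap.add_apply, LinearMap.add_apply, hp, hq]; rfl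
    | monomial n c =>
      rw [aeval_monomial, aeval_monomial, Module.End.mul_apply, Module.End.mul_apply,
        Module.algebraMap_end_apply, Module.algebraMap_end_apply]
      rw [Submodule.coe_smul, Module.End.pow_restrict n hm]
      rfl
  rw [e1]
  clear e1 h
  induction P using Polynomial.induction_on' with
  | add p q hp hq => rw [map_add, map_add, hp, hq, eval_add, mul_add]
  | monomial n c =>
    have h2 : ∀ n : ℕ, LinearMap.trace K (a.maxGenEigenspace μ) ((a.restrict hm) ^ n) =
        (Module.finrank K (a.maxGenEigenspace μ) : K) * μ ^ n := by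
      intro n
      induction n with
      | zero => rw [pow_zero, pow_zero, mul_one, LinearMap.trace_one]
      | succ n ih =>
        rw [pow_succ, Module.End.mul_eq_comp,
          LinearMap.trace_comp_eq_mul_of_commute_of_isNilpotent μ
            ((Commute.refl (a.restrict hm)).pow_left n) hnil, ih]
        ring
    rw [aeval_monomial, Algebra.algebraMap_eq_smul_one, smul_mul_assoc, one_mul, map_smul, h2, eval_monomial,
      smul_eq_mul]
    ring

/-- Super traces as sums over the eigenvalues. -/
lemma strace_eq (a ε : Module.End K V)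
    (hsep : ∀ μ : K, (∀ v ∈ a.maxGenEigenspace μ, ε v = v) ∨
      ∀ v ∈ a.maxGenEigenspace μ, ε v = -v) :
    ∃ c : K → K, (∀ μ, a.maxGenEigenspace μ ≠ ⊥ → c μ ≠ 0) ∧
      ∀ P : K[X], LinearMap.trace K V (ε * aeval a P) =
        ∑ μ ∈ (finite_gen a).toFinset, c μ * P.eval μ := by
  classical
  have hex : ∀ μ : K, ∃ s : K, (s = 1 ∨ s = -1) ∧ ∀ v ∈ a.maxGenEigenspace μ, ε v = s • v := by
    intro μ
    rcases hsep μ with h | h
    · exact ⟨1, Or.inl rfl, fun v hv => by rw [h v hv, one_smul]⟩
    · exact ⟨-1, Or.inr rfl, fun v hv => by rw [h v hv, neg_one_smul]⟩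
  choose s hs hsv using hex
  refine ⟨fun μ => s μ * (Module.finrank K (a.maxGenEigenspace μ) : K), ?_, ?_⟩
  · intro μ hμ
    have h1 : Module.finrank K (a.maxGenEigenspace μ) ≠ 0 := by
      rw [Ne, Submodule.finrank_eq_zero]; exact hμ
    refine mul_ne_zero ?_ (Nat.cast_ne_zero.2 h1)
    rcases hs μ with h | h <;> rw [h]
    · exact one_ne_zero
    · exact neg_ne_zero.2 one_ne_zero
  · intro P
    have hP : ∀ μ : K, Set.MapsTo (aeval a P) (a.maxGenEigenspace μ) (a.maxGenEigenspace μ) :=
      fun μ => Module.End.mapsTo_maxGenEigenspace_of_comm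
        (by
          have h1 : Commute a (aeval a P) := by
            rw [aeval_eq_sum_range]
            exact Commute.sum_right _ _ _ fun i _ => ((Commute.refl a).pow_right i).smul_right _
          exact h1) μ
    have hεP : ∀ μ : K, Set.MapsTo (ε * aeval a P) (a.maxGenEigenspace μ)
        (a.maxGenEigenspace μ) := by
      intro μ v hv
      rw [Module.End.mul_apply, hsv μ _ (hP μ hv)]
      exact Submodule.smul_mem _ _ (hP μ hv)
    rw [LinearMap.trace_eq_sum_trace_restrict' (isInternal_gen a) (finite_gen a) hεP]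
    refine Finset.sum_congr rfl fun μ _ => ?_
    have e1 : (ε * aeval a P).restrict (hεP μ) = s μ • (aeval a P).restrict (hP μ) := by
      ext v
      change ε (aeval a P (v : V)) = s μ • (aeval a P (v : V))
      exact hsv μ _ (hP μ v.2)
    rw [e1, map_smul, trace_restrict_aeval, smul_eq_mul, mul_assoc]

/-- **A rational polynomial which vanishes on the eigenvalues.** -/
theorem exists_rational_poly (a ε : Module.End K V)
    (hsep : ∀ μ : K, (∀ v ∈ a.maxGenEigenspace μ, ε v = v) ∨
      ∀ v ∈ a.maxGenEigenspace μ, ε v = -v)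
    (hstr : ∀ n : ℕ, ∃ q : ℚ, LinearMap.trace K V (ε * a ^ n) = (q : K)) :
    ∃ G : ℚ[X], G ≠ 0 ∧ ∀ μ : K, a.maxGenEigenspace μ ≠ ⊥ → aeval μ G = 0 := by
  classical
  obtain ⟨c, hc0, hc⟩ := strace_eq a ε hsep
  choose t ht using hstr
  set D := a.charpoly.natDegree with hD
  set φ : Fin (D + 1) → ℕ → ℚ := fun j n => t (n + j) with hφ
  have hrel : ¬ LinearIndependent ℚ φ := by
    intro hlin
    have h0 := Pool.Agent.W534.lin_ext (K := K) hlin
      (c := fun j : Fin (D + 1) => a.charpoly.coeff j) (by
        intro n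
        have h1 : ∑ j : Fin (D + 1), a.charpoly.coeff j * (φ j n : K) =
            LinearMap.trace K V (ε * aeval a (X ^ n * a.charpoly)) := by
          have h2 : (X ^ n * a.charpoly : K[X]) =
              ∑ j ∈ Finset.range (D + 1), C (a.charpoly.coeff j) * X ^ (n + j) := by
            conv_lhs => rw [a.charpoly.as_sum_range_C_mul_X_pow, Finset.mul_sum]
            refine Finset.sum_congr rfl fun j _ => ?_
            rw [pow_add]
            ring
          rw [h2, map_sum, Finset.mul_sum, map_sum, Finset.sum_range]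
          refine Finset.sum_congr rfl fun j _ => ?_
          rw [map_mul (aeval a), aeval_C, aeval_X_pow, Algebra.algebraMap_eq_smul_one,
            smul_mul_assoc, one_mul, mul_smul_comm, map_smul, ht, smul_eq_mul]
        rw [h1, map_mul (aeval a), LinearMap.aeval_self_charpoly, mul_zero, mul_zero, map_zero])
    have h3 := congrFun h0 (Fin.last D)
    simp only [Fin.val_last, Pi.zero_apply] at h3
    have h4 : a.charpoly.coeff D = 1 := a.charpoly_monic
    rw [h4] at h3
    exact one_ne_zero h3
  rw [Fintype.not_linearIndependent_iff] at hrel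
  obtain ⟨g, hg, i, hi⟩ := hrel
  set G : ℚ[X] := ∑ j : Fin (D + 1), C (g j) * X ^ (j : ℕ) with hG
  have hcoef : G.coeff i = g i := by
    rw [hG, finsetSum_coeff, Finset.sum_eq_single i]
    · simp
    · intro j _ hj
      rw [coeff_C_mul, coeff_X_pow, if_neg (fun h => hj (Fin.ext h.symm)), mul_zero]
    · intro h; exact absurd (Finset.mem_univ _) h
  refine ⟨G, fun h0 => hi (by rw [← hcoef, h0, coeff_zero]), ?_⟩
  have hG1 : ∀ n : ℕ, LinearMap.trace K V (ε * aeval a (X ^ n * G.map (algebraMap ℚ K))) = 0 := by
    intro n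
    have h1 := congrFun hg n
    rw [Finset.sum_apply, Pi.zero_apply] at h1
    have h2 := congrArg (fun q : ℚ => (q : K)) h1
    simp only [Rat.cast_sum, Pi.smul_apply, smul_eq_mul, Rat.cast_mul, Rat.cast_zero] at h2
    rw [← h2, hG, Polynomial.map_sum, Finset.mul_sum, map_sum, Finset.mul_sum, map_sum]
    refine Finset.sum_congr rfl fun j _ => ?_
    rw [Polynomial.map_mul, map_C, Polynomial.map_pow, map_X, mul_left_comm, ← pow_add,
      map_mul (aeval a), aeval_C, aeval_X_pow, Algebra.algebraMap_eq_smul_one, smul_mul_assoc, one_mul,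
      mul_smul_comm, map_smul, ht, smul_eq_mul]
    rfl
  have hG2 : ∀ P : K[X], ∑ μ ∈ (finite_gen a).toFinset, c μ * (P.eval μ * aeval μ G) = 0 := by
    intro P
    have h1 : ∀ P : K[X], LinearMap.trace K V (ε * aeval a (P * G.map (algebraMap ℚ K))) = 0 := by
      intro P
      induction P using Polynomial.induction_on' with
      | add p q hp hq => rw [add_mul, map_add, mul_add, map_add, hp, hq, add_zero]
      | monomial n r =>
        rw [← C_mul_X_pow_eq_monomial, mul_assoc, map_mul (aeval a), aeval_C,
          Algebra.algebraMap_eq_smul_one, smul_mul_assoc, one_mul, mul_smul_comm, map_smul, hG1,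
          smul_zero]
    have h2 := h1 P
    rw [hc] at h2
    rw [← h2]
    refine Finset.sum_congr rfl fun μ _ => ?_
    rw [eval_mul, eval_map_algebraMap]
  intro μ hμ
  have hμ' : μ ∈ (finite_gen a).toFinset := by
    rw [Set.Finite.mem_toFinset]; exact hμ
  have h3 := hG2 (∏ ν ∈ (finite_gen a).toFinset.erase μ, (X - C ν))
  rw [Finset.sum_eq_single_of_mem μ hμ'] at h3
  · have h4 : (∏ ν ∈ (finite_gen a).toFinset.erase μ, (X - C ν)).eval μ ≠ 0 := by
      rw [eval_prod, Finset.prod_ne_zero_iff]
      intro ν hν
      rw [eval_sub, eval_X, eval_C, sub_ne_zero]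
      exact (Finset.ne_of_mem_erase hν).symm
    rcases mul_eq_zero.1 h3 with h5 | h5
    · exact absurd h5 (hc0 μ hμ)
    · exact (mul_eq_zero.1 h5).resolve_left h4
  · intro ν hν hνμ
    have h5 : (∏ ν ∈ (finite_gen a).toFinset.erase μ, (X - C ν)).eval ν = 0 := by
      rw [eval_prod]
      exact Finset.prod_eq_zero (Finset.mem_erase.2 ⟨hνμ, hν⟩) (by
        rw [eval_sub, eval_X, eval_C, sub_self])
    rw [h5, zero_mul, mul_zero]

/-- **Rational projectors**: the projector onto the generalised eigenspace of a rational number is a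
rational polynomial in the operator. -/
theorem exists_rational_proj (a : Module.End K V) {G : ℚ[X]} (hG : G ≠ 0)
    (h : ∀ μ : K, a.maxGenEigenspace μ ≠ ⊥ → aeval μ G = 0) (r : ℚ) :
    ∃ u : ℚ[X], (∀ v ∈ a.maxGenEigenspace (r : K), ev a u v = v) ∧
      ∀ v, ev a u v ∈ a.maxGenEigenspace (r : K) := by
  classical
  obtain ⟨G', hG', hdvd⟩ := G.exists_eq_pow_rootMultiplicity_mul_and_not_dvd hG r
  set N := Module.finrank K V with hN
  have hcop : IsCoprime ((X - C r) ^ N) (G' ^ N) := by
    refine IsCoprime.pow ?_
    exact (irreducible_X_sub_C r).coprime_iff_not_dvd.2 hdvd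
  obtain ⟨A, B, hAB⟩ := hcop
  -- generalised eigenspaces are killed by the power `N`
  have hkill : ∀ (μ : K), ∀ v ∈ a.maxGenEigenspace μ, ((a - μ • 1) ^ N) v = 0 := by
    intro μ v hv
    rw [Module.End.maxGenEigenspace_eq_genEigenspace_finrank] at hv
    rw [Module.End.mem_genEigenspace_nat] at hv
    exact hv
  have hX : ev a ((X - C r) ^ N) = (a - (r : K) • 1) ^ N := by
    rw [map_pow, map_sub, ev_X, ev_C]
  have hr : ∀ v ∈ a.maxGenEigenspace (r : K), ev a (B * G' ^ N) v = v := by
    intro v hv
    have h1 : ev a (A * (X - C r) ^ N) v = 0 := by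
      rw [map_mul, Module.End.mul_apply, hX, hkill _ v hv, map_zero]
    have h2 := congrArg (fun f => ev a f v) hAB
    simp only [map_add, LinearMap.add_apply, map_one, Module.End.one_apply, h1, zero_add] at h2
    exact h2
  have hother : ∀ μ : K, μ ≠ (r : K) → ∀ v ∈ a.maxGenEigenspace μ, ev a (B * G' ^ N) v = 0 := by
    intro μ hμ v hv
    by_cases hbot : a.maxGenEigenspace μ = ⊥
    · rw [hbot] at hv
      rw [(Submodule.mem_bot _).1 hv, map_zero]
    have h1 := h μ hbot
    rw [hG', map_mul, map_pow, map_sub, aeval_X, aeval_C] at h1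
    have h2 : aeval μ G' = 0 := by
      rcases mul_eq_zero.1 h1 with h3 | h3
      · exact absurd (sub_eq_zero.1 (eq_zero_of_pow_eq_zero h3)) hμ
      · exact h3
    have h3 : (X - C μ) ∣ G'.map (algebraMap ℚ K) := by
      rw [dvd_iff_isRoot, IsRoot.def, eval_map_algebraMap, h2]
    obtain ⟨H, hH⟩ := h3
    have h4 : ev a G' = aeval a H * (a - μ • 1) := by
      rw [ev_apply, hH, mul_comm, map_mul, map_sub, aeval_X, aeval_C,
        Algebra.algebraMap_eq_smul_one]
    have h5 : Commute (aeval a H) (a - μ • 1) := by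
      have h6 : Commute (aeval a H) a := by
        rw [aeval_eq_sum_range]
        exact Commute.sum_left _ _ _ fun i _ => ((Commute.refl a).pow_left i).smul_left _
      exact h6.sub_right ((Commute.one_right _).smul_right μ)
    rw [map_mul, Module.End.mul_apply, map_pow, h4, h5.mul_pow, Module.End.mul_apply, hkill _ v hv,
      map_zero, map_zero]
  refine ⟨B * G' ^ N, hr, fun v => ?_⟩
  have hv : v ∈ ⨆ μ : K, a.maxGenEigenspace μ := by
    rw [Module.End.iSup_maxGenEigenspace_eq_top a]; trivial
  induction hv using Submodule.iSup_induction' with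
  | mem μ v hv =>
    by_cases hμ : μ = (r : K)
    · subst hμ
      rw [hr v hv]
      exact hv
    · rw [hother μ hμ v hv]
      exact Submodule.zero_mem _
  | zero => rw [map_zero]; exact Submodule.zero_mem _
  | add v w _ _ hv hw => rw [map_add]; exact Submodule.add_mem _ hv hw

end

end Pool.Agent.N181.Mod
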