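import Pool.Agent.N181.Mod.Master

/-!
# The lower bound for the defect of a product, and congruences
-/

set_option autoImplicit false

open CategoryTheory AlgebraicGeometry Polynomial

universe u v

namespace Pool.Agent.N181.Mod

open Pool.Agent.H914 Pool.Agent.H914.VarClass Pool.Agent.H914.VarClass.Obj
  Pool.Agent.H914.WeilCohomology Pool.Agent.H281R3.HT Pool.Agent.W534 Pool.Agent.TH132.P

variable {k : Type u} [Field k] {𝒱 : VarClass k} {ops : CycleOps 𝒱}
  {W : WeilCohomology.{u, v} ops} {X Y Z Z' : 𝒱.Obj} {p : ℕ} {m : ℕ}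

/-- Independent functionals have dual vectors. -/
lemma exists_dual_vectors {K V : Type*} [Field K] [AddCommGroup V] [Module K V] {n : ℕ}
    {f : Fin n → Module.Dual K V} (hf : LinearIndependent K f) :
    ∃ b : Fin n → V, ∀ i j, f i (b j) = if i = j then 1 else 0 := by
  classical
  set Θ : V →ₗ[K] (Fin n → K) := LinearMap.pi f with hΘ
  have hs : LinearMap.range Θ = ⊤ := by
    by_contra hne
    obtain ⟨g, hg, hle⟩ := Submodule.exists_le_ker_of_lt_top _ (lt_top_iff_ne_top.2 hne)
    have h1 : ∀ v, g (Θ v) = 0 := fun v => hle ⟨v, rfl⟩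
    have h2 : ∑ i, g (Pi.single i 1) • f i = 0 := by
      ext v
      rw [LinearMap.sum_apply, LinearMap.zero_apply, ← h1 v]
      have e : Θ v = ∑ i, f i v • (Pi.single i 1 : Fin n → K) := by
        ext j
        simp [hΘ, Finset.sum_apply, Pi.single_apply]
      rw [e, map_sum]
      refine Finset.sum_congr rfl fun i _ => ?_
      rw [LinearMap.smul_apply, map_smul, smul_eq_mul, smul_eq_mul, mul_comm]
    have h3 := Fintype.linearIndependent_iff.1 hf _ h2
    apply hg
    refine (LinearMap.pi_ext' fun i => ?_)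
    ext
    simpa using h3 i
  have hs' : Function.Surjective Θ := LinearMap.range_eq_top.1 hs
  choose b hb using fun j : Fin n => hs' (Pi.single j 1)
  refine ⟨b, fun i j => ?_⟩
  have h1 := congrFun (hb j) i
  rw [hΘ, LinearMap.pi_apply, Pi.single_apply] at h1
  exact h1

lemma exists_indep_range {K V V' : Type*} [Field K] [AddCommGroup V] [Module K V]
    [AddCommGroup V'] [Module K V'] [FiniteDimensional K V] (P : V →ₗ[K] V') {r : ℕ}
    (hr : Module.finrank K (LinearMap.range P) = r) :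
    ∃ e : Fin r → V, LinearIndependent K fun k => P (e k) := by
  set B := Module.finBasisOfFinrankEq K (LinearMap.range P) hr with hB
  choose e he using fun k => (B k).2
  refine ⟨e, ?_⟩
  have h1 : (fun k => P (e k)) = fun k => ((LinearMap.range P).subtype (B k)) :=
    funext fun k => he k
  rw [h1]
  exact B.linearIndependent.map' _ (Submodule.ker_subtype _)

/-- Numerically independent algebraic classes with a dual family. -/
lemma exists_dual_num (X : 𝒱.Obj) (i : ℕ) (hi : i ≤ X.dim) :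
    ∃ (e : Fin (numRank ops X i) → spanCycles W X (i : ℕ))
      (b : Fin (numRank ops X i) → spanCycles W X (X.dim - i : ℕ)),
      ∀ k l, W.tr X ((e k : W.H X) * (b l : W.H X)) = if k = l then 1 else 0 := by
  classical
  have hr : Module.finrank W.K (LinearMap.range (pair W X (i : ℕ) (X.dim - i : ℕ))) =
      numRank ops X i := by
    rw [numRank_eq (W := W) hi]; rfl
  obtain ⟨e, hlin⟩ := exists_indep_range (pair W X (i : ℕ) (X.dim - i : ℕ)) hr
  obtain ⟨b, hb⟩ := exists_dual_vectors hlin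
  exact ⟨e, b, hb⟩

/-- The family. -/
theorem exists_num_fam (W : WeilCohomology.{u, v} ops) (X : 𝒱.Obj) :
    ∃ (κ : Type) (_ : Fintype κ) (_ : DecidableEq κ) (e b : κ → W.H X) (d : κ → ℕ),
      DFam W X e b d ∧ ∀ i ≤ X.dim, (Finset.univ.filter fun k => d k = i).card =
        numRank ops X i := by
  classical
  choose e b hb using fun i : Fin (X.dim + 1) =>
    exists_dual_num (W := W) X i.1 (Nat.lt_succ_iff.1 i.2)
  refine ⟨Σ i : Fin (X.dim + 1), Fin (numRank ops X i.1), inferInstance, inferInstance,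
    fun k => (e k.1 k.2 : W.H X), fun k => (b k.1 k.2 : W.H X), fun k => k.1.1,
    ⟨fun k => Nat.lt_succ_iff.1 k.1.2, fun k => (e k.1 k.2).2, fun k => (b k.1 k.2).2, ?_⟩, ?_⟩
  · rintro ⟨i, k⟩ ⟨j, l⟩
    by_cases hij : i = j
    · subst hij
      rw [hb i k l]
      by_cases hkl : k = l
      · subst hkl
        simp
      · rw [if_neg hkl, if_neg]
        intro h
        apply hkl
        simpa using h
    · rw [if_neg (fun h => hij (congrArg Sigma.fst h))]
      refine W.tr_eq_zero (W.mul_mem (H914.span_gr (e i k).2) (H914.span_gr (b j l).2)) ?_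
      have h1 := Nat.lt_succ_iff.1 i.2
      have h2 := Nat.lt_succ_iff.1 j.2
      intro h
      apply hij
      apply Fin.ext
      omega
  · intro i hi
    have h1 : (Finset.univ.filter fun k : (Σ i : Fin (X.dim + 1), Fin (numRank ops X i.1)) =>
        (k.1 : ℕ) = i) = (Finset.univ.image fun l : Fin (numRank ops X i) =>
          (⟨⟨i, Nat.lt_succ_iff.2 hi⟩, l⟩ : Σ i : Fin (X.dim + 1), Fin (numRank ops X i.1))) := by
      ext ⟨⟨j, hj⟩, l⟩
      simp only [Finset.mem_filter, Finset.mem_univ, true_and, Finset.mem_image]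
      constructor
      · rintro rfl
        exact ⟨l, rfl⟩
      · rintro ⟨l', h⟩
        have h2 := congrArg Sigma.fst h
        exact (congrArg Fin.val h2).symm
    rw [h1, Finset.card_image_of_injective, Finset.card_univ, Fintype.card_fin]
    intro l l' h
    simpa using h

variable {κ : Type} [Fintype κ] [DecidableEq κ] {e b : κ → W.H X} {d : κ → ℕ}

lemma DFam.kop (h : DFam W X e b d) : dproj W e b ∈ KOp W X X 0 := by
  refine Submodule.sum_mem _ fun k _ => ?_
  have hd := h.hd k
  -- the correspondence `b_k × e_k`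
  have h1 : (W.tr X ∘ₗ LinearMap.mulRight W.K (b k)).smulRight (e k) =
      W.corr (W.map (fst X X) (b k) * W.map (snd X X) (e k)) := by
    apply LinearMap.ext
    intro x
    rw [corr_apply, mul_assoc, W.even_comm (W.map_mem (snd X X) (H914.span_gr (h.he k))),
      ← mul_assoc, W.even_comm (W.map_mem (fst X X) (H914.span_gr (h.hb k))),
      ← map_mul (W.map (fst X X)), W.push_snd]
    rfl
  rw [h1, mem_KOp_iff]
  refine ⟨_, ?_, rfl⟩
  have h2 := (sysA W).mul ((sysA W).map (fst X X) (h.hb k)) ((sysA W).map (snd X X) (h.he k))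
  rw [show X.dim - d k + d k = X.dim by omega] at h2
  rw [add_zero]
  exact h2

end Pool.Agent.N181.Mod

namespace Pool.Agent.N181.Mod

open Pool.Agent.H914 Pool.Agent.H914.VarClass Pool.Agent.H914.VarClass.Obj
  Pool.Agent.H914.WeilCohomology Pool.Agent.H281R3.HT Pool.Agent.W534 Pool.Agent.TH132.P

variable {k : Type u} [Field k] {𝒱 : VarClass k} {ops : CycleOps 𝒱}
  {W : WeilCohomology.{u, v} ops} {X Y Z Z' : 𝒱.Obj} {p : ℕ} {m : ℕ}

section

variable {κ : Type} [Fintype κ] [DecidableEq κ] {d : κ → ℕ}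

lemma conv_modEq {N n : ℕ} {a b : ℕ → ℕ} (hd : ∀ k, d k ≤ N)
    (h : ∀ i ≤ N, a i ≡ (Finset.univ.filter fun k => d k = i).card [MOD m]) (c : ℕ) :
    conv N n a b c ≡ shiftSum d (ez n b) c [MOD m] := by
  have h1 : conv N n a b c = ∑ i ∈ Finset.range (c + 1), ez N a i * ez n b (c - i) := by
    rw [sum_eq_conv (m := N) (n := n)]
    · refine conv_congr (fun i hi => ?_) (fun j hj => ?_)
      · rw [ez, if_pos hi]
      · rw [ez, if_pos hj]
    · intro i hi
      rw [ez, if_neg (by omega)]
    · intro j hj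
      rw [ez, if_neg (by omega)]
  rw [h1, shiftSum_eq]
  have hsum : ∀ (s : Finset ℕ) (f g : ℕ → ℕ), (∀ i ∈ s, f i ≡ g i [MOD m]) →
      ∑ i ∈ s, f i ≡ ∑ i ∈ s, g i [MOD m] := by
    intro s f g hfg
    induction s using Finset.induction_on with
    | empty => exact Nat.ModEq.refl _
    | insert a s ha ih =>
      rw [Finset.sum_insert ha, Finset.sum_insert ha]
      exact Nat.ModEq.add (hfg a (by simp)) (ih fun i hi => hfg i (by simp [hi]))
  refine hsum _ _ _ fun i _ => Nat.ModEq.mul_right _ ?_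
  by_cases hi : i ≤ N
  · rw [ez, if_pos hi]
    exact h i hi
  · rw [ez, if_neg hi]
    have h2 : (Finset.univ.filter fun k => d k = i) = ∅ := by
      rw [Finset.filter_eq_empty_iff]
      intro k _ hk
      have := hd k
      omega
    rw [h2, Finset.card_empty]

end

/-- **The lower bound.** -/
theorem conv_le_defect (Φ : FrobSystem W p) (X Y : 𝒱.Obj) {c : ℕ} (hc : c ≤ (X.prod Y).dim) :
    conv X.dim Y.dim (numRank ops X) (defect Φ Y) c ≤ defect Φ (X.prod Y) c := by
  obtain ⟨κ, _, _, e, b, d, h, hcard⟩ := exists_num_fam W X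
  have hconv : conv X.dim Y.dim (numRank ops X) (defect Φ Y) c =
      shiftSum d (ez Y.dim (defect Φ Y)) c := by
    have h1 := conv_modEq (m := 0) (n := Y.dim) (a := numRank ops X) (b := defect Φ Y) h.hd
      (fun i hi => by rw [hcard i hi]) c
    exact Nat.modEq_zero_iff.1 h1
  rw [hconv]
  have hP' : extOp W (dproj W e b) (1 : Module.End W.K (W.H Y)) *
      extOp W (dproj W e b) 1 = extOp W (dproj W e b) 1 := by rw [extOp_mul, h.idem, mul_one]
  have key : ∀ 𝒮 : Sys W, Module.finrank W.K (𝒮.S (X.prod Y) c) =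
      shiftSum d (fun j => Module.finrank W.K (𝒮.S Y j)) c +
      Module.finrank W.K (𝒮.S (X.prod Y) c ⊓ LinearMap.ker (extOp W (dproj W e b)
        (1 : Module.End W.K (W.H Y))) : Submodule W.K (W.H (X.prod Y))) := by
    intro 𝒮
    rw [finrank_split hP' (T := 𝒮.S (X.prod Y) c) (fun v hv => 𝒮.kop (kop_ext h.kop) hv),
      h.finrank_prod, sum_comp_eq]
  have kT := key (sysT Φ)
  have kA := key (sysA W)
  have kN := key (sysN W)
  change Module.finrank W.K (genT Φ (X.prod Y) c) = shiftSum d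
    (fun j => Module.finrank W.K (genT Φ Y j)) c + Module.finrank W.K
    (genT Φ (X.prod Y) c ⊓ _ : Submodule W.K (W.H (X.prod Y))) at kT
  change Module.finrank W.K (spanCycles W (X.prod Y) (c : ℕ)) = shiftSum d
    (fun j => Module.finrank W.K (spanCycles W Y (j : ℕ))) c + Module.finrank W.K
    (spanCycles W (X.prod Y) (c : ℕ) ⊓ _ : Submodule W.K (W.H (X.prod Y))) at kA
  change Module.finrank W.K (nul W (X.prod Y) c) = shiftSum d
    (fun j => Module.finrank W.K (nul W Y j)) c + Module.finrank W.K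
    (nul W (X.prod Y) c ⊓ _ : Submodule W.K (W.H (X.prod Y))) at kN
  have e1 : (fun j => Module.finrank W.K (genT Φ Y j)) =
      fun j => ez Y.dim (numRank ops Y) j + ez Y.dim (defect Φ Y) j :=
    funext fun j => rank_T Φ j
  have e2 : (fun j : ℕ => Module.finrank W.K (spanCycles W Y (j : ℕ))) =
      fun j => ez Y.dim (numRank ops Y) j + Module.finrank W.K (nul W Y j) :=
    funext fun j => rank_A j
  rw [e1, shiftSum_add] at kT
  rw [e2, shiftSum_add] at kA
  have hd1 := numRank_add_defect (Φ := Φ) (X.prod Y) hc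
  have hd2 := finrank_nul (W := W) (Z := X.prod Y) c
  rw [← numRank_eq (W := W) hc] at hd2
  have hle : Module.finrank W.K (spanCycles W (X.prod Y) (c : ℕ) ⊓ LinearMap.ker
      (extOp W (dproj W e b) (1 : Module.End W.K (W.H Y))) : Submodule W.K (W.H (X.prod Y))) ≤
      Module.finrank W.K (genT Φ (X.prod Y) c ⊓ LinearMap.ker
      (extOp W (dproj W e b) (1 : Module.End W.K (W.H Y))) : Submodule W.K (W.H (X.prod Y))) :=
    Submodule.finrank_mono (inf_le_inf_right _ (span_le_genT Φ (X.prod Y) c))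
  omega

section Main

variable {κ : Type} [Fintype κ] [DecidableEq κ] {e b : κ → W.H X} {d : κ → ℕ}

/-- **The ranks of the cycles on the product modulo `m`.** -/
theorem master_num [IsAlgClosed W.K] {φ R G : Module.End W.K (W.H X)} (hφ : ROp W X 0 φ)
    (hR : R ∈ KOp W X X 0) (hsplit : IsSplit m φ R) (hG : IsGood W X m G)
    (hdf : DFam W X e b d) (hsum : dproj W e b + G + R = 1)
    (Y : 𝒱.Obj) {c : ℕ} (hc : c ≤ (X.prod Y).dim) :
    conv X.dim Y.dim (numRank ops X) (numRank ops Y) c ≡ numRank ops (X.prod Y) c [MOD m] := by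
  have hP := hdf.kop
  have hP' : extOp W (dproj W e b) (1 : Module.End W.K (W.H Y)) *
      extOp W (dproj W e b) 1 = extOp W (dproj W e b) 1 := by rw [extOp_mul, hdf.idem, mul_one]
  have hG' : extOp W G (1 : Module.End W.K (W.H Y)) * extOp W G 1 = extOp W G 1 := by
    rw [extOp_mul, hG.idem, mul_one]
  have hR' : extOp W R (1 : Module.End W.K (W.H Y)) * extOp W R 1 = extOp W R 1 := by
    rw [extOp_mul, hsplit.1, mul_one]
  have hs' : extOp W (dproj W e b) (1 : Module.End W.K (W.H Y)) + extOp W G 1 +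
      extOp W R 1 = 1 := by
    rw [← extOp_add_left, ← extOp_add_left, hsum, extOp_one]
  have key : ∀ 𝒮 : Sys W, Module.finrank W.K (𝒮.S (X.prod Y) c) =
      shiftSum d (fun j => Module.finrank W.K (𝒮.S Y j)) c +
      Module.finrank W.K (𝒮.S (X.prod Y) c ⊓ LinearMap.range (extOp W G
        (1 : Module.End W.K (W.H Y))) : Submodule W.K (W.H (X.prod Y))) +
      Module.finrank W.K (𝒮.S (X.prod Y) c ⊓ LinearMap.range (extOp W R
        (1 : Module.End W.K (W.H Y))) : Submodule W.K (W.H (X.prod Y))) := by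
    intro 𝒮
    rw [finrank_split3 hP' hG' hR' hs' (Q := 𝒮.S (X.prod Y) c)
      (fun v hv => 𝒮.kop (kop_ext hP) hv) (fun v hv => 𝒮.kop (kop_ext hG.kop) hv)
      (fun v hv => 𝒮.kop (kop_ext hR) hv), hdf.finrank_prod, sum_comp_eq]
  have kA := key (sysA W)
  have kN := key (sysN W)
  have gA := hG.prod Y _ ((sysA W).stab (X.prod Y) c)
  have gN := hG.prod Y _ ((sysN W).stab (X.prod Y) c)
  obtain ⟨r, hr, rA⟩ := dvd_alg hc (rop_ext (Y := Y) hφ) (kop_ext hR) hsplit.ext
  change Module.finrank W.K (spanCycles W (X.prod Y) (c : ℕ)) = shiftSum d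
    (fun j => Module.finrank W.K (spanCycles W Y (j : ℕ))) c + Module.finrank W.K
    (spanCycles W (X.prod Y) (c : ℕ) ⊓ _ : Submodule W.K (W.H (X.prod Y))) + Module.finrank W.K
    (spanCycles W (X.prod Y) (c : ℕ) ⊓ _ : Submodule W.K (W.H (X.prod Y))) at kA
  change Module.finrank W.K (nul W (X.prod Y) c) = shiftSum d
    (fun j => Module.finrank W.K (nul W Y j)) c + Module.finrank W.K
    (nul W (X.prod Y) c ⊓ _ : Submodule W.K (W.H (X.prod Y))) + Module.finrank W.K
    (nul W (X.prod Y) c ⊓ _ : Submodule W.K (W.H (X.prod Y))) at kN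
  have e2 : (fun j : ℕ => Module.finrank W.K (spanCycles W Y (j : ℕ))) =
      fun j => ez Y.dim (numRank ops Y) j + Module.finrank W.K (nul W Y j) :=
    funext fun j => rank_A j
  rw [e2, shiftSum_add] at kA
  have hd2 := finrank_nul (W := W) (Z := X.prod Y) c
  rw [← numRank_eq (W := W) hc] at hd2
  rw [rA] at kA
  have h1 : conv X.dim Y.dim (numRank ops X) (numRank ops Y) c ≡
      shiftSum d (ez Y.dim (numRank ops Y)) c [MOD m] := by
    refine conv_modEq hdf.hd (fun i hi => ?_) c
    obtain ⟨r, s, hr, hs, hrs⟩ := master_rank hφ hR hsplit hG hdf hsum hdf.kop hi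
    have h2 : numRank ops X i + r ≡ numRank ops X i + 0 [MOD m] :=
      Nat.ModEq.add_left _ ((Nat.modEq_zero_iff_dvd).2 hr)
    have h3 : (Finset.univ.filter fun k => d k = i).card + s ≡
        (Finset.univ.filter fun k => d k = i).card + 0 [MOD m] :=
      Nat.ModEq.add_left _ ((Nat.modEq_zero_iff_dvd).2 hs)
    rw [hrs] at h2
    exact h2.symm.trans h3
  refine h1.trans ?_
  have h4 : numRank ops (X.prod Y) c + Module.finrank W.K (nul W (X.prod Y) c ⊓ LinearMap.range
      (extOp W G (1 : Module.End W.K (W.H Y))) : Submodule W.K (W.H (X.prod Y))) =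
      shiftSum d (ez Y.dim (numRank ops Y)) c + (Module.finrank W.K (spanCycles W (X.prod Y)
      (c : ℕ) ⊓ LinearMap.range (extOp W G (1 : Module.End W.K (W.H Y))) :
        Submodule W.K (W.H (X.prod Y))) + r) := by omega
  have h5 : numRank ops (X.prod Y) c + Module.finrank W.K (nul W (X.prod Y) c ⊓ LinearMap.range
      (extOp W G (1 : Module.End W.K (W.H Y))) : Submodule W.K (W.H (X.prod Y))) ≡
      numRank ops (X.prod Y) c + 0 [MOD m] :=
    Nat.ModEq.add_left _ ((Nat.modEq_zero_iff_dvd).2 gN)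
  have h6 : shiftSum d (ez Y.dim (numRank ops Y)) c + (Module.finrank W.K (spanCycles W
      (X.prod Y) (c : ℕ) ⊓ LinearMap.range (extOp W G (1 : Module.End W.K (W.H Y))) :
        Submodule W.K (W.H (X.prod Y))) + r) ≡
      shiftSum d (ez Y.dim (numRank ops Y)) c + 0 [MOD m] :=
    Nat.ModEq.add_left _ ((Nat.modEq_zero_iff_dvd).2 (dvd_add gA hr))
  rw [h4] at h5
  exact h6.symm.trans h5

/-- **The Kunneth formula modulo `m` for the defects.** -/
theorem master (Φ : FrobSystem W p) {σ : W.K →+* ℂ} [IsAlgClosed W.K] (hp : 1 < p)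
    (hRH : ∀ Z : 𝒱.Obj, RiemannHyp Φ σ Z) {φ R G : Module.End W.K (W.H X)} (hφ : ROp W X 0 φ)
    (hR : R ∈ KOp W X X 0) (hsplit : IsSplit m φ R) (hG : IsGood W X m G)
    (hdf : DFam W X e b d) (hsum : dproj W e b + G + R = 1)
    (Y : 𝒱.Obj) {c : ℕ} (hc : c ≤ (X.prod Y).dim) :
    conv X.dim Y.dim (numRank ops X) (defect Φ Y) c ≤ defect Φ (X.prod Y) c ∧
      conv X.dim Y.dim (numRank ops X) (defect Φ Y) c ≡ defect Φ (X.prod Y) c [MOD m] := by
  refine ⟨conv_le_defect Φ X Y hc, ?_⟩
  obtain ⟨r, s, hr, hs, hrs⟩ := master_defect Φ hp hRH hφ hR hsplit hG hdf hsum hdf.kop Y hc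
  have h1 : shiftSum d (ez Y.dim (defect Φ Y)) c ≡ defect Φ (X.prod Y) c [MOD m] := by
    have h2 : defect Φ (X.prod Y) c + r ≡ defect Φ (X.prod Y) c + 0 [MOD m] :=
      Nat.ModEq.add_left _ ((Nat.modEq_zero_iff_dvd).2 hr)
    have h3 : shiftSum d (ez Y.dim (defect Φ Y)) c + s ≡
        shiftSum d (ez Y.dim (defect Φ Y)) c + 0 [MOD m] :=
      Nat.ModEq.add_left _ ((Nat.modEq_zero_iff_dvd).2 hs)
    rw [hrs] at h2
    exact h3.symm.trans h2
  refine (conv_modEq hdf.hd (fun i hi => ?_) c).trans h1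
  obtain ⟨r, s, hr, hs, hrs⟩ := master_rank hφ hR hsplit hG hdf hsum hdf.kop hi
  have h2 : numRank ops X i + r ≡ numRank ops X i + 0 [MOD m] :=
    Nat.ModEq.add_left _ ((Nat.modEq_zero_iff_dvd).2 hr)
  have h3 : (Finset.univ.filter fun k => d k = i).card + s ≡
      (Finset.univ.filter fun k => d k = i).card + 0 [MOD m] :=
    Nat.ModEq.add_left _ ((Nat.modEq_zero_iff_dvd).2 hs)
  rw [hrs] at h2
  exact h2.symm.trans h3

end Main

end Pool.Agent.N181.Mod
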