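import Pool.Agent.N181.Mod.Blocks

/-!
# The defect of a product modulo `m`
-/

set_option autoImplicit false

open CategoryTheory AlgebraicGeometry Polynomial

universe u v

namespace Pool.Agent.N181.Mod

open Pool.Agent.H914 Pool.Agent.H914.VarClass Pool.Agent.H914.VarClass.Obj
  Pool.Agent.H914.WeilCohomology Pool.Agent.H281R3.HT Pool.Agent.W534 Pool.Agent.TH132.P

variable {k : Type u} [Field k] {𝒱 : VarClass k} {ops : CycleOps 𝒱}
  {W : WeilCohomology.{u, v} ops} {X Y Z Z' : 𝒱.Obj} {p : ℕ} {m : ℕ}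

/-- The subspace `Q` is stable under the algebraic correspondences of degree zero. -/
def IsStab (W : WeilCohomology.{u, v} ops) (X : 𝒱.Obj) (Q : Submodule W.K (W.H X)) : Prop :=
  ∀ u ∈ KOp W X X 0, ∀ v ∈ Q, u v ∈ Q

lemma Sys.stab (𝒮 : Sys W) (Z : 𝒱.Obj) (c : ℕ) : IsStab W Z (𝒮.S Z c) :=
  fun _ hu _ hv => 𝒮.kop hu hv

/-- The contribution of the projector `G` to all dimensions is divisible by `m`. -/
structure IsGood (W : WeilCohomology.{u, v} ops) (X : 𝒱.Obj) (m : ℕ)
    (G : Module.End W.K (W.H X)) : Prop where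
  idem : G * G = G
  kop : G ∈ KOp W X X 0
  self : ∀ Q, IsStab W X Q → m ∣ Module.finrank W.K (Q ⊓ LinearMap.range G :
    Submodule W.K (W.H X))
  prod : ∀ Y Q, IsStab W (X.prod Y) Q → m ∣ Module.finrank W.K (Q ⊓ LinearMap.range
    (extOp W G (1 : Module.End W.K (W.H Y))) : Submodule W.K (W.H (X.prod Y)))

lemma IsGood.zero : IsGood W X m (0 : Module.End W.K (W.H X)) where
  idem := by rw [mul_zero]
  kop := Submodule.zero_mem _
  self Q _ := by rw [LinearMap.range_zero, inf_bot_eq, finrank_bot]; exact dvd_zero m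
  prod Y Q _ := by
    rw [extOp_zero_left, LinearMap.range_zero, inf_bot_eq, finrank_bot]; exact dvd_zero m

lemma extOp_units {n : ℕ} {E : Fin n → Fin n → Module.End W.K (W.H X)} (h : IsUnits E) :
    IsUnits fun i j => extOp W (E i j) (1 : Module.End W.K (W.H Y)) := by
  intro i j j' l
  rw [extOp_mul, h, mul_one]
  split_ifs
  · rfl
  · exact extOp_zero_left _

/-- Matrix units. -/
lemma IsGood.units {n : ℕ} (hn : m ∣ n) {E : Fin n → Fin n → Module.End W.K (W.H X)}
    (h : IsUnits E) (hE : ∀ i j, E i j ∈ KOp W X X 0) : IsGood W X m (∑ i, E i i) where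
  idem := h.idem
  kop := Submodule.sum_mem _ fun i _ => hE i i
  self Q hQ := hn.trans (h.dvd fun i j v hv => hQ _ (hE i j) v hv)
  prod Y Q hQ := by
    have h1 : extOp W (∑ i, E i i) (1 : Module.End W.K (W.H Y)) =
        ∑ i, extOp W (E i i) (1 : Module.End W.K (W.H Y)) := extOp_sum _ _ _
    rw [h1]
    exact hn.trans ((extOp_units h).dvd fun i j v hv => hQ _ (kop_ext (hE i j)) v hv)

lemma finrank_add_inf {V : Type*} [AddCommGroup V] [Module W.K V] [FiniteDimensional W.K V]
    {G G' : Module.End W.K V} (hG : G * G = G) (hG' : G' * G' = G') (h : G * G' = 0)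
    (h' : G' * G = 0) {Q : Submodule W.K V} (h1 : ∀ v ∈ Q, G v ∈ Q) (h2 : ∀ v ∈ Q, G' v ∈ Q) :
    Module.finrank W.K (Q ⊓ LinearMap.range (G + G') : Submodule W.K V) =
      Module.finrank W.K (Q ⊓ LinearMap.range G : Submodule W.K V) +
      Module.finrank W.K (Q ⊓ LinearMap.range G' : Submodule W.K V) := by
  have h3 : ∀ v ∈ Q, (G + G') v ∈ Q := fun v hv => Submodule.add_mem _ (h1 v hv) (h2 v hv)
  have e1 : (G + G').restrict h3 = G.restrict h1 + G'.restrict h2 := by
    ext v; rfl
  have hs : (G + G') * (G + G') = G + G' := by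
    rw [mul_add, add_mul, add_mul, hG, hG', h, h']
    simp
  have e2 := congrArg (LinearMap.trace W.K Q) e1
  rw [map_add, trace_restrict_idem hs, trace_restrict_idem hG, trace_restrict_idem hG'] at e2
  exact_mod_cast e2

/-- Orthogonal sums. -/
lemma IsGood.add {G G' : Module.End W.K (W.H X)} (hG : IsGood W X m G) (hG' : IsGood W X m G')
    (h : G * G' = 0) (h' : G' * G = 0) : IsGood W X m (G + G') where
  idem := by
    rw [mul_add, add_mul, add_mul, hG.idem, hG'.idem, h, h']
    simp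
  kop := Submodule.add_mem _ hG.kop hG'.kop
  self Q hQ := by
    rw [finrank_add_inf hG.idem hG'.idem h h' (fun v hv => hQ _ hG.kop v hv)
      (fun v hv => hQ _ hG'.kop v hv)]
    exact dvd_add (hG.self Q hQ) (hG'.self Q hQ)
  prod Y Q hQ := by
    rw [extOp_add_left, finrank_add_inf (by rw [extOp_mul, hG.idem, mul_one])
      (by rw [extOp_mul, hG'.idem, mul_one]) (by rw [extOp_mul, h, extOp_zero_left])
      (by rw [extOp_mul, h', extOp_zero_left]) (fun v hv => hQ _ (kop_ext hG.kop) v hv)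
      (fun v hv => hQ _ (kop_ext hG'.kop) v hv)]
    exact dvd_add (hG.prod Y Q hQ) (hG'.prod Y Q hQ)

section Count

variable {κ : Type} [Fintype κ] {d : κ → ℕ}

/-- The sum over the family of the values in the complementary codimension. -/
def shiftSum (d : κ → ℕ) (a : ℕ → ℕ) (c : ℕ) : ℕ := ∑ k, if d k ≤ c then a (c - d k) else 0

lemma shiftSum_add (a b : ℕ → ℕ) (c : ℕ) :
    shiftSum d (fun j => a j + b j) c = shiftSum d a c + shiftSum d b c := by
  rw [shiftSum, shiftSum, shiftSum, ← Finset.sum_add_distrib]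
  refine Finset.sum_congr rfl fun k _ => ?_
  split_ifs <;> rfl

lemma sum_comp_eq (S : ℕ → Submodule W.K (W.H Y)) (c : ℕ) :
    ∑ k, Module.finrank W.K (TH132.P.comp S c (d k)) =
      shiftSum d (fun j => Module.finrank W.K (S j)) c := by
  refine Finset.sum_congr rfl fun k _ => ?_
  by_cases hk : d k ≤ c
  · rw [TH132.P.comp, if_pos hk, if_pos hk]
  · rw [TH132.P.comp, if_neg hk, if_neg hk, finrank_bot]

lemma shiftSum_eq [DecidableEq κ] (a : ℕ → ℕ) (c : ℕ) :
    shiftSum d a c = ∑ i ∈ Finset.range (c + 1),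
      (Finset.univ.filter fun k => d k = i).card * a (c - i) := by
  have h1 : ∀ k, (if d k ≤ c then a (c - d k) else 0) = ∑ i ∈ Finset.range (c + 1),
      if d k = i then a (c - i) else 0 := by
    intro k
    rw [Finset.sum_ite_eq]
    by_cases hk : d k ≤ c
    · rw [if_pos hk, if_pos (Finset.mem_range.2 (by omega))]
    · rw [if_neg hk, if_neg (fun hh => hk (by have := Finset.mem_range.1 hh; omega))]
  rw [shiftSum, Finset.sum_congr rfl fun k _ => h1 k, Finset.sum_comm]
  refine Finset.sum_congr rfl fun i _ => ?_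
  rw [← Finset.sum_filter, Finset.sum_const, smul_eq_mul]

end Count

/-- All generalised Tate classes: dimension. -/
lemma rank_T (Φ : FrobSystem W p) (j : ℕ) :
    Module.finrank W.K (genT Φ Y j) =
      (if j ≤ Y.dim then numRank ops Y j else 0) + if j ≤ Y.dim then defect Φ Y j else 0 := by
  by_cases hj : j ≤ Y.dim
  · rw [if_pos hj, if_pos hj, numRank_add_defect Y hj]
  · rw [if_neg hj, if_neg hj, genT_bot (by omega), finrank_bot]

lemma rank_A (j : ℕ) :
    Module.finrank W.K (spanCycles W Y (j : ℕ)) =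
      (if j ≤ Y.dim then numRank ops Y j else 0) + Module.finrank W.K (nul W Y j) := by
  by_cases hj : j ≤ Y.dim
  · rw [if_pos hj, ← finrank_nul (W := W) (Z := Y) j, numRank_eq (W := W) hj]
  · rw [if_neg hj, spanCycles_bot (by omega), nul_bot (by omega), finrank_bot]

section Main

variable {κ : Type} [Fintype κ] [DecidableEq κ] {e b : κ → W.H X} {d : κ → ℕ}

/-- The value, extended by zero. -/
def ez (n : ℕ) (a : ℕ → ℕ) (j : ℕ) : ℕ := if j ≤ n then a j else 0

/-- **The defect of the product.** -/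
theorem master_defect (Φ : FrobSystem W p) {σ : W.K →+* ℂ} [IsAlgClosed W.K] (hp : 1 < p)
    (hRH : ∀ Z : 𝒱.Obj, RiemannHyp Φ σ Z) {φ R G : Module.End W.K (W.H X)} (hφ : ROp W X 0 φ)
    (hR : R ∈ KOp W X X 0) (hsplit : IsSplit m φ R) (hG : IsGood W X m G)
    (hdf : DFam W X e b d) (hsum : dproj W e b + G + R = 1) (hP : dproj W e b ∈ KOp W X X 0)
    (Y : 𝒱.Obj) {c : ℕ} (hc : c ≤ (X.prod Y).dim) :
    ∃ r s : ℕ, m ∣ r ∧ m ∣ s ∧
      defect Φ (X.prod Y) c + r = shiftSum d (ez Y.dim (defect Φ Y)) c + s := by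
  have hP' : extOp W (dproj W e b) (1 : Module.End W.K (W.H Y)) *
      extOp W (dproj W e b) 1 = extOp W (dproj W e b) 1 := by rw [extOp_mul, hdf.idem, mul_one]
  have hG' : extOp W G (1 : Module.End W.K (W.H Y)) * extOp W G 1 = extOp W G 1 := by
    rw [extOp_mul, hG.idem, mul_one]
  have hR' : extOp W R (1 : Module.End W.K (W.H Y)) * extOp W R 1 = extOp W R 1 := by
    rw [extOp_mul, hsplit.1, mul_one]
  have hs' : extOp W (dproj W e b) (1 : Module.End W.K (W.H Y)) + extOp W G 1 +
      extOp W R 1 = 1 := by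
    rw [← extOp_add_left, ← extOp_add_left, hsum, extOp_one]
  -- the three dimensions
  have key : ∀ 𝒮 : Sys W, Module.finrank W.K (𝒮.S (X.prod Y) c) =
      shiftSum d (fun j => Module.finrank W.K (𝒮.S Y j)) c +
      Module.finrank W.K (𝒮.S (X.prod Y) c ⊓ LinearMap.range (extOp W G
        (1 : Module.End W.K (W.H Y))) : Submodule W.K (W.H (X.prod Y))) +
      Module.finrank W.K (𝒮.S (X.prod Y) c ⊓ LinearMap.range (extOp W R
        (1 : Module.End W.K (W.H Y))) : Submodule W.K (W.H (X.prod Y))) := by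
    intro 𝒮
    rw [finrank_split3 hP' hG' hR' hs' (Q := 𝒮.S (X.prod Y) c)
      (fun v hv => 𝒮.kop (kop_ext hP) hv) (fun v hv => 𝒮.kop (kop_ext hG.kop) hv)
      (fun v hv => 𝒮.kop (kop_ext hR) hv), hdf.finrank_prod, sum_comp_eq]
  have kT := key (sysT Φ)
  have kA := key (sysA W)
  have kN := key (sysN W)
  have gT := hG.prod Y _ ((sysT Φ).stab (X.prod Y) c)
  have gA := hG.prod Y _ ((sysA W).stab (X.prod Y) c)
  have gN := hG.prod Y _ ((sysN W).stab (X.prod Y) c)
  have rT := dvd_genT Φ hp (hRH _) c (rop_ext (Y := Y) hφ) (kop_ext hR) hsplit.ext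
  obtain ⟨r, hr, rA⟩ := dvd_alg hc (rop_ext (Y := Y) hφ) (kop_ext hR) hsplit.ext
  change Module.finrank W.K (genT Φ (X.prod Y) c) = shiftSum d
    (fun j => Module.finrank W.K (genT Φ Y j)) c + _ + _ at kT
  change Module.finrank W.K (spanCycles W (X.prod Y) (c : ℕ)) = shiftSum d
    (fun j => Module.finrank W.K (spanCycles W Y (j : ℕ))) c + _ + _ at kA
  change Module.finrank W.K (nul W (X.prod Y) c) = shiftSum d
    (fun j => Module.finrank W.K (nul W Y j)) c + _ + _ at kN
  have e1 : (fun j => Module.finrank W.K (genT Φ Y j)) =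
      fun j => ez Y.dim (numRank ops Y) j + ez Y.dim (defect Φ Y) j :=
    funext fun j => rank_T Φ j
  have e2 : (fun j : ℕ => Module.finrank W.K (spanCycles W Y (j : ℕ))) =
      fun j => ez Y.dim (numRank ops Y) j + Module.finrank W.K (nul W Y j) :=
    funext fun j => rank_A j
  rw [e1, shiftSum_add] at kT
  rw [e2, shiftSum_add] at kA
  have hd1 := numRank_add_defect (Φ := Φ) (X.prod Y) hc
  have hd2 := finrank_nul (W := W) (Z := X.prod Y) c
  rw [← numRank_eq (W := W) hc] at hd2
  refine ⟨Module.finrank W.K (spanCycles W (X.prod Y) (c : ℕ) ⊓ LinearMap.range (extOp W G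
      (1 : Module.End W.K (W.H Y))) : Submodule W.K (W.H (X.prod Y))) + r,
    Module.finrank W.K (genT Φ (X.prod Y) c ⊓ LinearMap.range (extOp W G
      (1 : Module.End W.K (W.H Y))) : Submodule W.K (W.H (X.prod Y))) +
    Module.finrank W.K (genT Φ (X.prod Y) c ⊓ LinearMap.range (extOp W R
      (1 : Module.End W.K (W.H Y))) : Submodule W.K (W.H (X.prod Y))) +
    Module.finrank W.K (nul W (X.prod Y) c ⊓ LinearMap.range (extOp W G
      (1 : Module.End W.K (W.H Y))) : Submodule W.K (W.H (X.prod Y))),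
    dvd_add gA hr, dvd_add (dvd_add gT rT) gN, ?_⟩
  change Module.finrank W.K (genT Φ (X.prod Y) c) = _ + Module.finrank W.K
    (genT Φ (X.prod Y) c ⊓ _ : Submodule W.K (W.H (X.prod Y))) + Module.finrank W.K
    (genT Φ (X.prod Y) c ⊓ _ : Submodule W.K (W.H (X.prod Y))) at kT
  change Module.finrank W.K (spanCycles W (X.prod Y) (c : ℕ)) = _ + Module.finrank W.K
    (spanCycles W (X.prod Y) (c : ℕ) ⊓ _ : Submodule W.K (W.H (X.prod Y))) + Module.finrank W.K
    (spanCycles W (X.prod Y) (c : ℕ) ⊓ _ : Submodule W.K (W.H (X.prod Y))) at kA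
  change Module.finrank W.K (nul W (X.prod Y) c) = _ + Module.finrank W.K
    (nul W (X.prod Y) c ⊓ _ : Submodule W.K (W.H (X.prod Y))) + Module.finrank W.K
    (nul W (X.prod Y) c ⊓ _ : Submodule W.K (W.H (X.prod Y))) at kN
  rw [rA] at kA
  omega

/-- The ranks of the cycles on `X`. -/
theorem master_rank [IsAlgClosed W.K] {φ R G : Module.End W.K (W.H X)} (hφ : ROp W X 0 φ)
    (hR : R ∈ KOp W X X 0) (hsplit : IsSplit m φ R) (hG : IsGood W X m G)
    (hdf : DFam W X e b d) (hsum : dproj W e b + G + R = 1) (hP : dproj W e b ∈ KOp W X X 0)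
    {i : ℕ} (hi : i ≤ X.dim) :
    ∃ r s : ℕ, m ∣ r ∧ m ∣ s ∧
      numRank ops X i + r = (Finset.univ.filter fun k => d k = i).card + s := by
  have kA := finrank_split3 hdf.idem hG.idem hsplit.1 hsum (Q := spanCycles W X (i : ℕ))
      (fun v hv => (sysA W).kop hP hv) (fun v hv => (sysA W).kop hG.kop hv)
      (fun v hv => (sysA W).kop hR hv)
  have kN := finrank_split3 hdf.idem hG.idem hsplit.1 hsum (Q := nul W X i)
      (fun v hv => (sysN W).kop hP hv) (fun v hv => (sysN W).kop hG.kop hv)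
      (fun v hv => (sysN W).kop hR hv)
  have gA := hG.self _ ((sysA W).stab X i)
  have gN := hG.self _ ((sysN W).stab X i)
  obtain ⟨r, hr, rA⟩ := dvd_alg hi hφ hR hsplit
  rw [hdf.finrank_alg, rA] at kA
  rw [hdf.nul_inf, finrank_bot] at kN
  have hd2 := finrank_nul (W := W) (Z := X) i
  rw [← numRank_eq (W := W) hi] at hd2
  refine ⟨_, _, gN, dvd_add gA hr, ?_⟩
  change numRank ops X i + Module.finrank W.K (nul W X i ⊓ _ : Submodule W.K (W.H X)) = _ +
    (Module.finrank W.K (spanCycles W X (i : ℕ) ⊓ _ : Submodule W.K (W.H X)) + r)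
  omega

end Main

end Pool.Agent.N181.Mod
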