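import Pool.Agent.N181.Mod.GeoA

/-!
# Operators split by the degrees of the eigenvalues
-/

set_option autoImplicit false

open Polynomial

namespace Pool.Agent.N181.Mod

section

variable {K : Type*} [Field K] [CharZero K] {V : Type*} [AddCommGroup V] [Module K V]

/-- The projector `R` commutes with `ψ`, the eigenvalues of `ψ` on the image of `R` have degree
divisible by `m` and those on the kernel do not. -/
def IsSplit (m : ℕ) (ψ R : Module.End K V) : Prop :=
  R * R = R ∧ ψ * R = R * ψ ∧
    (∃ q : K[X], (∀ α, q.eval α = 0 → m ∣ qdeg α) ∧ aeval ψ q * R = 0) ∧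
    ∃ q : K[X], (∀ α, q.eval α = 0 → ¬ m ∣ qdeg α) ∧ aeval ψ q * (1 - R) = 0

omit [CharZero K] in
lemma aeval_apply_eig {ψ : Module.End K V} {α : K} {v : V} (h : ψ v = α • v) (q : K[X]) :
    aeval ψ q v = q.eval α • v := by
  induction q using Polynomial.induction_on' with
  | add p q hp hq => rw [map_add, LinearMap.add_apply, hp, hq, eval_add, add_smul]
  | monomial n c =>
    have h1 : ∀ n : ℕ, (ψ ^ n) v = α ^ n • v := by
      intro n
      induction n with
      | zero => rw [pow_zero, pow_zero, one_smul]; rfl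
      | succ n ih => rw [pow_succ', Module.End.mul_apply, ih, map_smul, h, smul_smul, pow_succ]
    rw [aeval_monomial, Module.End.mul_apply, h1, Module.algebraMap_end_apply, eval_monomial,
      smul_smul]

variable {m : ℕ} {ψ R : Module.End K V}

theorem IsSplit.dvd [IsAlgClosed K] [FiniteDimensional K V] (h : IsSplit m ψ R)
    (htr : ∀ n : ℕ, ∃ q : ℚ, LinearMap.trace K V (ψ ^ n) = (q : K)) :
    m ∣ Module.finrank K (LinearMap.range R) := by
  obtain ⟨h1, h2, ⟨q, hq, hq'⟩, ⟨q₂, hq₂, hq₂'⟩⟩ := h
  refine dvd_finrank_range m ψ R htr h1 h2 ?_ ?_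
  · intro α v hv hv0 hRv
    apply hq
    have h3 := congrArg (fun f => f v) hq'
    simp only [Module.End.mul_apply, hRv, LinearMap.zero_apply, aeval_apply_eig hv] at h3
    exact (smul_eq_zero.1 h3).resolve_right hv0
  · intro α v hv hv0 hRv
    apply hq₂
    have h3 := congrArg (fun f => f v) hq₂'
    simp only [Module.End.mul_apply, LinearMap.sub_apply, Module.End.one_apply, hRv, sub_zero,
      LinearMap.zero_apply, aeval_apply_eig hv] at h3
    exact (smul_eq_zero.1 h3).resolve_right hv0

omit [CharZero K] in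
lemma aeval_restrict_apply {T : Submodule K V} (hψ : ∀ v ∈ T, ψ v ∈ T) (q : K[X]) (v : T) :
    ((aeval (ψ.restrict hψ) q v : T) : V) = aeval ψ q (v : V) := by
  induction q using Polynomial.induction_on' with
  | add p q hp hq =>
    rw [map_add, map_add, LinearMap.add_apply, LinearMap.add_apply, Submodule.coe_add, hp, hq]
  | monomial n c =>
    rw [aeval_monomial, aeval_monomial, Module.End.mul_apply, Module.End.mul_apply,
      Module.algebraMap_end_apply, Module.algebraMap_end_apply, Submodule.coe_smul,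
      Module.End.pow_restrict n hψ]
    rfl

lemma IsSplit.restrict (h : IsSplit m ψ R) {T : Submodule K V} (hψ : ∀ v ∈ T, ψ v ∈ T)
    (hR : ∀ v ∈ T, R v ∈ T) : IsSplit m (ψ.restrict hψ) (R.restrict hR) := by
  obtain ⟨h1, h2, ⟨q, hq, hq'⟩, ⟨q₂, hq₂, hq₂'⟩⟩ := h
  refine ⟨?_, ?_, ⟨q, hq, ?_⟩, ⟨q₂, hq₂, ?_⟩⟩
  · ext v
    exact congrArg (fun f => f (v : V)) h1
  · ext v
    exact congrArg (fun f => f (v : V)) h2
  · ext v
    rw [Module.End.mul_apply, aeval_restrict_apply]
    exact congrArg (fun f => f (v : V)) hq'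
  · ext v
    rw [Module.End.mul_apply, aeval_restrict_apply]
    exact congrArg (fun f => f (v : V)) hq₂'

omit [CharZero K] in
lemma aeval_mapQ_apply {N : Submodule K V} (hψ : N ≤ N.comap ψ) (q : K[X]) (v : V) :
    aeval (N.mapQ N ψ hψ) q (N.mkQ v) = N.mkQ (aeval ψ q v) := by
  induction q using Polynomial.induction_on' with
  | add p q hp hq =>
    rw [map_add, map_add, LinearMap.add_apply, LinearMap.add_apply, hp, hq, map_add]
  | monomial n c =>
    have h1 : ∀ n : ℕ, ((N.mapQ N ψ hψ) ^ n) (N.mkQ v) = N.mkQ ((ψ ^ n) v) := by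
      intro n
      induction n with
      | zero => rfl
      | succ n ih =>
        rw [pow_succ', Module.End.mul_apply, ih, pow_succ', Module.End.mul_apply]
        rfl
    rw [aeval_monomial, aeval_monomial, Module.End.mul_apply, Module.End.mul_apply, h1,
      Module.algebraMap_end_apply, Module.algebraMap_end_apply, map_smul]

lemma IsSplit.quot (h : IsSplit m ψ R) {N : Submodule K V} (hψ : N ≤ N.comap ψ)
    (hR : N ≤ N.comap R) : IsSplit m (N.mapQ N ψ hψ) (N.mapQ N R hR) := by
  obtain ⟨h1, h2, ⟨q, hq, hq'⟩, ⟨q₂, hq₂, hq₂'⟩⟩ := h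
  refine ⟨?_, ?_, ⟨q, hq, ?_⟩, ⟨q₂, hq₂, ?_⟩⟩
  · apply Submodule.linearMap_qext
    ext v
    exact congrArg (fun f => N.mkQ (f (v : V))) h1
  · apply Submodule.linearMap_qext
    ext v
    exact congrArg (fun f => N.mkQ (f (v : V))) h2
  · apply Submodule.linearMap_qext
    ext v
    change aeval (N.mapQ N ψ hψ) q (N.mkQ (R v)) = 0
    rw [aeval_mapQ_apply]
    have := congrArg (fun f => N.mkQ (f (v : V))) hq'
    simpa using this
  · apply Submodule.linearMap_qext
    ext v
    change aeval (N.mapQ N ψ hψ) q₂ (N.mkQ ((1 - R) v)) = 0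
    rw [aeval_mapQ_apply]
    have := congrArg (fun f => N.mkQ (f (v : V))) hq₂'
    simpa using this

omit [CharZero K] in
/-- The image of an idempotent on a stable subspace. -/
lemma finrank_range_restrict (hR : R * R = R) {T : Submodule K V} (h : ∀ v ∈ T, R v ∈ T) :
    Module.finrank K (LinearMap.range (R.restrict h)) =
      Module.finrank K (T ⊓ LinearMap.range R : Submodule K V) := by
  have h1 : (LinearMap.range (R.restrict h)).map T.subtype = T ⊓ LinearMap.range R := by
    ext v
    constructor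
    · rintro ⟨_, ⟨w, rfl⟩, rfl⟩
      exact ⟨(R.restrict h w).2, ⟨(w : V), rfl⟩⟩
    · rintro ⟨hv, w, rfl⟩
      refine ⟨⟨R w, hv⟩, ⟨⟨R w, hv⟩, ?_⟩, rfl⟩
      apply Subtype.ext
      change R (R w) = R w
      rw [← Module.End.mul_apply, hR]
  rw [← h1]
  exact (LinearEquiv.finrank_eq (Submodule.equivMapOfInjective _
    (Submodule.subtype_injective _) _))

omit [CharZero K] in
/-- The image of an idempotent on a quotient. -/
lemma finrank_range_mapQ [FiniteDimensional K V] (hR : R * R = R) {N : Submodule K V}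
    (h : N ≤ N.comap R) :
    Module.finrank K (LinearMap.range (N.mapQ N R h)) +
      Module.finrank K (N ⊓ LinearMap.range R : Submodule K V) =
      Module.finrank K (LinearMap.range R) := by
  set g : LinearMap.range R →ₗ[K] V ⧸ N := N.mkQ ∘ₗ (LinearMap.range R).subtype with hg
  have h1 : LinearMap.range g = LinearMap.range (N.mapQ N R h) := by
    ext x
    constructor
    · rintro ⟨⟨_, w, rfl⟩, rfl⟩
      exact ⟨N.mkQ w, rfl⟩
    · rintro ⟨x, rfl⟩
      obtain ⟨w, rfl⟩ := N.mkQ_surjective x
      exact ⟨⟨R w, w, rfl⟩, rfl⟩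
  have h2 : (LinearMap.ker g).map (LinearMap.range R).subtype = N ⊓ LinearMap.range R := by
    ext v
    constructor
    · rintro ⟨⟨v, hv⟩, h3, rfl⟩
      refine ⟨?_, hv⟩
      have h4 : N.mkQ v = 0 := h3
      rwa [Submodule.mkQ_apply, Submodule.Quotient.mk_eq_zero] at h4
    · rintro ⟨hv, hv'⟩
      refine ⟨⟨v, hv'⟩, ?_, rfl⟩
      change N.mkQ v = 0
      rwa [Submodule.mkQ_apply, Submodule.Quotient.mk_eq_zero]
  have h3 := LinearMap.finrank_range_add_finrank_ker g
  rw [h1, (LinearEquiv.finrank_eq (Submodule.equivMapOfInjective (LinearMap.range R).subtype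
    (Submodule.subtype_injective _) (LinearMap.ker g))), h2] at h3
  exact h3

omit [CharZero K] in
/-- The dimension of a stable subspace. -/
lemma finrank_split [FiniteDimensional K V] (hR : R * R = R) {T : Submodule K V}
    (h : ∀ v ∈ T, R v ∈ T) :
    Module.finrank K T = Module.finrank K (T ⊓ LinearMap.range R : Submodule K V) +
      Module.finrank K (T ⊓ LinearMap.ker R : Submodule K V) := by
  have h1 := LinearMap.finrank_range_add_finrank_ker (R.restrict h)
  rw [finrank_range_restrict hR] at h1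
  rw [← h1]
  congr 1
  have h2 : (LinearMap.ker (R.restrict h)).map T.subtype = T ⊓ LinearMap.ker R := by
    ext v
    constructor
    · rintro ⟨w, hw, rfl⟩
      exact ⟨w.2, congrArg Subtype.val hw⟩
    · rintro ⟨hv, hv'⟩
      exact ⟨⟨v, hv⟩, Subtype.ext hv', rfl⟩
  rw [← h2]
  exact (LinearEquiv.finrank_eq (Submodule.equivMapOfInjective _
    (Submodule.subtype_injective _) _))

end

section Rat

variable {K : Type*} [Field K] [CharZero K] {A : Type*} [AddCommGroup A] [Module K A]
  [FiniteDimensional K A]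

/-- **Rational structures**: the trace on the quotient is rational. -/
theorem trace_quot_rational (L : Set A) (hspan : Submodule.span K L = ⊤) {I : Type*}
    (l : I → A →ₗ[K] K) (hl : ∀ i, ∀ x ∈ L, ∃ q : ℚ, l i x = (q : K)) (N : Submodule K A)
    (hN : ∀ x, x ∈ N ↔ ∀ i, l i x = 0) (f : Module.End K A) (hf : ∀ x ∈ L, f x ∈ L)
    (hfN : N ≤ N.comap f) : ∃ q : ℚ, LinearMap.trace K (A ⧸ N) (N.mapQ N f hfN) = (q : K) := by
  classical
  obtain ⟨b, hb, hbspan, hlin⟩ := exists_linearIndependent K (N.mkQ '' L)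
  have htop : Submodule.span K (Set.range (Subtype.val : b → A ⧸ N)) = ⊤ := by
    rw [Subtype.range_coe, hbspan, ← Submodule.map_span, hspan, Submodule.map_top,
      Submodule.range_mkQ]
  set B : Module.Basis b K (A ⧸ N) := Module.Basis.mk hlin htop.ge with hB
  have hBj : ∀ j : b, B j = (j : A ⧸ N) := fun j => Module.Basis.mk_apply _ _ _
  have : Fintype b := FiniteDimensional.fintypeBasisIndex B
  obtain ⟨ret, hret⟩ := Pool.Agent.H914.exists_retract K
  choose x hxL hx using fun j : b => hb j.2
  -- the coordinates of the elements of `L` are rational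
  have hcoord : ∀ y ∈ L, ∀ j, ∃ q : ℚ, B.repr (N.mkQ y) j = (q : K) := by
    intro y hy
    set c : b → K := fun j => B.repr (N.mkQ y) j with hc
    have h0 : N.mkQ y = ∑ j, c j • (j : A ⧸ N) := by
      have h00 := (B.sum_repr (N.mkQ y)).symm
      simp only [hBj] at h00
      exact h00
    have h1 : y - ∑ j, c j • x j ∈ N := by
      rw [← Submodule.Quotient.mk_eq_zero, ← Submodule.mkQ_apply, map_sub, map_sum]
      simp only [map_smul, hx]
      rw [h0, sub_self]
    have h2 : ∑ j, (c j - ((ret (c j) : ℚ) : K)) • x j ∈ N := by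
      rw [hN]
      intro i
      have h3 := (hN _).1 h1 i
      rw [map_sub, map_sum, sub_eq_zero] at h3
      obtain ⟨q, hq⟩ := hl i y hy
      choose r hr using fun j => hl i (x j) (hxL j)
      simp only [map_smul, smul_eq_mul, hr, hq] at h3
      have h4 := congrArg ret h3
      rw [map_sum] at h4
      have h5 : (q : ℚ) = ∑ j, ret (c j) * r j := by
        have h6 : ret ((q : ℚ) : K) = q := by
          have := Pool.Agent.H914.ret_mul (ret := ret) q (1 : K)
          rwa [one_mul, hret, one_mul] at this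
        rw [← h6, h4]
        exact Finset.sum_congr rfl fun j _ => Pool.Agent.H914.ret_mul _ _
      rw [map_sum]
      simp only [map_smul, smul_eq_mul, hr, sub_mul]
      rw [Finset.sum_sub_distrib, ← h3, h5]
      push_cast
      rw [sub_self]
    have h3 : ∀ j, c j - ((ret (c j) : ℚ) : K) = 0 := by
      have h4 : ∑ j, (c j - ((ret (c j) : ℚ) : K)) • (j : A ⧸ N) = 0 := by
        rw [← (Submodule.Quotient.mk_eq_zero N)] at h2
        rw [← Submodule.mkQ_apply, map_sum] at h2
        simp only [map_smul, hx] at h2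
        exact h2
      exact Fintype.linearIndependent_iff.1 hlin _ h4
    intro j
    exact ⟨ret (c j), sub_eq_zero.1 (h3 j)⟩
  rw [LinearMap.trace_eq_matrix_trace K B, Matrix.trace]
  have h5 : ∀ j : b, ∃ q : ℚ, (LinearMap.toMatrix B B (N.mapQ N f hfN)).diag j = (q : K) := by
    intro j
    obtain ⟨q, hq⟩ := hcoord _ (hf _ (hxL j)) j
    refine ⟨q, ?_⟩
    rw [← hq, Matrix.diag_apply, LinearMap.toMatrix_apply, hBj, ← hx j]
    rfl
  choose q hq using h5
  exact ⟨∑ j, q j, by rw [Finset.sum_congr rfl fun j _ => hq j]; push_cast; rfl⟩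

end Rat

end Pool.Agent.N181.Mod
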