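import Pool.Agent.N181.Mod.LinC
import Pool.Agent.TH132.P.Main

/-!
# Systems of spaces of classes: generalised Tate classes, algebraic classes, numerically trivial
classes
-/

set_option autoImplicit false

open CategoryTheory AlgebraicGeometry

universe u v

namespace Pool.Agent.N181.Mod

open Pool.Agent.H914 Pool.Agent.H914.VarClass Pool.Agent.H914.VarClass.Obj
  Pool.Agent.H914.WeilCohomology Pool.Agent.H281R3.HT Pool.Agent.W534 Pool.Agent.TH132.P

variable {k : Type u} [Field k] {𝒱 : VarClass k} {ops : CycleOps 𝒱}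
  {W : WeilCohomology.{u, v} ops} {X Y Z Z' : 𝒱.Obj} {p : ℕ}

/-- A system of spaces of classes, stable under pull-back, push-forward and products with algebraic
classes. -/
structure Sys (W : WeilCohomology.{u, v} ops) where
  S : ∀ Z : 𝒱.Obj, ℕ → Submodule W.K (W.H Z)
  gr : ∀ (Z : 𝒱.Obj) (c : ℕ) {x : W.H Z}, x ∈ S Z c → x ∈ W.gr Z (2 * c)
  map : ∀ {Z Z' : 𝒱.Obj} (f : Z ⟶ Z') {c : ℕ} {x : W.H Z'}, x ∈ S Z' c → W.map f x ∈ S Z c
  push : ∀ {Z Z' : 𝒱.Obj} (f : Z ⟶ Z') {c c' : ℕ} {x : W.H Z}, x ∈ S Z c →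
    c + Z'.dim = c' + Z.dim → W.push f x ∈ S Z' c'
  mul : ∀ {Z : 𝒱.Obj} {c q : ℕ} {z x : W.H Z}, z ∈ spanCycles W Z (q : ℕ) → x ∈ S Z c →
    z * x ∈ S Z (q + c)

namespace Sys

variable (𝒮 : Sys W)

lemma bot {c : ℕ} (hc : Z.dim < c) : 𝒮.S Z c = ⊥ := by
  rw [eq_bot_iff]
  intro x hx
  have h1 := 𝒮.gr Z c hx
  rwa [W.gr_eq_bot Z (2 * c) (by omega)] at h1

lemma mul_right {c q : ℕ} {z x : W.H Z} (hz : z ∈ spanCycles W Z (q : ℕ)) (hx : x ∈ 𝒮.S Z c) :
    x * z ∈ 𝒮.S Z (c + q) := by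
  have h1 := 𝒮.mul hz hx
  rwa [W.even_comm (H914.span_gr hz), add_comm] at h1

lemma corr {c c' q : ℕ} {γ : W.H (X.prod Y)} (hγ : γ ∈ spanCycles W (X.prod Y) (q : ℕ))
    {x : W.H X} (hx : x ∈ 𝒮.S X c) (h : q + c = c' + X.dim) : W.corr γ x ∈ 𝒮.S Y c' := by
  rw [corr_apply]
  exact 𝒮.push (snd X Y) (𝒮.mul hγ (𝒮.map (fst X Y) hx)) (by rw [dim_prod]; omega)

/-- The operators of degree `0`. -/
lemma kop {φ : Module.End W.K (W.H Z)} (hφ : φ ∈ KOp W Z Z 0) {c : ℕ} {x : W.H Z}
    (hx : x ∈ 𝒮.S Z c) : φ x ∈ 𝒮.S Z c := by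
  obtain ⟨γ, hγ, rfl⟩ := mem_KOp_iff.1 hφ
  rw [add_zero] at hγ
  exact 𝒮.corr hγ hx (by omega)

end Sys

/-- The algebraic classes. -/
noncomputable def sysA (W : WeilCohomology.{u, v} ops) : Sys W where
  S Z c := spanCycles W Z (c : ℕ)
  gr _ _ _ hx := H914.span_gr hx
  map f _ x hx := by
    refine spanCycles_ind (p := fun x => W.map f x ∈ _) ?_ ?_ ?_ ?_ hx
    · intro x hx; exact alg_mem_span (alg_map f hx)
    · rw [map_zero]; exact Submodule.zero_mem _
    · intro x y hx hy; rw [map_add]; exact Submodule.add_mem _ hx hy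
    · intro r x hx; rw [map_smul]; exact Submodule.smul_mem _ _ hx
  push f _ _ x hx h := by
    refine spanCycles_ind (p := fun x => W.push f x ∈ _) ?_ ?_ ?_ ?_ hx
    · intro x hx; exact alg_mem_span (alg_push f hx h)
    · rw [map_zero]; exact Submodule.zero_mem _
    · intro x y hx hy; rw [map_add]; exact Submodule.add_mem _ hx hy
    · intro r x hx; rw [map_smul]; exact Submodule.smul_mem _ _ hx
  mul := by
    intro Z c q z x hz hx
    refine spanCycles_ind (p := fun z => z * x ∈ spanCycles W Z ((q + c : ℕ) : ℤ)) ?_ ?_ ?_ ?_ hz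
    · intro z hz
      refine spanCycles_ind (p := fun x => z * x ∈ spanCycles W Z ((q + c : ℕ) : ℤ)) ?_ ?_ ?_ ?_ hx
      · intro x hx; exact alg_mem_span (alg_mul hz hx)
      · rw [mul_zero]; exact Submodule.zero_mem _
      · intro x y hx hy; rw [mul_add]; exact Submodule.add_mem _ hx hy
      · intro r x hx; rw [mul_smul_comm]; exact Submodule.smul_mem _ _ hx
    · rw [zero_mul]; exact Submodule.zero_mem _
    · intro x y hx hy; rw [add_mul]; exact Submodule.add_mem _ hx hy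
    · intro r x hx; rw [smul_mul_assoc]; exact Submodule.smul_mem _ _ hx

/-- The numerically trivial algebraic classes. -/
noncomputable def sysN (W : WeilCohomology.{u, v} ops) : Sys W where
  S Z c := nul W Z c
  gr _ _ _ hx := H914.span_gr (mem_nul.1 hx).1
  map := by
    intro Z Z' f c x hx
    obtain ⟨h1, h2⟩ := mem_nul.1 hx
    have h3 := (sysA W).map f h1
    refine mem_nul.2 ⟨h3, fun y hy => ?_⟩
    by_cases hc : c ≤ Z.dim
    · by_cases hc' : c ≤ Z'.dim
      · have h4 : W.tr Z (W.map f x * y) = W.tr Z' (x * W.push f y) := by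
          rw [W.even_comm (H914.span_gr h3), ← W.tr_push, ← W.even_comm (H914.span_gr h1)]
        rw [h4]
        exact h2 _ ((sysA W).push f hy (by omega))
      · rw [spanCycles_bot (by omega)] at h1
        rw [(Submodule.mem_bot _).1 h1, map_zero, zero_mul, map_zero]
    · have h4 : W.map f x ∈ spanCycles W Z (c : ℕ) := h3
      rw [spanCycles_bot (by omega)] at h4
      rw [(Submodule.mem_bot _).1 h4, zero_mul, map_zero]
  push := by
    intro Z Z' f c c' x hx hcc
    obtain ⟨h1, h2⟩ := mem_nul.1 hx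
    have h3 := (sysA W).push f h1 hcc
    refine mem_nul.2 ⟨h3, fun y hy => ?_⟩
    by_cases hc : c ≤ Z.dim
    · rw [W.tr_push]
      exact h2 _ (by
        have := (sysA W).map f hy
        have e : Z'.dim - c' = Z.dim - c := by omega
        rw [← e]
        exact this)
    · rw [spanCycles_bot (by omega)] at h1
      rw [(Submodule.mem_bot _).1 h1, map_zero, zero_mul, map_zero]
  mul := by
    intro Z c q z x hz hx
    obtain ⟨h1, h2⟩ := mem_nul.1 hx
    have h3 := (sysA W).mul hz h1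
    refine mem_nul.2 ⟨h3, fun y hy => ?_⟩
    by_cases hc : q + c ≤ Z.dim
    · rw [W.even_comm (H914.span_gr hz), mul_assoc]
      exact h2 _ (by
        have := (sysA W).mul hz hy
        have e : q + (Z.dim - (q + c)) = Z.dim - c := by omega
        rw [← e]
        exact this)
    · have h4 : z * x ∈ spanCycles W Z ((q + c : ℕ) : ℤ) := h3
      rw [spanCycles_bot (by omega)] at h4
      rw [(Submodule.mem_bot _).1 h4, zero_mul, map_zero]

section Gen

/-- Generalised eigenvectors under maps that commute up to a factor. -/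
lemma gen_of_semi {K V V' : Type*} [Field K] [AddCommGroup V] [Module K V] [AddCommGroup V']
    [Module K V'] {F : Module.End K V} {F' : Module.End K V'} {L : V →ₗ[K] V'} {μ : K}
    (h : ∀ x, F' (L x) = μ • L (F x)) {a : K} {n : ℕ} {x : V}
    (hx : ((F - a • (1 : Module.End K V)) ^ n) x = 0) :
    ((F' - (μ * a) • (1 : Module.End K V')) ^ n) (L x) = 0 := by
  have key : ∀ (n : ℕ) (x : V), ((F' - (μ * a) • (1 : Module.End K V')) ^ n) (L x) =
      μ ^ n • L (((F - a • (1 : Module.End K V)) ^ n) x) := by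
    intro n
    induction n with
    | zero => intro x; simp
    | succ n ih =>
      intro x
      have e : (F' - (μ * a) • (1 : Module.End K V')) (L x) =
          μ • L ((F - a • (1 : Module.End K V)) x) := by
        rw [LinearMap.sub_apply, h, LinearMap.smul_apply, Module.End.one_apply, mul_smul,
          LinearMap.sub_apply, LinearMap.smul_apply, Module.End.one_apply, map_sub, map_smul,
          smul_sub]
      rw [pow_succ, Module.End.mul_apply, e, map_smul, ih,
        pow_succ (F - a • (1 : Module.End K V)), Module.End.mul_apply, smul_smul, pow_succ']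
  rw [key, hx, map_zero, smul_zero]

variable (Φ : FrobSystem W p)

lemma push_frob (f : Z ⟶ Z') : ∃ a b, 0 < a ∧ 0 < b ∧ a * Φ.e Z = b * Φ.e Z' ∧
    ∀ (t : ℕ) (y : W.H Z), ((p : W.K) ^ (Φ.e Z * (a * t) * Z.dim)) •
      frob Φ Z' (b * t) (W.push f y) =
      ((p : W.K) ^ (Φ.e Z * (a * t) * Z'.dim)) • W.push f (frob Φ Z (a * t) y) := by
  obtain ⟨a, b, ha, hb, hab, h⟩ := frob_comm Φ f
  refine ⟨a, b, ha, hb, hab, fun t y => ?_⟩
  have hE : Φ.e Z' * (b * t) = Φ.e Z * (a * t) := by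
    calc Φ.e Z' * (b * t) = (b * Φ.e Z') * t := by ring
      _ = Φ.e Z * (a * t) := by rw [← hab]; ring
  apply W.tr_ext
  intro w'
  obtain ⟨w, rfl⟩ := map_iter_surjective Φ (b * t) w'
  have h3 := tr_iter Φ (b * t) (W.push f y * w)
  have h4 := tr_iter Φ (a * t) (y * W.map f w)
  rw [map_mul] at h3 h4
  rw [h t w] at h4
  rw [smul_mul_assoc, smul_mul_assoc, map_smul, map_smul, smul_eq_mul, smul_eq_mul, frob_apply,
    frob_apply, h3, W.tr_push, W.tr_push, h4, hE]
  ring

lemma card_cast (s : ℕ) : (card Φ Z s : W.K) = (p : W.K) ^ (Φ.e Z * s) := by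
  rw [W534.card, Nat.cast_pow]

/-- The generalised Tate classes. -/
noncomputable def sysT : Sys W where
  S Z c := genT Φ Z c
  gr := by
    intro Z c x hx
    obtain ⟨s, hs, h⟩ := (mem_genT Φ).1 hx
    exact ((mem_genTate Φ).1 h).2
  map := by
    intro Z Z' f c x hx
    obtain ⟨s, hs, h⟩ := (mem_genT Φ).1 hx
    obtain ⟨a, b, ha, hb, hab, hcomm⟩ := frob_comm Φ f
    obtain ⟨⟨n, hn⟩, hg⟩ := (mem_genTate Φ).1 (genTate_mono' Φ s b c h)
    refine (mem_genT Φ).2 ⟨a * s, Nat.mul_pos ha hs, (mem_genTate Φ).2 ⟨⟨n, ?_⟩,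
      W.map_mem f hg⟩⟩
    have h1 := gen_of_semi (F := frob Φ Z' (b * s)) (F' := frob Φ Z (a * s))
      (L := (W.map f).toLinearMap) (μ := 1) (a := (card Φ Z' (b * s) : W.K) ^ c) (n := n) (x := x)
      (fun y => by
        rw [one_smul]
        exact hcomm s y) hn
    rw [one_mul] at h1
    have e : (card Φ Z (a * s) : W.K) = (card Φ Z' (b * s) : W.K) := by
      rw [card_cast, card_cast]
      congr 1
      calc Φ.e Z * (a * s) = (a * Φ.e Z) * s := by ring
        _ = Φ.e Z' * (b * s) := by rw [hab]; ring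
    rw [e]
    exact h1
  push := by
    intro Z Z' f c c' x hx hcc
    obtain ⟨s, hs, h⟩ := (mem_genT Φ).1 hx
    obtain ⟨a, b, ha, hb, hab, hcomm⟩ := push_frob Φ f
    obtain ⟨⟨n, hn⟩, hg⟩ := (mem_genTate Φ).1 (genTate_mono' Φ s a c h)
    have hpush := W.push_mem f hg
    rw [show ((2 * c : ℕ) : ℤ) + 2 * ((Z'.dim : ℤ) - Z.dim) = ((2 * c' : ℕ) : ℤ) by
      push_cast; omega, grZ_natCast] at hpush
    refine (mem_genT Φ).2 ⟨b * s, Nat.mul_pos hb hs, (mem_genTate Φ).2 ⟨⟨n, ?_⟩, hpush⟩⟩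
    have hp0 : (p : W.K) ≠ 0 := cast_p_ne Φ
    set Q : W.K := (p : W.K) ^ (Φ.e Z * (a * s)) with hQ
    have hQ0 : Q ≠ 0 := pow_ne_zero _ hp0
    have eQ : (card Φ Z' (b * s) : W.K) = Q := by
      rw [card_cast, hQ]
      congr 1
      calc Φ.e Z' * (b * s) = (b * Φ.e Z') * s := by ring
        _ = Φ.e Z * (a * s) := by rw [← hab]; ring
    have h1 := gen_of_semi (F := frob Φ Z (a * s)) (F' := frob Φ Z' (b * s))
      (L := W.push f) (μ := Q ^ Z'.dim * (Q ^ Z.dim)⁻¹)
      (a := (card Φ Z (a * s) : W.K) ^ c) (n := n) (x := x)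
      (fun y => by
        have h2 := hcomm s y
        rw [pow_mul (p : W.K) (Φ.e Z * (a * s)), pow_mul (p : W.K) (Φ.e Z * (a * s)), ← hQ] at h2
        rw [mul_comm (Q ^ Z'.dim) (Q ^ Z.dim)⁻¹, mul_smul, ← h2, smul_smul,
          inv_mul_cancel₀ (pow_ne_zero _ hQ0), one_smul]) hn
    have e : Q ^ Z'.dim * (Q ^ Z.dim)⁻¹ * (card Φ Z (a * s) : W.K) ^ c =
        (card Φ Z' (b * s) : W.K) ^ c' := by
      rw [eQ, card_cast, ← hQ, mul_comm (Q ^ Z'.dim), mul_assoc, ← pow_add, add_comm Z'.dim, hcc,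
        pow_add, mul_comm (Q ^ c'), inv_mul_cancel_left₀ (pow_ne_zero _ hQ0)]
    rw [e] at h1
    exact h1
  mul := by
    intro Z c q z x hz hx
    obtain ⟨s, hs, h⟩ := (mem_genT Φ).1 hx
    obtain ⟨t, ht, h2⟩ := exists_span_eig Φ Z q
    have h3 := span_eig_mul' Φ (h2 z hz) s
    obtain ⟨⟨n, hn⟩, hg⟩ := (mem_genTate Φ).1 (genTate_mono Φ s t c h)
    have hgr := W.mul_mem (H914.span_gr hz) hg
    rw [show 2 * q + 2 * c = 2 * (q + c) by ring] at hgr
    refine (mem_genT Φ).2 ⟨s * t, Nat.mul_pos hs ht, (mem_genTate Φ).2 ⟨⟨n, ?_⟩, hgr⟩⟩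
    have h1 := gen_of_semi (F := frob Φ Z (s * t)) (F' := frob Φ Z (s * t))
      (L := LinearMap.mulLeft W.K z) (μ := (card Φ Z (s * t) : W.K) ^ q)
      (a := (card Φ Z (s * t) : W.K) ^ c) (n := n) (x := x)
      (fun y => by
        rw [LinearMap.mulLeft_apply, LinearMap.mulLeft_apply, frob_apply, map_mul, ← frob_apply,
          ← frob_apply, h3, smul_mul_assoc]) hn
    rw [← pow_add] at h1
    exact h1

end Gen

end Pool.Agent.N181.Mod
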